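import Pool.Agent.H65.VS.Vni
import Pool.Agent.H80.NYU.HuS
import Pool.Agent.H90.STV.Tnp
import Pool.Agent.H19.FLN.F1s

/-!
# Parts of the sheets from the static end

`VoidZ.f1us`: no record, hence the first jet is few. `PartB.c`. `partB_su`: the part of small rate from
`SvSU`. `partB_ni`, `partC_ni`: the slope of the static target no integer, `u` steep or static.
-/

set_option autoImplicit false

namespace Pool.STB65

open Finset Real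
open Pool.GEN Pool.PKG Pool.ALT Pool.LA91 Pool.ASM
open Pool.V0F (ChUQ AttUQ)

/-- No record, hence the first jet is few. -/
theorem voidZ_f1us {ι Λ : Type} {n : ℕ} {h : ℝ} {Sl : ℕ → ℝ} {κ : ℕ → Kg} {Q : PropG n ι}
    {Z : PropZ n Λ} (H : VoidZ n h Sl κ Q Z) (r : ℕ) : F1US n r h Sl κ Q Z := by
  intro al hal K₀ hK₀ S₀ hS₀
  obtain ⟨K, N, A, V, h1, h2, H⟩ := H al hal K₀ hK₀ S₀ hS₀
  refine ⟨K, N, A, V, h1, h2, fun S₂ hS₂ dd hdd => ?_⟩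
  obtain ⟨lam, K', N', V', h3, h4, ε, hε, H⟩ := H S₂ hS₂
  refine ⟨lam, Sl r, 1, le_rfl, one_pos, K', N', V', h4, fun K'' hK'' => ⟨ε, hε,
    fun ε' hε' hεε' => ?_⟩⟩
  intro S g₀ P θ P₂ θ₂ Eb e₂ c Pt rt L T G g hG hg hder hZ
  obtain ⟨p, M, B₀, B₁, hB, H⟩ := H S g₀ P θ P₂ θ₂ Eb e₂ c Pt rt L T G g hG hg hder hZ
  refine ⟨p, M, B₀, B₁, hB, fun k₀ hk₀ => ?_⟩
  obtain ⟨q₁, hq₁, H⟩ := H k₀ hk₀
  exact ⟨q₁, hq₁, fun q t x hq hx N₁ A₁ V₁ N₁' V₁' R hp hw pf pr Nf _ _ _ _ => (H q t x hq hx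
    (R.mono hK'' hεε' (fun k hk => by
      obtain ⟨j, hj, e1, e2⟩ := hp k hk
      exact ⟨j, hj, e1.symm, e2.symm⟩) (fun k hk => by
      obtain ⟨j, hj, e1⟩ := hw k hk
      exact ⟨j, hj, e1.symm⟩))).elim⟩

/-- Void parts are parts of small rate. -/
theorem partB_c {κ : ℕ → Kg} {Φ : (ℕ → ℝ) → Prop} {Adm : (ℕ → ℝ) → AltJ → PropW 4}
    {β : (ℕ → ℝ) → ℝ} (H : PartB κ Φ Adm β) (r : ℕ) : PartC r κ Φ Adm β := by
  obtain ⟨ι, hc, Q, hQ, hh, H⟩ := H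
  exact ⟨ι, hc, Q, hQ, hh, fun h h0 h1 Sl hS b D => voidZ_f1us (H h h0 h1 Sl hS b D) r⟩

/-- Fewer slopes. -/
theorem partB_mono {κ : ℕ → Kg} {Φ Φ' : (ℕ → ℝ) → Prop} {Adm : (ℕ → ℝ) → AltJ → PropW 4}
    {β : (ℕ → ℝ) → ℝ} (H : PartB κ Φ Adm β) (h : ∀ Sl, Φ' Sl → Φ Sl) : PartB κ Φ' Adm β := by
  obtain ⟨ι, hc, Q, hQ, hh, H⟩ := H
  exact ⟨ι, hc, Q, hQ, hh, fun h₁ h0 h1 Sl hS b D => H h₁ h0 h1 Sl (h Sl hS) b D⟩

/-- The property of the windows of the static end. -/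
abbrev QSU : PropG 4 ((Unit ⊕ Unit) ⊕ (ℕ × ℕ × ℚ × ℚ)) :=
  sumQ (sumQ (ChUQ : PropG 4 Unit) (AttUQ : PropG 4 Unit)) FaQ

/-- **The part of small rate from the static end**, `u` steep or static. -/
theorem partB_su {κ : ℕ → Kg} {Φ : (ℕ → ℝ) → Prop} (k0 : κ 0 = .one) (k1 : κ 1 = .one)
    (k2 : κ 2 = .stp ∨ κ 2 = .sta) (k3 : κ 3 = .sta) (h2 : ∀ Sl, Φ Sl → 1 ≤ Sl 2)
    (h3 : ∀ Sl, Φ Sl → 1 < Sl 3)
    (H : ∀ (y a h β' : ℝ) (Sl : ℕ → ℝ) (Dv : ℕ), Φ Sl → β' < Sl 3 * Real.log 2 →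
      SvSU 4 2 y a h Sl κ (sumQ (ChUQ : PropG 4 Unit) (AttUQ : PropG 4 Unit))
        (fun e : PosR => LowE (AdmL 4) β' Dv e)) :
    PartB κ Φ (fun _ => AdmL 4) (fun Sl => Sl 3 * Real.log 2) := by
  have hκ : ∀ l < 2, κ l = .one := fun l hl => by
    interval_cases l
    · exact k0
    · exact k1
  refine ⟨(Unit ⊕ Unit) ⊕ (ℕ × ℕ × ℚ × ℚ), inferInstance, QSU, ?_, ?_, ?_⟩
  · exact aePG_sum (aePG_sum (Pool.V0F.aePG_chU 4) (Pool.V0F.her_chU 4) (Pool.V0F.aePG_attU 4))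
      (her_sum (Pool.V0F.her_chU 4) (Pool.V0F.her_attU 4)) (aePG_fa 4)
  · exact her_sum (her_sum (Pool.V0F.her_chU 4) (Pool.V0F.her_attU 4)) (her_fa 4)
  intro h h0 h1 Sl hS b D
  have hb := b.2
  obtain ⟨a, ha⟩ : ∃ a : ℝ, a = max 2 (Sl 3 + 1) := ⟨_, rfl⟩
  exact voidZ_su (r := 2) (y := 3 / 2) (a := a) (by norm_num) (by norm_num) hκ (by
    rcases k2 with e | e <;> rw [e] <;> simp) (Or.inr k3) (h2 Sl hS) (h3 Sl hS) le_rfl (by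
    rw [ha]
    linarith [le_max_left 2 (Sl 3 + 1)]) (by
    rw [ha]
    exact le_max_right _ _) (H _ _ h _ Sl D hS (by linarith))
    (hur_ss (by norm_num) (by norm_num) hκ k2 (by norm_num) (by
      rw [ha]
      linarith [le_max_left 2 (Sl 3 + 1)]))

/-- **Small rate, `u` steep or static, the slope of the static target no integer**: void. -/
theorem partB_ni {k : Kg} (hk : k = .stp ∨ k = .sta) :
    PartB (kg4 .one .one k .sta) (fun Sl => 1 ≤ Sl 2 ∧ 2 ≤ Sl 3 ∧ ∀ b : ℕ, Sl 3 ≠ b)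
      (fun _ => AdmL 4) (fun Sl => Sl 3 * Real.log 2) :=
  partB_su rfl rfl hk rfl (fun _ h => h.1) (fun Sl h => by linarith [h.2.1])
    fun y a h β' Sl Dv hS hβ => svSU_ni rfl rfl rfl hS.2.2 hS.2.1 hβ

end Pool.STB65
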