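import Pool.Agent.H65.VS.Vin
import Pool.Agent.H65.VS.Prt

/-!
# A static target over `u` steep or static, small rate

`svSU_all`: `SvSU` under `LowE` for every slope of the static target. `partB_sta`, `partC_sta`: the parts of
small rate, `u` steep or static, all slopes. `shA_sB'`, `shA_sC'`: the fields `sB`, `sC` of the sheet `ShA`.
-/

set_option autoImplicit false

namespace Pool.STB65

open Finset Real
open Pool.GEN Pool.PKG Pool.ALT Pool.LA91 Pool.ASM
open Pool.V0F (ChUQ AttUQ)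

/-- **The static end for every slope of the static target.** -/
theorem svSU_all {y a h β' : ℝ} {Sl : ℕ → ℝ} {κ : ℕ → Kg} {Dv : ℕ} (k0 : κ 0 = .one)
    (k1 : κ 1 = .one) (k3 : κ 3 = .sta) (hσ2 : 2 ≤ Sl 3) (hβ : β' < Sl 3 * Real.log 2) :
    SvSU 4 2 y a h Sl κ (sumQ (ChUQ : PropG 4 Unit) (AttUQ : PropG 4 Unit))
      (fun e : PosR => LowE (AdmL 4) β' Dv e) := by
  by_cases hb : ∃ b : ℕ, Sl 3 = b
  · obtain ⟨b, hb⟩ := hb
    exact svSU_int k0 k1 k3 hb (by
      have : (2 : ℝ) ≤ b := by rw [← hb]; exact hσ2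
      exact_mod_cast this) hβ
  · exact svSU_ni k0 k1 k3 (fun b h => hb ⟨b, h⟩) hσ2 hβ

/-- **Small rate, `u` steep or static, static target**: void, all slopes. -/
theorem partB_sta {k : Kg} (hk : k = .stp ∨ k = .sta) :
    PartB (kg4 .one .one k .sta) (fun Sl => 1 ≤ Sl 2 ∧ 2 ≤ Sl 3)
      (fun _ => AdmL 4) (fun Sl => Sl 3 * Real.log 2) :=
  partB_su rfl rfl hk rfl (fun _ h => h.1) (fun Sl h => by linarith [h.2])
    fun y a h β' Sl Dv hS hβ => svSU_all rfl rfl rfl hS.2 hβ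

/-- The field `sB` of `ShA`. -/
theorem shA_sB' : PartB (kg4 .one .one .stp .sta) (fun Sl => NAs Sl ∧ Sl 2 < Sl 3)
    (fun _ => AdmL 4) (fun Sl => Sl 3 * Real.log 2) :=
  partB_mono (partB_sta (Or.inl rfl)) fun Sl h => ⟨by linarith [h.1.2.2.1], h.1.2.2.2⟩

/-- The field `sC` of `ShA`. -/
theorem shA_sC' : PartC 2 (kg4 .one .one .stp .sta) (fun Sl => NAs Sl ∧ Sl 3 ≤ Sl 2)
    (fun _ => AdmL 4) (fun Sl => Sl 3 * Real.log 2) :=
  partB_c (partB_mono (partB_sta (Or.inl rfl)) fun Sl h =>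
    ⟨by linarith [h.1.2.2.1], h.1.2.2.2⟩) 2

end Pool.STB65
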