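import Pool.Agent.H60.ALT.Alo

/-!
# The output of the alternative with weaker numbers

`alo_rt`: a larger error and a shorter row.
-/

set_option autoImplicit false

namespace Pool.STB65

open Finset Real MvPolynomial
open Pool.Agent.H49.Ent Pool.Agent.H32.Dense Pool.STK Pool.KA Pool.KSAT Pool.K2S Pool.PB Pool.S6C
  Pool.GEN Pool.RCD Pool.LA91 Pool.OWN68 Pool.PKG Pool.ALT

/-- A shorter row. -/
theorem alp_rt {m : ℕ} {S : PCl m} {Ψ : Fml m} {c : ℕ → Fin m} {r₀ : ℕ} {κ : Fin m} {D : ℕ}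
    {w v a p q r n h d p₁ p₂ eN uN pN r' : ℝ} (hr : r' ≤ r) (hq : q ≤ r')
    (H : AlpD S Ψ c r₀ κ D w v a p q r n h d p₁ p₂ eN uN pN) :
    AlpD S Ψ c r₀ κ D w v a p q r' n h d p₁ p₂ eN uN pN := by
  obtain ⟨a1, a2, a3, a4, a5, a6, a7⟩ := H.lb
  have hpe := H.peN
  exact { H with
    lb := ⟨a1, a2, a3, a4, a5, by linarith, a7⟩
    peN := by linarith
    qr := hq
    row := fun sa sb h1 h2 h3 => H.row sa sb h1 h2 (by linarith) }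

/-- A larger error and a shorter row. -/
theorem alo_rt {r₀ : ℕ} {S : PCl (r₀ + 2)} {c : ℕ → Fin (r₀ + 2)} {L : ℕ → ℝ → ℝ → ℝ} {D N' : ℕ}
    {V' : ℕ → ℝ} {i j : ℕ} {R h δ lam rr ℓ g₂ X η μ e₀ π₀ q t δ' rr' : ℝ} {Ψ : Fml (r₀ + 2)}
    {w p₁ p₂ eN uN pN pa₁ pa₂ ea ua pa : ℝ} (hq : 0 < q) (hl : 0 ≤ lam) (hδ : δ ≤ δ')
    (hr : rr' ≤ rr) (hlr : lam ≤ rr')
    (H : AlO S c L D N' V' i j R h δ lam rr ℓ g₂ X η μ e₀ π₀ q t Ψ w p₁ p₂ eN uN pN pa₁ pa₂ ea ua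
      pa) :
    AlO S c L D N' V' i j R h δ' lam rr' ℓ g₂ X η μ e₀ π₀ q t Ψ w p₁ p₂ eN uN pN pa₁ pa₂ ea ua
      pa := by
  have h1 : δ * lam * q ≤ δ' * lam * q :=
    mul_le_mul_of_nonneg_right (mul_le_mul_of_nonneg_right hδ hl) hq.le
  have h2 : δ * (lam * q) ≤ δ' * (lam * q) :=
    mul_le_mul_of_nonneg_right hδ (mul_nonneg hl hq.le)
  have hpN := H.pN1
  exact { H with
    pN1 := by linarith
    alp := fun n a1 a2 => alp_rt (mul_le_mul_of_nonneg_right hr hq.le)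
      (mul_le_mul_of_nonneg_right hlr hq.le) ((H.alp n a1 a2).mono (by linarith)) }

end Pool.STB65
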