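import Pool.Agent.H42.D2.Nrb
import Pool.Agent.H73.D2.Tnr

/-!
# Closed labels of a static target which are closed at an earlier window, at the scale of a record

`hn_rs`: `HnB` from the record, for `u` thin (or of slope one) over coordinates of slope one and `N`
static, with the pairs `(a, 0)`, `(au, -v₁)` and `(au, y)`, and from `BlB` at the window `t - v₁ q`.
-/

set_option autoImplicit false

namespace Pool.STB65

open Finset Real
open Pool.Agent.H49.Ent Pool.Agent.H32.Dense Pool.STK Pool.KA Pool.KSAT Pool.K2S Pool.PB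
open Pool.GEN Pool.S6C Pool.STAT Pool.CHT Pool.GRW Pool.ONE Pool.STA Pool.ALT Pool.PKG
open Pool.LBT (LSys ThrOf)
open Pool.LEV (Law)
open Pool.ALL (RateOf)
open Pool.ISO (PtD lvN WinD)
open Pool.V1E (vG vG_ge HnB hn_con)
open Pool.PN18 (Fm2)

/-- **Closed labels of `N`**, at the place `r + 1`, closed at the window `t - v₁ q`, at the scale of a
record. -/
theorem hn_rs (m r S₂ : ℕ) (hr : 1 ≤ r) (hS₂ : 1 ≤ S₂) : ∃ Du : ℕ, 1 ≤ Du ∧ ∀ D : ℕ, 1 ≤ D →
    ∀ C : ℝ, 1 ≤ C → ∃ C₁ : ℝ, 1 ≤ C₁ ∧ ∀ {S : PCl m} {al : ℝ} {g₀ : ℝ → ℝ}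
    {P : List (Fin m) × Fin m → ℝ → ℝ → ℝ} {θ : ℝ}
    {P₂ : ℕ → List (Fin m) × Fin m → ℝ → ℝ → ℝ} {θ₂ Eb e₂ : ℕ → ℝ}
    {c : ℕ → Fin m} {Pt : ℝ → ℝ → ℝ} {rt : ℝ → ℝ} {h K₀ g : ℝ} {L T : ℕ → ℝ → ℝ → ℝ}
    {Sl : ℕ → ℝ} {κ : ℕ → Kg} {G : Set ℝ} {S₀ N : ℕ} {A V : ℕ → ℝ} {N' : ℕ} {V' : ℕ → ℝ}
    {K ε q t : ℝ},
    RecG S al g₀ P θ P₂ θ₂ Eb e₂ c Pt rt h K₀ g L T Sl κ G S₀ N A V S₂ N' V' K ε q t →
    r + 1 < m → (∀ l < r, κ l = .one) → κ r = .thin ∨ κ r = .one → κ (r + 1) = .sta →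
    ∀ {y a au v₁ k₁ hh X w : ℝ} {vw : ℕ → ℝ} {Θ : Fm2 m} {D' : ℕ} (Dr N₁ N₂ : ℕ),
    1 ≤ N₁ → 3 ≤ N₂ → 3 / 2 ≤ y → y + 1 / 2 ≤ a → Sl (r + 1) + 1 ≤ a → a + 1 ≤ k₁ →
    2 * a + k₁ + 4 ≤ K → 0 ≤ v₁ → v₁ + 1 ≤ K → y + 1 ≤ au → au ≤ K →
    (Sl (r + 1) - 1) * y + (Sl (r + 1) - 2) * v₁ ≤ au →
    Sl (r + 1) - 1 ≤ (Sl r - Sl (r + 1)) * v₁ →
    (∃ j < N, A j = a ∧ V j = 0) → (∃ j < N, A j = au ∧ V j = -v₁) →
    (∃ j < N, A j = au ∧ V j = y) → 0 < hh → 0 ≤ ε →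
    C₁ * ε ≤ hh → C₁ * hh ≤ X → C₁ * hh ≤ 1 → Du ≤ D' →
    BlB S c r (c (r + 1)) w (t + -v₁ * q) D' D'
      (L (r + 1) (t + -v₁ * q) (t + -v₁ * q) - 2 * (hh * q))
      (L r (t + -v₁ * q) (t + -v₁ * q) - 2 * (hh * q))
      (L r (t + -v₁ * q) (t + -v₁ * q) - L (r + 1) (t + -v₁ * q) (t + -v₁ * q) + X / 4 * q)
      (Fm2.lab Θ) →
    (∀ (J : ℕ) (F : Fam m J) (A B : F.Ω → Prop) (V C : Type) (z : PtT F → V)
      (z' : LnT F → V) (G₁ G₂ : V → MvPolynomial (Option (Fin m)) ℝ) (cc : LnT F → C), Sub B A →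
      Θ J F A V C z z' G₁ G₂ cc → Θ J F B V C z z' G₁ G₂ cc) →
    ∃ K₄ : ℝ, 0 < K₄ ∧ ∀ κ₁ : ℝ,
      HnB S c r D Du Dr N₁ N₂ (fun l => κ l = .one ∨ κ l = .thin) C (t + a * q) (Eb (r + 1))
        (3 * ε * q) (hh * q) (X * q) (Sl (r + 1) * q) (L (r + 1)) (fun k => t + vG y k₁ vw k * q)
        (fun k l => lvN P c (r + 1) (L (r + 1)) l (t + vG y k₁ vw k * q) (t + vG y k₁ vw k * q))
        (fun k l => bet P c l (t + a * q) (t + vG y k₁ vw k * q)) κ₁ K₄ (XiF Θ w) := by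
  obtain ⟨Du, hDu, hhn⟩ := hn_con m r S₂ hr hS₂
  refine ⟨Du, hDu, fun D hD C hC => ?_⟩
  obtain ⟨C₀, hC₀, hhn⟩ := hhn D hD C hC
  obtain ⟨C₁, hC₁⟩ : ∃ C₁ : ℝ, C₁ = 4 * C₀ + 8 * C + 4 := ⟨_, rfl⟩
  refine ⟨C₁, by linarith, ?_⟩
  intro S al g₀ P θ P₂ θ₂ Eb e₂ c Pt rt h K₀ g L T Sl κ G S₀ N A V N' V' K ε q t R hrm hκ hκu hκt
    y a au v₁ k₁ hh X w vw Θ D' Dr N₁ N₂ hN₁ hN₂ hy hya hsa hkk hkK hv₁ hv₁K hyau hauK hrow hgain
    hp0 hp1 hp2 hhh hε hCε hCh hC1 hD' hBl hΘs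
  have hq := R.q0
  have ht0 := R.t0
  have ht1 := R.t1
  have hC₀0 : 0 < C₀ := by linarith
  have hC0 : 0 < C := by linarith
  have W := R.tg (r + 1) (by omega) hrm
  -- products
  have mq : ∀ {x z : ℝ}, x ≤ z → x * q ≤ z * q := fun h => mul_le_mul_of_nonneg_right h hq.le
  have hεq : 0 ≤ ε * q := mul_nonneg hε hq.le
  have hhq : 0 < hh * q := mul_pos hhh hq
  have eC : ∀ z : ℝ, C₁ * z = 4 * (C₀ * z) + 8 * (C * z) + 4 * z := fun z => by
    rw [hC₁]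
    ring
  have pC : ∀ {z : ℝ}, 0 ≤ z → 0 ≤ C₀ * z ∧ 0 ≤ C * z := fun hz =>
    ⟨mul_nonneg hC₀0.le hz, mul_nonneg hC0.le hz⟩
  obtain ⟨k1, k2⟩ := pC hε
  obtain ⟨k3, k4⟩ := pC hhh.le
  rw [eC] at hCε hCh hC1
  obtain ⟨e, he⟩ : ∃ e : ℝ, e = ε * q := ⟨_, rfl⟩
  obtain ⟨H, hH⟩ : ∃ H : ℝ, H = hh * q := ⟨_, rfl⟩
  obtain ⟨XX, hXX⟩ : ∃ XX : ℝ, XX = X * q := ⟨_, rfl⟩
  have he0 : 0 ≤ e := by rw [he]; exact hεq
  have hH0 : 0 < H := by rw [hH]; exact hhq
  have n1 : 4 * (C₀ * e) + 4 * e ≤ H := by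
    have := mq (show 4 * (C₀ * ε) + 4 * ε ≤ hh by linarith)
    rw [he, hH]
    linarith
  have n2 : 4 * (C₀ * H) + 8 * (C * H) + 4 * H ≤ XX := by
    have := mq hCh
    rw [hH, hXX]
    linarith
  have n3 : 4 * (C₀ * H) + 8 * (C * H) + 4 * H ≤ q := by
    have := mq hC1
    rw [hH]
    linarith
  obtain ⟨p1, p2⟩ := pC he0
  obtain ⟨p3, p4⟩ := pC hH0.le
  have hkd := R.kd (r + 1) hrm
  rw [hκt] at hkd
  obtain ⟨b, hb⟩ : ∃ b : ℝ, b = Sl (r + 1) := ⟨_, rfl⟩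
  obtain ⟨s, hs⟩ : ∃ s : ℝ, s = Sl r := ⟨_, rfl⟩
  rw [← hb] at hsa hrow hgain hkd
  rw [← hs] at hgain
  have hb2 : 2 ≤ b := hkd.1
  have hkdT := hkd.2
  have hs1 : 1 ≤ s := by
    have h4 := R.kd r (by omega)
    rw [← hs] at h4
    rcases hκu with hk | hk
    · rw [hk] at h4
      exact h4.1.le
    · rw [hk] at h4
      have : s = 1 := h4
      linarith
  have hyq : 3 / 2 * q ≤ y * q := mq hy
  have hyaq : y * q + q / 2 ≤ a * q := by
    have := mq hya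
    linarith
  have hsaq : b * q + q ≤ a * q := by
    have := mq hsa
    linarith
  have hbq : 2 * q ≤ b * q := mul_le_mul_of_nonneg_right hb2 hq.le
  have hk₁q : a * q + q ≤ k₁ * q := by
    have := mq hkk
    linarith
  have hkKq : 2 * (a * q) + k₁ * q + 4 * q ≤ K * q := by
    have := mq hkK
    linarith
  have hv₁q : 0 ≤ v₁ * q := mul_nonneg hv₁ hq.le
  have hv₁Kq : v₁ * q + q ≤ K * q := by
    have := mq hv₁K
    linarith
  have hyauq : y * q + q ≤ au * q := by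
    have := mq hyau
    linarith
  have hauKq := mq hauK
  have hrowq : b * (y * q) - y * q + (b * (v₁ * q) - 2 * (v₁ * q)) ≤ au * q := by
    have := mq hrow
    linarith
  have hgq : b * q - q ≤ s * (v₁ * q) - b * (v₁ * q) := by
    have := mq hgain
    linarith
  have hby : b * q + y * q ≤ b * (y * q) + q := by
    have h1 : 0 ≤ (b - 1) * (y - 1) * q :=
      mul_nonneg (mul_nonneg (by linarith) (by linarith)) hq.le
    linarith
  have hsy : s * q + y * q ≤ s * (y * q) + q := by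
    have h1 : 0 ≤ (s - 1) * (y - 1) * q :=
      mul_nonneg (mul_nonneg (by linarith) (by linarith)) hq.le
    linarith
  have hsq : q ≤ s * q := le_mul_of_one_le_left hq.le hs1
  -- windows
  obtain ⟨o, ho⟩ : ∃ o : ℕ → ℝ, o = fun k => t + vG y k₁ vw k * q := ⟨_, rfl⟩
  have hoE : ∀ k, o k = t + vG y k₁ vw k * q := fun k => by rw [ho]
  have o2 : o 2 = t - k₁ * q := by rw [hoE 2]; simp [vG]; ring
  have o0 : o 0 = t := by rw [hoE 0]; simp [vG]
  have o3 : o 3 = t + q := by rw [hoE 3]; simp [vG]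
  have o1 : o 1 = t + y * q := by rw [hoE 1]; simp [vG]
  obtain ⟨b₁, hb₁⟩ : ∃ b₁ : ℝ, b₁ = t + -v₁ * q := ⟨_, rfl⟩
  have hb₁' : b₁ = t - v₁ * q := by rw [hb₁]; ring
  have hot : ∀ k, t + vG y k₁ vw k * q = o k := fun k => by rw [ho]
  have hot2 : (fun k => t + vG y k₁ vw k * q) = o := ho.symm
  rw [hot2]
  rw [← hb₁] at hBl
  simp only [hot]
  have hlv : ∀ l ≤ r + 1, ∀ a w : ℝ, lvN P c (r + 1) (L (r + 1)) l a w = L l a w :=
    fun l hl a w => by rw [← R.lv_at hrm hl]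
  have hbe : ∀ l ≤ r, bet P c l = L l := fun l hl => (R.lv_lt (l := l) (by omega)).symm
  have hxK : ∀ x : ℝ, t - K * q ≤ x → x ≤ t + K * q → |x - t| ≤ K * q := fun x h1 h2 => by
    rw [abs_le]
    constructor <;> linarith
  have dL : ∀ l ≤ r + 1, ∀ x : ℝ, t - K * q ≤ x → x ≤ t + K * q →
      L l x x ≤ L l t t + Sl l * (x - t) + e ∧ L l t t + Sl l * (x - t) - e ≤ L l x x := by
    intro l hl x h1 h2
    obtain ⟨h3, h4⟩ := abs_le.1 (R.dL l (by omega) x (hxK x h1 h2))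
    rw [← he] at h3 h4
    constructor <;> linarith
  have sl1 : ∀ l < r, Sl l = 1 := fun l hl => by
    have h2 := R.kd l (by omega)
    rw [hκ l hl] at h2
    exact h2
  have hbx : ∀ k ≤ 3, t - K * q ≤ o k ∧ o k ≤ t + K * q := by
    intro k hk
    interval_cases k
    · rw [o0]; constructor <;> linarith
    · rw [o1]; constructor <;> linarith
    · rw [o2]; constructor <;> linarith
    · rw [o3]; constructor <;> linarith
  have dk : ∀ l ≤ r + 1, ∀ k ≤ 3, L l (o k) (o k) ≤ L l t t + Sl l * (o k - t) + e ∧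
      L l t t + Sl l * (o k - t) - e ≤ L l (o k) (o k) := fun l hl k hk =>
    dL l hl _ (hbx k hk).1 (hbx k hk).2
  have e3 : o 3 - t = q := by rw [o3]; ring
  have e1 : o 1 - t = y * q := by rw [o1]; ring
  have eb : b₁ - t = -(v₁ * q) := by rw [hb₁']; ring
  have hb₁K : t - K * q ≤ b₁ ∧ b₁ ≤ t + K * q := by
    rw [hb₁']
    constructor <;> linarith
  have dbN := dL (r + 1) le_rfl b₁ hb₁K.1 hb₁K.2
  have dbu := dL r (by omega) b₁ hb₁K.1 hb₁K.2
  rw [← hb, eb] at dbN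
  rw [← hs, eb] at dbu
  have d3N := dk (r + 1) le_rfl 3 (by norm_num)
  have d1N := dk (r + 1) le_rfl 1 (by norm_num)
  have d3u := dk r (by omega) 3 (by norm_num)
  have d1u := dk r (by omega) 1 (by norm_num)
  rw [← hb, e3] at d3N
  rw [← hb, e1] at d1N
  rw [← hs, e3] at d3u
  rw [← hs, e1] at d1u
  have lowN : ∀ {x : ℝ}, 0 ≤ x → x ≤ 1 → ∀ l ≤ r + 1, x ≤ L l x x := fun h0 h1 l hl =>
    R.low_at (i := l) (by omega) h0 le_rfl h1
  have lowP : ∀ {x x' : ℝ}, 0 ≤ x → x ≤ x' → x' ≤ 1 → x' ≤ L (r + 1) x' x := fun h0 h1 h2 =>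
    R.low_at (i := r + 1) hrm h0 h1 h2
  -- the rows of `N`
  obtain ⟨j0, hj0, hA0, hV0⟩ := hp0
  obtain ⟨j1, hj1, hA1, hV1⟩ := hp1
  obtain ⟨j2, hj2, hA2, hV2⟩ := hp2
  have rowa : L (r + 1) t t + 2 * (a * q) - 2 * e ≤ L (r + 1) (t + a * q) t := by
    have h5 := hkdT (t + a * q) t (by linarith) (by linarith) (by linarith)
    have h6 := dL (r + 1) le_rfl (t + a * q) (by linarith) (by linarith)
    rw [add_sub_cancel_left, ← hb] at h6
    rw [← he] at h5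
    have h7 : 2 * (a * q) ≤ b * (a * q) := mul_le_mul_of_nonneg_right hb2 (by linarith)
    linarith [h6.2]
  have rowu : L (r + 1) t t - b * (v₁ * q) + 2 * (au * q + v₁ * q) - 2 * e ≤
      L (r + 1) (t + au * q) b₁ := by
    have h5 := hkdT (t + au * q) b₁ (by linarith [hb₁K.1]) (by rw [hb₁']; linarith) (by linarith)
    have h6 := dL (r + 1) le_rfl (t + au * q) (by linarith) (by linarith)
    rw [add_sub_cancel_left, ← hb] at h6
    rw [← he] at h5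
    have h7 : 2 * (au * q + v₁ * q) ≤ b * (au * q + v₁ * q) :=
      mul_le_mul_of_nonneg_right hb2 (by linarith)
    have e4 : b * (au * q + v₁ * q) = b * (au * q) + b * (v₁ * q) := by ring
    rw [e4] at h7
    linarith [h6.2]
  refine hhn (S := S) (P := P) (θ := θ) (c := c) (Pt := L (r + 1))
    (R := fun l => κ l = .one ∨ κ l = .thin) (Rw := fun l => κ l = .one ∨ κ l = .thin)
    (a := t + a * q) (au := t + au * q) (Eb := Eb (r + 1)) (Eu := Eb (r + 1))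
    (ε₁ := 3 * ε * q) (ε₀ := 3 * ε * q) (η₀ := hh * q) (χ := X * q) (mb := Sl (r + 1) * q)
    (b₁ := b₁) (w := w) (o := o) (Θ := Θ) (p₁ := L (r + 1) b₁ b₁ - 2 * (hh * q))
    (p₂ := L r b₁ b₁ - 2 * (hh * q)) (x₁ := L r b₁ b₁ - L (r + 1) b₁ b₁ + X / 4 * q)
    Dr N₁ N₂ hN₁ hN₂ R.pos R.thr R.th0 R.tmh (R.inj.mono fun x hx => by
      rw [Set.mem_Iio] at hx ⊢
      omega) (R.lawL (r + 1) hrm) W.Eb0.le (fun v hv => ?_) (fun l hl => ?_) ?_ ?_
    (fun v hv => ?_) (by linarith) (fun l hl => Or.inl (hκ l hl)) ?_ ?_ ?_ (by linarith)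
    (fun hR => absurd (by rcases hκu with h | h <;> simp [h]) hR) ?_ ?_ ?_ ?_
    (fun k hk j hj => ?_) ?_ ?_ ?_ ?_ ?_ (fun l hl => rfl) (fun l hl => ?_) ?_ ?_ ?_
    (BlB.deg hD' hD' hBl) ?_ ?_ ?_ ?_ ?_ hΘs
  · -- the rows
    rcases hv with rfl | rfl
    · have h3 := R.winD (i := r + 1) (by omega) hrm hj1 (by rw [hV1]; linarith)
        (by rw [hA1, hV1]; linarith) (by rw [hA1]; exact hauK) (ε' := 3 * ε * q) le_rfl hε
        (Rg := fun l => κ l = .one ∨ κ l = .thin) (fun l _ h => h)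
      rw [hA1, hV1, ← hb₁] at h3
      exact h3
    · have h3 := R.winD (i := r + 1) (by omega) hrm hj2 (by rw [hV2]; linarith)
        (by rw [hA2, hV2]; linarith) (by rw [hA2]; exact hauK) (ε' := 3 * ε * q) le_rfl hε
        (Rg := fun l => κ l = .one ∨ κ l = .thin) (fun l _ h => h)
      rw [hA2, hV2, ← o1] at h3
      exact h3
  · rcases Nat.lt_or_ge l r with h | h
    · exact Or.inl (hκ l h)
    · have : l = r := by omega
      rw [this]
      exact hκu.symm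
  · have h1 : C₀ * (3 * ε * q) = 3 * (C₀ * e) := by rw [he]; ring
    rw [h1, ← hH]
    rcases eq_or_lt_of_le he0 with h0 | h0
    · rw [← h0, mul_zero, mul_zero]
      exact hH0
    · have : 0 < C₀ * e := mul_pos hC₀0 h0
      linarith
  · rw [← hH, ← hXX]
    linarith
  · have hvv : t - v₁ * q ≤ v ∧ v ≤ t + y * q := by
      rcases hv with rfl | rfl
      · rw [hb₁']
        constructor <;> linarith
      · rw [o1]
        constructor <;> linarith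
    have hv0 : q ≤ v := by linarith [hvv.1]
    have hvau : v + q ≤ t + au * q := by linarith [hvv.2]
    rw [← hH]
    refine ⟨by linarith, ?_, ?_, by linarith, fun l hl => ?_, fun l hl => ?_⟩
    · have := lowP (x := v) (x' := t + au * q) (by linarith) (by linarith) (by linarith)
      linarith
    · rw [hlv _ le_rfl]
      have := lowN (x := v) (by linarith) (by linarith) (r + 1) le_rfl
      linarith
    · rw [hlv l hl]
      have := W.room l hl v (hxK v (by linarith [hvv.1]) (by linarith [hvv.2]))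
      linarith [hvv.1]
    · rw [hbe l (by omega)]
      have h3 := (R.lawL l (by omega)).mono_w (t + au * q) v (t + au * q) (by linarith)
        (by linarith) le_rfl (by linarith)
      have := W.room l hl.le (t + au * q) (hxK _ (by linarith) (by linarith))
      linarith
  · rw [o0, ← hH]
    have := lowP (x := t) (x' := t + a * q) (by linarith) (by linarith) (by linarith)
    linarith
  · rw [hlv _ le_rfl, o0]
    have := lowN (x := t) (by linarith) (by linarith) (r + 1) le_rfl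
    linarith
  · rw [o1, ← hH]
    linarith
  · rw [o2, o3, o0, ← hb]
    linarith
  · rw [o3, o0, ← hb]
    linarith
  · rw [o3, o0, ← hH]
    linarith
  · rw [o3, o1, ← hH]
    linarith
  · -- the levels of the frame
    rw [hlv j (by omega), hlv j (by omega), ← hH]
    have h4 := dk j (by omega) k hk
    rw [sl1 j hj] at h4
    rw [o0]
    rw [abs_le]
    constructor <;> linarith [h4.1, h4.2]
  · rw [hlv r (by omega), hlv r (by omega), o0, ← hH]
    rw [o3] at d3u ⊢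
    linarith [d3u.2]
  · rw [hlv r (by omega), hlv r (by omega), ← hH]
    have e6 : o 1 - o 3 = y * q - q := by rw [o1, o3]; ring
    rw [e6]
    linarith [d3u.1, d1u.2]
  · rw [hlv _ le_rfl, hlv _ le_rfl, o0, ← hH, ← hb]
    linarith [d3N.2]
  · rw [hlv _ le_rfl, hlv _ le_rfl, ← hH, ← hb]
    have e6 : o 1 - o 0 = y * q := by rw [o1, o0]; ring
    have e7 : o 3 - o 0 = q := by rw [o3, o0]; ring
    rw [e6, e7, o0]
    linarith [d1N.2]
  · rw [hlv _ le_rfl, ← hH, ← hb]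
    have e7 : o 3 - o 0 = q := by rw [o3, o0]; ring
    rw [e7, o0]
    linarith
  · rw [hlv l (by omega), ← hH]
    have e6 : o 1 - o 0 = y * q := by rw [o1, o0]; ring
    rw [e6]
    have := lowN (x := o 1) (by rw [o1]; linarith) (by rw [o1]; linarith) l (by omega)
    have e8 := o1
    linarith
  · rw [hlv _ le_rfl, ← hH]
    have e8 := o1
    linarith [d1N.1]
  · rw [o0, hb₁']
    linarith
  · rw [hb₁']
    linarith
  · rw [hlv _ le_rfl]
    linarith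
  · rw [hlv r (by omega)]
    linarith
  · rw [hlv r (by omega), hlv _ le_rfl, hlv r (by omega), ← hH, ← hb]
    have e7 : o 3 - o 0 = q := by rw [o3, o0]; ring
    rw [e7, o0]
    linarith [dbu.1]
  · rw [hlv r (by omega), hlv _ le_rfl, hlv _ le_rfl, hlv r (by omega), ← hH, ← hb]
    have e7 : o 3 - o 0 = q := by rw [o3, o0]; ring
    rw [e7, o0]
    linarith [dbu.1, dbN.2]
  · rw [hlv _ le_rfl, hlv r (by omega), ← hH, ← hb, ← hXX]
    have e7 : o 3 - o 0 = q := by rw [o3, o0]; ring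
    have e8 : X / 4 * q = XX / 4 := by rw [hXX]; ring
    rw [e7, o0, e8]
    linarith [dbu.1, dbN.2]

end Pool.STB65
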