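import Pool.Agent.H65.VS.Sti
import Pool.Agent.H65.VS.Hns
import Pool.Agent.H65.VS.Alm
import Pool.Agent.H92.ALT.Jn6
import Pool.Agent.H92.STE.Se7

/-!
# The static end over a thin coordinate of larger slope, when a family of labels has small rate

`svSC_B`: `SvSC` under `LowE`, from `VbYb`.
-/

set_option autoImplicit false

namespace Pool.STB65

open Finset Real MvPolynomial
open Pool.Agent.H49.Ent Pool.Agent.H32.Dense Pool.STK Pool.KA Pool.KSAT Pool.K2S Pool.PB Pool.S6C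
  Pool.GEN Pool.RCD Pool.LA91 Pool.OWN68 Pool.PKG Pool.ALT
open Pool.CHT Pool.CHX Pool.ISO Pool.D2R Pool.D2G30 Pool.V1E Pool.CR99 Pool.GRW
open Pool.UNJ (ceI)
open Pool.GRD (LbP)
open Pool.PN18 (Fm2)
open Pool.V0F (LbU ChUQ AttUQ)

/-- The label of the static end for a larger family. -/
theorem str_imp {m : ℕ} {S : PCl m} {c : ℕ → Fin m} {r Dw : ℕ} {Sl : ℕ → ℝ} {L : ℕ → ℝ → ℝ → ℝ}
    {Eb : ℕ → ℝ} {ar del q t K : ℝ} {Ξ Ξ' : XiN m} (H : StR S c r Dw Sl L Eb ar del q t K Ξ)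
    (h : ∀ (J : ℕ) (F : Fam m J) (B : F.Ω → Prop) g₀ G H Ht CL Cp, Ξ J F B g₀ G H Ht CL Cp →
      Ξ' J F B g₀ G H Ht CL Cp) : StR S c r Dw Sl L Eb ar del q t K Ξ' := by
  refine Bas.mono 0 H ?_
  rintro J - F A ⟨B, B₁, g₀, G, H, Ht, CL, Cp, g, T, TH, Gc, Hc, P, hBA, hB, hPe, hX, hR⟩
  exact ⟨B, B₁, g₀, G, H, Ht, CL, Cp, g, T, TH, Gc, Hc, P, hBA, hB, hPe, h _ _ _ _ _ _ _ _ _ hX,
    hR⟩

set_option maxHeartbeats 4000000 in
/-- **The static end over a thin coordinate of larger slope, when a family of labels has small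
rate.** -/
theorem svSC_B {y a h hb β' : ℝ} {Sl : ℕ → ℝ} {κ : ℕ → Kg} {ι : Type}
    {Q : PropG 4 ι} {Dv : ℕ} (k0 : κ 0 = .one) (k1' : κ 1 = .one)
    (hκu : κ 2 = .thin) (hκt : κ 3 = .sta) (hσ2 : 2 ≤ Sl 3) (hb0 : 0 < hb) (hb1 : hb ≤ 1)
    (hβ : β' ≤ (1 - hb) * Sl 3 * Real.log 2)
    (hab : Sl 3 < Sl 2) (hy : 3 / 2 ≤ y) (hya : y + 1 / 2 ≤ a) (hsa : Sl 3 + 1 ≤ a)
    (hV : VbYb 2 y a h hb Sl κ Q) :
    SvSC 4 2 y a h Sl κ (sumQ Q (sumQ (ChUQ : PropG 4 Unit)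
      (AttUQ : PropG 4 Unit)))
      (fun e : PosR => LowE (AdmL 4) β' Dv e) := by
  classical
  have hκ : ∀ l < 2, κ l = .one := fun l hl => by
    interval_cases l
    · exact k0
    · exact k1'
  intro al hal K₀ hK₀ S₀ hS₀
  obtain ⟨ar, del, har1, har2, hdel, hste⟩ := ste_all hσ2 hb0 hb1
  obtain ⟨Kr, Nr, Ar, Vr, hKr, hAV, hV⟩ := hV al hal K₀ hK₀ S₀ hS₀
  obtain ⟨D₀, hD₀, halo⟩ := alo_rec 2 S₀ hS₀
  -- the earlier window and the radius of its rows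
  obtain ⟨v₁, hv₁⟩ : ∃ v₁ : ℝ, v₁ = (Sl 3 - 1) / (Sl 2 - Sl 3) := ⟨_, rfl⟩
  have hv₁0 : 0 ≤ v₁ := by
    rw [hv₁]
    exact div_nonneg (by linarith) (by linarith)
  have hv₁1 : Sl 3 - 1 ≤ (Sl 2 - Sl 3) * v₁ := by
    rw [hv₁, mul_div_cancel₀ _ (by linarith : Sl 2 - Sl 3 ≠ 0)]
  obtain ⟨y₁, hy₁e⟩ : ∃ y₁ : ℝ, y₁ = max (Sl 3) (v₁ + 1) := ⟨_, rfl⟩
  have hy₁b : Sl 3 ≤ y₁ := by rw [hy₁e]; exact le_max_left _ _
  have hy₁v : v₁ + 1 ≤ y₁ := by rw [hy₁e]; exact le_max_right _ _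
  obtain ⟨Rw, hRw⟩ : ∃ Rw : ℝ, Rw =
      max (y + 1) ((Sl 3 - 1) * y + (Sl 3 - 2) * v₁) := ⟨_, rfl⟩
  have hRw1 : y + 1 ≤ Rw := by rw [hRw]; exact le_max_left _ _
  have hRw2 : (Sl 3 - 1) * y + (Sl 3 - 2) * v₁ ≤ Rw := by
    rw [hRw]
    exact le_max_right _ _
  have ha0 : 0 < a := by linarith
  -- the pairs
  obtain ⟨Ap, hAp⟩ : ∃ Ap : ℕ → ℝ, Ap = fun k => if k = 0 then a else if k = 1 then a else
    if k = 2 then 1 else if k = 5 then ar else Rw := ⟨_, rfl⟩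
  obtain ⟨Vp, hVp⟩ : ∃ Vp : ℕ → ℝ, Vp = fun k => if k = 0 then 0 else if k = 1 then y else
    if k = 2 then 0 else if k = 3 then -v₁ else if k = 5 then 0 else y := ⟨_, rfl⟩
  have ap0 : Ap 0 = a := by rw [hAp]; norm_num
  have ap1 : Ap 1 = a := by rw [hAp]; norm_num
  have ap2 : Ap 2 = 1 := by rw [hAp]; norm_num
  have ap3 : Ap 3 = Rw := by rw [hAp]; norm_num
  have ap4 : Ap 4 = Rw := by rw [hAp]; norm_num
  have ap5 : Ap 5 = ar := by rw [hAp]; norm_num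
  have vp0 : Vp 0 = 0 := by rw [hVp]; norm_num
  have vp1 : Vp 1 = y := by rw [hVp]; norm_num
  have vp2 : Vp 2 = 0 := by rw [hVp]; norm_num
  have vp3 : Vp 3 = -v₁ := by rw [hVp]; norm_num
  have vp4 : Vp 4 = y := by rw [hVp]; norm_num
  have vp5 : Vp 5 = 0 := by rw [hVp]; norm_num
  obtain ⟨Km, hKm⟩ : ∃ Km : ℝ, Km = max (max Kr Rw) (max (max a 2) v₁) := ⟨_, rfl⟩
  have m1 : Kr ≤ Km := by rw [hKm]; exact (le_max_left _ _).trans (le_max_left _ _)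
  have m2 : Rw ≤ Km := by rw [hKm]; exact (le_max_right _ _).trans (le_max_left _ _)
  have m3 : a ≤ Km := by
    rw [hKm]; exact ((le_max_left _ _).trans (le_max_left _ _)).trans (le_max_right _ _)
  have m5 : 2 ≤ Km := by
    rw [hKm]; exact ((le_max_right _ _).trans (le_max_left _ _)).trans (le_max_right _ _)
  have m4 : v₁ ≤ Km := by rw [hKm]; exact (le_max_right _ _).trans (le_max_right _ _)
  have hpp : ∀ k < 6, -Km ≤ Vp k ∧ Vp k ≤ Ap k ∧ Ap k ≤ Km := by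
    intro k hk
    interval_cases k
    · rw [ap0, vp0]
      exact ⟨by linarith, by linarith, m3⟩
    · rw [ap1, vp1]
      exact ⟨by linarith, by linarith, m3⟩
    · rw [ap2, vp2]
      exact ⟨by linarith, by linarith, by linarith⟩
    · rw [ap3, vp3]
      exact ⟨by linarith, by linarith, m2⟩
    · rw [ap4, vp4]
      exact ⟨by linarith, by linarith, m2⟩
    · rw [ap5, vp5]
      exact ⟨by linarith, by linarith, by linarith⟩
  refine ⟨ar, del, har1, hdel, Km, Nr + 6, cmb Nr Ar Ap, cmb Nr Vr Vp, hKr.trans m1,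
    fun k hk => ?_, fun S₂ hS₂ D hD => ?_⟩
  · rcases Nat.lt_or_ge k Nr with h1 | h1
    · rw [cmb_l h1, cmb_l h1]
      obtain ⟨h2, h3, h4⟩ := hAV k h1
      exact ⟨by linarith, h3, by linarith⟩
    · obtain ⟨j, rfl⟩ : ∃ j, k = Nr + j := ⟨k - Nr, by omega⟩
      rw [cmb_r, cmb_r]
      exact hpp j (by omega)
  obtain ⟨D₁, hV⟩ := hV S₂ hS₂ D hD
  obtain ⟨Du, hDu, hhn⟩ := hn_rs (2 + 2) 2 S₂ (by norm_num) (hS₀.trans hS₂)
  obtain ⟨Db, hDb⟩ : ∃ Db : ℕ, Db = max (max (max D D₀) (max D₁ Dv)) Du := ⟨_, rfl⟩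
  have hDb0 : max (max D D₀) (max D₁ Dv) ≤ Db := by rw [hDb]; exact le_max_left _ _
  have hDb1 : D ≤ Db := ((le_max_left _ _).trans (le_max_left _ _)).trans hDb0
  have hDb2 : D₀ ≤ Db := ((le_max_right _ _).trans (le_max_left _ _)).trans hDb0
  have hDb3 : D₁ ≤ Db := ((le_max_left _ _).trans (le_max_right _ _)).trans hDb0
  have hDb4 : Dv ≤ Db := ((le_max_right _ _).trans (le_max_right _ _)).trans hDb0
  have hDb5 : Du ≤ Db := by rw [hDb]; exact le_max_right _ _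
  have hDbK : D ≤ Db * max 1 Db := hDb1.trans (Nat.le_mul_of_pos_right _ (by simp))
  obtain ⟨Dr₀, hV⟩ := hV Db hDb1 hDb3
  refine ⟨max Dr₀ (Db * max 1 Db), hDbK.trans (le_max_right _ _), fun C hC => ?_⟩
  obtain ⟨C₁, hC₁, hhn⟩ := hhn D hD C hC
  have hC₁0 : 0 < C₁ := by linarith
  obtain ⟨Dw₀, hV⟩ := hV _ (le_max_left Dr₀ (Db * max 1 Db)) C hC
  obtain ⟨Dw, hDw⟩ : ∃ Dw : ℕ, Dw = max (max Dw₀ (Db * max 1 Db)) Du := ⟨_, rfl⟩
  have hDw1 : Dw₀ ≤ Dw := by rw [hDw]; exact (le_max_left _ _).trans (le_max_left _ _)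
  have hDw2 : Db * max 1 Db ≤ Dw := by rw [hDw]; exact (le_max_right _ _).trans (le_max_left _ _)
  have hDw3 : Du ≤ Dw := by rw [hDw]; exact le_max_right _ _
  obtain ⟨CT, hCT⟩ := recNy_slhN' Dw 2
  refine ⟨Dw, CT, hDbK.trans hDw2, fun δ X₀ hδ hδ1 hX₀ => ?_⟩
  obtain ⟨Xs, dt₁, hXs, hdt₁, hste⟩ := hste S₀ S₂ Db Dw hS₀ hS₂ (hD.trans hDb1)
  obtain ⟨lam, rr₀, gg, dt₀, ℓ₀, kf₀, X₁, hlam, hrr₀, hgg, hdt₀, hℓ₀, hX₁, hly, hV⟩ :=
    hV _ hDw1 δ X₀ hδ hδ1 hX₀ y₁ hy₁b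
  obtain ⟨b, hbd⟩ : ∃ b : ℝ, b = Sl 3 := ⟨_, rfl⟩
  have hbd' : Sl (2 + 1) = b := hbd.symm
  rw [hbd'] at hly
  rw [← hbd] at hβ hste hσ2 hy₁b
  have hs : 1 < b := by linarith
  have hbp : 0 < b := by linarith
  have hy₁ : 0 < y₁ := by linarith
  have hby : 0 < b * y₁ := mul_pos hbp hy₁
  obtain ⟨Ks, Nw, Vw, εs, hKs, hVw, hεs, hste⟩ := hste K₀ y₁ lam hK₀ hy₁b hlam
  obtain ⟨dt, hdt⟩ : ∃ dt : ℝ, dt = min dt₀ (min dt₁ (dt₁ / lam)) := ⟨_, rfl⟩
  have hdt0 : 0 < dt := by rw [hdt]; positivity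
  have hdta : dt ≤ dt₀ := by rw [hdt]; exact min_le_left _ _
  have hdtb : dt ≤ dt₁ := by rw [hdt]; exact (min_le_right _ _).trans (min_le_left _ _)
  have hdtc : dt * lam ≤ dt₁ := by
    have : dt ≤ dt₁ / lam := by rw [hdt]; exact (min_le_right _ _).trans (min_le_right _ _)
    rwa [le_div_iff₀ hlam] at this
  obtain ⟨rr, hrrd⟩ : ∃ rr : ℝ, rr = max rr₀ (b * y₁ + b + 3) := ⟨_, rfl⟩
  have hrra : rr₀ ≤ rr := by rw [hrrd]; exact le_max_left _ _
  have hrrb : b * y₁ + b + 3 ≤ rr := by rw [hrrd]; exact le_max_right _ _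
  have hrr : lam ≤ rr := hrr₀.trans hrra
  obtain ⟨g₂, hg₂⟩ : ∃ g₂ : ℝ, g₂ = y₁ - v₁ := ⟨_, rfl⟩
  have hg₂1 : 1 ≤ g₂ := by linarith
  have hbg : b * 1 ≤ b * g₂ := mul_le_mul_of_nonneg_left hg₂1 hbp.le
  obtain ⟨X, hX⟩ : ∃ X : ℝ, X = min (min X₀ X₁) (min Xs (1 / 4)) := ⟨_, rfl⟩
  have hX0 : 0 < X := by
    rw [hX]; exact lt_min (lt_min hX₀ hX₁) (lt_min hXs (by norm_num))
  have hXa : X ≤ X₀ := by rw [hX]; exact (min_le_left _ _).trans (min_le_left _ _)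
  have hXb : X ≤ X₁ := by rw [hX]; exact (min_le_left _ _).trans (min_le_right _ _)
  have hXe : X ≤ Xs := by rw [hX]; exact (min_le_right _ _).trans (min_le_left _ _)
  have hXc4 : X ≤ 1 / 4 := by rw [hX]; exact (min_le_right _ _).trans (min_le_right _ _)
  have hXc : X ≤ 1 := by linarith
  obtain ⟨R, hR⟩ : ∃ R : ℝ, R = max (y₁ + 3) ((rr + gg) / b) := ⟨_, rfl⟩
  have hR3 : y₁ + 3 ≤ R := by rw [hR]; exact le_max_left _ _
  have hR1 : 1 + y₁ ≤ R := by linarith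
  have hR2 : rr + gg ≤ b * R := by
    have : (rr + gg) / b ≤ R := by rw [hR]; exact le_max_right _ _
    rw [div_le_iff₀ hbp] at this
    linarith
  have hR0 : 0 < R := by linarith
  obtain ⟨ℓ, h₁, ε₁, e₁, hℓ, hℓ₁, hh₁, hε₁, he₁, halo⟩ := halo Db hDb2 (b := b) (h := hb)
    (δ := dt) (lam := lam) (rr := rr) (gg := gg) (R := R) (K₁ := K₀) (ℓ₀ := ℓ₀) (X := X / 4)
    (g₂ := g₂) hbp hb0 hb1 hdt0 hlam hrr hgg hR0.le hK₀.le hℓ₀ (by linarith) (by linarith)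
    (by linarith)
  obtain ⟨kf, hkf⟩ : ∃ kf : ℝ, kf = max kf₀ b := ⟨_, rfl⟩
  obtain ⟨h₂, hh₂, hV⟩ := hV ℓ X kf hℓ hℓ₁ hX0 hXb (by rw [hkf]; exact le_max_left _ _)
  have hC0 : 0 < C := by linarith
  refine ⟨⟨e₁, he₁⟩, kf, X, min h₁ (min h₂ (min (X / (20 * C)) (X / C₁))), by
    rw [hbd', hkf]
    exact le_max_right _ _, hX0, hXa, by positivity, fun hh k₁ hhh hhl hk1 hk2 => ?_⟩
  have hhl1 := hhl.trans (min_le_left _ _)
  have hhl2 := hhl.trans ((min_le_right _ _).trans (min_le_left _ _))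
  have hhl3 := hhl.trans ((min_le_right _ _).trans ((min_le_right _ _).trans (min_le_left _ _)))
  have hhl4 := hhl.trans ((min_le_right _ _).trans ((min_le_right _ _).trans (min_le_right _ _)))
  rw [le_div_iff₀ (by positivity)] at hhl3 hhl4
  obtain ⟨K₁, Nv, Vv, ns, vs, hVv, hvs, hV⟩ := hV hh k₁ hhh hhl2 hk1 hk2
  -- the windows
  obtain ⟨Va, hVa⟩ : ∃ Va : ℕ → ℝ, Va = fun k => if k < Nv then Vv k else if k = Nv then -y₁ else
    if k = Nv + 1 then 0 else if k = Nv + 2 then 1 else if k = Nv + 3 then -v₁ else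
    if k = Nv + 4 then -k₁ else Vw (k - (Nv + 5)) := ⟨_, rfl⟩
  have v0 : ∀ k < Nv, Va k = Vv k := fun k hk => by rw [hVa]; simp only [hk, if_true]
  have v1 : Va Nv = -y₁ := by rw [hVa]; simp
  have v2 : Va (Nv + 1) = 0 := by rw [hVa]; simp
  have v3 : Va (Nv + 2) = 1 := by rw [hVa]; simp
  have v4 : Va (Nv + 3) = -v₁ := by rw [hVa]; simp
  have v5 : Va (Nv + 4) = -k₁ := by rw [hVa]; simp
  have v6 : ∀ k, Va (Nv + 5 + k) = Vw k := fun k => by
    rw [hVa]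
    simp only [show ¬ (Nv + 5 + k < Nv) by omega, show ¬ (Nv + 5 + k = Nv) by omega,
      show ¬ (Nv + 5 + k = Nv + 1) by omega, show ¬ (Nv + 5 + k = Nv + 2) by omega,
      show ¬ (Nv + 5 + k = Nv + 3) by omega, show ¬ (Nv + 5 + k = Nv + 4) by omega, if_false]
    congr 1
    omega
  obtain ⟨K₂, hK₂⟩ : ∃ K₂ : ℝ, K₂ = max (max (max K₁ Ks) (R + 1)) (max (K₀ + 1)
    (max Rw (2 * a + k₁ + 4))) := ⟨_, rfl⟩
  have hKa : K₁ ≤ K₂ := by
    rw [hK₂]; exact ((le_max_left _ _).trans (le_max_left _ _)).trans (le_max_left _ _)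
  have hKg : Ks ≤ K₂ := by
    rw [hK₂]; exact ((le_max_right _ _).trans (le_max_left _ _)).trans (le_max_left _ _)
  have hKb : R + 1 ≤ K₂ := by rw [hK₂]; exact (le_max_right _ _).trans (le_max_left _ _)
  have hKd : K₀ + 1 ≤ K₂ := by rw [hK₂]; exact (le_max_left _ _).trans (le_max_right _ _)
  have hKe : Rw ≤ K₂ := by
    rw [hK₂]
    exact (le_max_left _ _).trans ((le_max_right _ _).trans (le_max_right _ _))
  have hKf : 2 * a + k₁ + 4 ≤ K₂ := by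
    rw [hK₂]
    exact (le_max_right _ _).trans ((le_max_right _ _).trans (le_max_right _ _))
  obtain ⟨Na, hNa⟩ : ∃ Na : ℕ, Na = Nv + 5 + Nw := ⟨_, rfl⟩
  have hVaK : ∀ k < Na, -K₂ ≤ Va k ∧ Va k ≤ K₂ := by
    intro k hk
    rcases Nat.lt_or_ge k Nv with h1 | h1
    · rw [v0 k h1]
      obtain ⟨h2, h3⟩ := hVv k h1
      exact ⟨by linarith, by linarith⟩
    rcases Nat.lt_or_ge k (Nv + 5) with h4 | h4
    · obtain ⟨j, rfl⟩ : ∃ j, k = Nv + j := ⟨k - Nv, by omega⟩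
      have hj : j < 5 := by omega
      interval_cases j
      · rw [Nat.add_zero, v1]
        exact ⟨by linarith, by linarith⟩
      · rw [v2]
        exact ⟨by linarith, by linarith⟩
      · rw [v3]
        exact ⟨by linarith, by linarith⟩
      · rw [v4]
        exact ⟨by linarith, by linarith⟩
      · rw [v5]
        exact ⟨by linarith, by linarith⟩
    · obtain ⟨j, rfl⟩ : ∃ j, k = Nv + 5 + j := ⟨k - (Nv + 5), by omega⟩
      rw [v6]
      obtain ⟨h2, h3⟩ := hVw j (by omega)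
      exact ⟨by linarith, by linarith⟩
  refine ⟨K₂, Na, Va, ns, vs, hVaK, fun j hj => ?_, fun K' hK' => ?_⟩
  · obtain ⟨h2, h3⟩ := hvs j hj
    exact ⟨by linarith, h3⟩
  obtain ⟨ε₀, hε₀, hV⟩ := hV K' (hKa.trans hK')
  refine ⟨min (min ε₀ εs) (min ε₁ (min (X / 16) (min (hh / C₁) (hh / (6 * C))))), by positivity,
    fun ε hε hεε => ?_⟩
  have hεa := hεε.trans ((min_le_left _ _).trans (min_le_left _ _))
  have hεs' := hεε.trans ((min_le_left _ _).trans (min_le_right _ _))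
  have hεb := hεε.trans ((min_le_right _ _).trans (min_le_left _ _))
  have hεc := hεε.trans ((min_le_right _ _).trans ((min_le_right _ _).trans (min_le_left _ _)))
  have hεd := hεε.trans ((min_le_right _ _).trans ((min_le_right _ _).trans
    ((min_le_right _ _).trans (min_le_left _ _))))
  have hεe := hεε.trans ((min_le_right _ _).trans ((min_le_right _ _).trans
    ((min_le_right _ _).trans (min_le_right _ _))))
  rw [le_div_iff₀ (by positivity)] at hεd hεe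
  intro S g₀ P θ P₂ θ₂ Eb e₂ c Pt rt L T G g hG hg hder hZ
  obtain ⟨i₀, ⟨a1, a2, a3, a4, a5, a6, a7⟩, hiD, φ, k₂, hφ0, hφ, hrt⟩ := hZ
  have hK'0 : K₀ ≤ K' := by linarith
  have hK'p : 0 < K' := by linarith
  by_cases hpos : 0 < L 3 g g
  swap
  · obtain ⟨q₁, hq₁, H⟩ := rec_pos (by omega : 3 < 4) (hder 3 (by omega)) hK₀ hK'0
      hpos
    exact ⟨fun _ => Sum.inr (Sum.inl ()), 0, fun _ => 0, fun _ => 1, fun j hj => by omega,
      fun k₀ _ => ⟨q₁, hq₁, fun q t x hq _ N A V N' V' R => (H hq R).elim⟩⟩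
  by_cases hposu : 0 < L 2 g g
  swap
  · obtain ⟨q₁, hq₁, H⟩ := rec_pos (by omega : 2 < 4) (hder 2 (by omega)) hK₀ hK'0 hposu
    exact ⟨fun _ => Sum.inr (Sum.inl ()), 0, fun _ => 0, fun _ => 1, fun j hj => by omega,
      fun k₀ _ => ⟨q₁, hq₁, fun q t x hq _ N A V N' V' R => (H hq R).elim⟩⟩
  obtain ⟨μ₁, d, hμ₁, hd, hmar⟩ := mar_lin (hder 2 (by omega)) (hder 3 (by omega)) hpos
    hposu a5 a6 a7
  obtain ⟨p, M, B₀, B₁, hB, hV⟩ := hV ε hε hεa S g₀ P θ P₂ θ₂ Eb e₂ c Pt rt L T G g hG hg hder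
  refine ⟨fun j => if j < M then Sum.inl (p j) else if j = M then Sum.inr (Sum.inl ()) else
    Sum.inr (Sum.inr ()), M + 2, fun j => if j < M then B₀ j else 0,
    fun j => if j < M then B₁ j else 1, fun j hj => ?_, fun k₀ hk₀ => ?_⟩
  · by_cases h4 : j < M
    · simp only [h4, if_true]
      exact hB j h4
    · simp only [h4, if_false]
      exact one_pos
  have hch : ChUQ (n := 4) () (k₀ M) S P θ c Pt rt L T κ G g := by
    have h4 := hk₀ M (by omega)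
    simp only [lt_irrefl, if_false, if_true] at h4
    exact h4
  have hat : AttUQ (n := 4) () (k₀ (M + 1)) S P θ c Pt rt L T κ G g := by
    have h4 := hk₀ (M + 1) (by omega)
    simp only [show ¬ M + 1 < M by omega, show ¬ M + 1 = M by omega, if_false] at h4
    exact h4
  obtain ⟨μ, hμ⟩ : ∃ μ : ℝ, μ = min μ₁ ((1 / 2) ^ k₀ (M + 1)) := ⟨_, rfl⟩
  have hμ0 : 0 < μ := by rw [hμ]; positivity
  have hμa : μ ≤ μ₁ := by rw [hμ]; exact min_le_left _ _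
  have hμb : μ ≤ (1 / 2) ^ k₀ (M + 1) := by rw [hμ]; exact min_le_right _ _
  obtain ⟨q₁, hq₁, hV⟩ := hV k₀ (fun j hj => by
    have h4 := hk₀ j (by omega)
    simp only [hj, if_true] at h4
    exact h4) μ hμ0
  have hKK : 0 < K' + K₀ := by linarith
  have hb8 : 0 < 8 * b + 8 * rr := by linarith
  have hKR : 0 < K₀ + R + 1 := by linarith
  refine ⟨min q₁ (min (min (d / (K' + K₀)) ((1 / 2) ^ k₂ / (K₀ + R + 1))) (min
    (μ / (8 * b + 8 * rr)) (min ((1 / 2) ^ k₀ (M + 1) / (K' + K₀)) μ))), by positivity,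
    fun q t x hq hx N A V N' V' Rc hpr hwn N₁ N₂ vw hN1 hN12 hN2 hvw => ?_⟩
  have q1 := hq.trans_le (min_le_left _ _)
  have q2 := hq.trans_le ((min_le_right _ _).trans ((min_le_left _ _).trans (min_le_left _ _)))
  have q3 := hq.trans_le ((min_le_right _ _).trans ((min_le_left _ _).trans (min_le_right _ _)))
  have q4 := hq.trans_le ((min_le_right _ _).trans ((min_le_right _ _).trans (min_le_left _ _)))
  have q5 := hq.trans_le ((min_le_right _ _).trans ((min_le_right _ _).trans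
    ((min_le_right _ _).trans (min_le_left _ _))))
  have q6 := hq.trans_le ((min_le_right _ _).trans ((min_le_right _ _).trans
    ((min_le_right _ _).trans (min_le_right _ _))))
  rw [lt_div_iff₀ hKK] at q2 q5
  rw [lt_div_iff₀ hKR] at q3
  rw [lt_div_iff₀ hb8] at q4
  have hq0 := Rc.q0
  -- the record with the windows `Va`
  have Ra := Rc.mono (K₁ := K') (ε₁ := ε) (N₁ := N) (A₁ := A) (V₁ := V) (N₁' := Na)
    (V₁' := Va) le_rfl le_rfl (fun k hk => ⟨k, hk, rfl, rfl⟩) (fun k hk => by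
      obtain ⟨j, hj, e⟩ := hwn k hk
      exact ⟨j, hj, e.symm⟩)
  have hnear := Rc.near
  have hVaA : ∀ k < Na, |Va k| ≤ K' := fun k hk => by
    obtain ⟨h2, h3⟩ := hVaK k hk
    exact abs_le.2 ⟨by linarith, by linarith⟩
  have hwd : ∀ k < Na, |t + Va k * q - g| ≤ (K' + K₀) * q := by
    intro k hk
    have h1 : |Va k * q| ≤ K' * q := by
      rw [abs_mul, abs_of_pos hq0]
      exact mul_le_mul_of_nonneg_right (hVaA k hk) hq0.le
    calc |t + Va k * q - g| = |(t - g) + Va k * q| := by congr 1; ring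
      _ ≤ |t - g| + |Va k * q| := abs_add_le _ _
      _ ≤ K₀ * q + K' * q := add_le_add hnear h1
      _ = (K' + K₀) * q := by ring
  have hmw : ∀ k < Na, μ ≤ L 3 (t + Va k * q) (t + Va k * q) ∧
      μ ≤ L 2 (t + Va k * q) (t + Va k * q) ∧ L 2 (t + Va k * q) (t + Va k * q) + μ ≤ 1 ∧
      i₀.2.1 + L 3 (t + Va k * q) (t + Va k * q) + μ ≤ 1 ∧
      i₀.2.2.2 + μ ≤ L 3 (t + Va k * q) (t + Va k * q) ∧
      L 3 (t + Va k * q) (t + Va k * q) + L 2 (t + Va k * q) (t + Va k * q) + μ ≤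
        1 + i₀.2.2.2 := by
    intro k hk
    obtain ⟨b1, b2, b3, b4, b5, b6⟩ := hmar (t + Va k * q) ((hwd k hk).trans (by linarith))
    exact ⟨by linarith, by linarith, by linarith, by linarith, by linarith, by linarith⟩
  have hqX : X / 4 * q ≤ μ := by
    have : X * q ≤ 1 * q := mul_le_mul_of_nonneg_right hXc hq0.le
    linarith
  have hXq0 : 0 < X / 4 * q := by positivity
  have hn0 : Nv < Na := by omega
  have hn1 : Nv + 1 < Na := by omega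
  have hn2 : Nv + 2 < Na := by omega
  have hat' : ∀ k ≥ k₂, AltAt S ((range 3).image c) ((range 2).image c) (c 3)
      i₀.1.2.2 i₀.2.1 i₀.2.2.1 i₀.2.2.2 (fun w => L 3 w w) g φ e₁ k := by
    intro k hk
    have h4 := hrt k hk
    rw [a1, a2] at h4
    exact h4
  obtain ⟨S₁, hs₁, R₁, Ψ, w, p₁, p₂, eN, uN, pN, pa₁, pa₂, ea, ua, pa, H⟩ := halo hh hhh hhl1 Ra
    hbd' (hKb.trans hK') hεb hVaA (fun k hk => by
      obtain ⟨rd, -, h2⟩ := hch _ (Ra.memG.2 k hk)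
      exact ⟨rd, h2⟩) (μ := μ) (fun k hk => by
      obtain ⟨rk, E, c1, c2, c3, c4, c5⟩ := hat _ (Ra.memG.2 k hk) ((hwd k hk).trans (by linarith))
      exact ⟨E, rk, c3, by
        have c4' : E + L 3 (t + Va k * q) (t + Va k * q) ≤ 1 - (1 / 2) ^ k₀ (M + 1) := c4
        show E + L 3 (t + Va k * q) (t + Va k * q) + μ ≤ 1
        linarith, (hmw k hk).2.2.1, c5⟩) (x := g) (e₀ := i₀.2.1) (ρ₀ := i₀.2.2.1)
    (π₀ := i₀.2.2.2) (φ := φ) (e := e₁) (Kf := i₀.1.2.2) (k₁ := k₂) hnear (hiD.trans hDb4)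
    he₁ le_rfl (hφ.trans hβ) hat' (by linarith) (by exact_mod_cast a4) (by exact_mod_cast a3) hμ0
    (by linarith) (i := Nv) (j := Nv + 1) hn0 hn1 (by
      rw [v1, abs_neg, abs_of_pos hy₁]
      linarith) (by
      rw [v2, abs_zero]
      linarith) (by
      rw [v1, v2]
      linarith) (by
      rw [v1]
      have h1 : b * (R - -y₁) = b * R + b * y₁ := by ring
      linarith only [h1, hby, hR2]) (hmw Nv hn0).1 (hmw (Nv + 1) hn1).2.2.2.1
    (by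
      have h5 := (hmw Nv hn0).2.2.2.2.1
      show i₀.2.2.2 < L 3 _ _
      linarith) (by
      have h5 := (hmw Nv hn0).2.2.2.2.2
      show L 3 (t + Va Nv * q) (t + Va Nv * q) + L 2 (t + Va Nv * q) (t + Va Nv * q) -
        i₀.2.2.2 < 1
      linarith)
    (by
      have h5 := (hmw (Nv + 1) hn1).2.2.2.2.2
      show L 3 (t + Va (Nv + 1) * q) (t + Va (Nv + 1) * q) +
        L 2 (t + Va (Nv + 1) * q) (t + Va (Nv + 1) * q) - i₀.2.2.2 < 1
      linarith)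
  -- the velocity
  obtain ⟨S', Θ, hne, hs', hΘs, hΘn, hΘe, hVf⟩ := hV q t x q1 (fun j hj => by
      obtain ⟨h4, h5, h6, h7⟩ := hx j (by omega)
      simp only [hj, if_true] at h5 h6 h7
      exact ⟨h4, h5, h6, h7⟩) N A V Na Va S₁ hs₁ R₁ hVaA (fun k hk => by
      obtain ⟨j, hj, h4, h5⟩ := hpr k (by omega)
      rw [cmb_l hk] at h4 h5
      exact ⟨j, hj, h4, h5⟩)
    (fun k hk => ⟨k, by omega, v0 k hk⟩) N₁ N₂ vw hN1 hN12 hN2 hvw
    Nv (Nv + 1) R g₂ (X / 4) i₀.2.1 i₀.2.2.2 Ψ w p₁ p₂ eN uN pN pa₁ pa₂ ea ua pa hn0 hn1 v1 v2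
    (by linarith) (alo_rt hq0 hlam.le hdta hrra hrr₀ H)
  have hsub : SubC S' S := fun τ J F A h => hs₁ τ J F A (hs' τ J F A h)
  have R' := Rc.sub hne hsub
  have Ra' := Ra.sub hne hsub
  have hwe : t + Va Nv * q = t + -y₁ * q := by rw [v1]
  -- the blindness
  have hbl : ∀ k, k = Nv + 1 ∨ k = Nv + 2 ∨ k = Nv + 3 →
      BlB S' c 2 (c (2 + 1)) (t + Va Nv * q) (t + Va k * q) Db Db
        (L (2 + 1) (t + Va k * q) (t + Va k * q) - 2 * (hh * q))
        (L 2 (t + Va k * q) (t + Va k * q) - 2 * (hh * q))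
        (L 2 (t + Va k * q) (t + Va k * q) - L (2 + 1) (t + Va k * q) (t + Va k * q) +
          X / 4 * q) (Fm2.lab Θ) := by
    intro k hk
    have hk4 : k < Na := by omega
    have hVk : -v₁ ≤ Va k ∧ Va k ≤ 1 := by
      rcases hk with rfl | rfl | rfl
      · rw [v2]
        exact ⟨by linarith, by linarith⟩
      · rw [v3]
        exact ⟨by linarith, by linarith⟩
      · rw [v4]
        exact ⟨by linarith, by linarith⟩
    obtain ⟨b1, b2, b3, b4, b5, b6⟩ := hmw k hk4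
    have h1 := H.blb k hk4 (by rw [v1]; linarith) (abs_le.2 ⟨by linarith, by linarith⟩)
      (by linarith) hqX (by linarith) (by
        show i₀.2.1 + L 3 (t + Va k * q) (t + Va k * q) < 1
        linarith) (by
        show L 3 (t + Va k * q) (t + Va k * q) + L 2 (t + Va k * q) (t + Va k * q) + X / 4 * q ≤
          1 + i₀.2.2.2
        linarith)
    have h3 := blb_imp' h1 (Ψ' := Fm2.lab Θ) (fun J F A V z z' G hG => by
      obtain ⟨C', G₁, cc, h⟩ := hG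
      exact hΘn J F A V C' z z' G₁ G cc h)
    intro u1 u2 u3 u4
    exact (h3 u1 u2 u3 u4).sub hs'
  have hlog : 10 * (C * hh) < X := by
    have h1 : hh * (20 * C) = 2 * (10 * (C * hh)) := by ring
    have h2 : 0 < C * hh := mul_pos hC0 hhh
    linarith only [h1, h2, hhl3]
  have hwv : t + Va Nv * q ≤ t := by
    rw [v1]
    have h1 := mul_pos hy₁ hq0
    linarith only [h1]
  -- the slopes
  have hSl := slN_recU (Θ := Θ) (k₁ := k₁) (vw := vw) (y := y) (a := a) (Eb' := Eb (2 + 1))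
    (ε' := 3 * ε * q) (Rg := fun l => κ l = .one ∨ κ l = .thin) (N₁ := N₁) (Dw := Dw)
    (Dr := max Dr₀ (Db * max 1 Db)) (Kd := Db * max 1 Db) R' hN2 hDw2
    (hDbK.trans (le_max_right _ _)) (le_max_right _ _) (by rw [hbd']; linarith)
    (by linarith) hhh hC hlog hε.le (by linarith) hwv
    (fun J F A V C z z' G₁ G₂ cc hG => by
      have h1 := (hΘn J F A V C z z' G₁ G₂ cc hG).lb
      exact ⟨fun y => by
        have := h1.deg y
        rwa [max_self] at this, h1.dep, h1.cls⟩) hΘs (fun v hv => by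
      rcases hv with rfl | rfl
      · have := BlB.deg hDb1 hDb1 (hbl (Nv + 1) (Or.inl rfl))
        rwa [v2] at this
      · have := BlB.deg hDb1 hDb1 (hbl (Nv + 2) (Or.inr (Or.inl rfl)))
        rwa [v3] at this) le_rfl (Bas.mono 0 hΘe fun J _ F A hA => by
      obtain ⟨V, C', z, z', G₁, G₂, cc, h⟩ := hA
      exact ⟨A, fun _ h => h, by rw [one_mul], V, C', z, z', G₁, G₂, cc, h⟩)
  -- the closed labels of `N`
  obtain ⟨K₄, hK₄, hHn⟩ := hhn R' (by omega) hκ (Or.inl hκu) hκt (y := y) (a := a) (v₁ := v₁)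
    (au := Rw) (k₁ := k₁) (hh := hh) (X := X) (w := t + Va Nv * q) (vw := vw) (Θ := Θ) (D' := Db)
    (max Dr₀ (Db * max 1 Db)) N₁ N₂ hN1 hN2 hy hya hsa hk2 (by linarith only [hKf, hK']) hv₁0
    (by linarith only [hKb, hK', hR1, hy₁v]) hRw1 (by linarith only [hKe, hK']) hRw2 hv₁1 (by
      obtain ⟨j, hj, h4, h5⟩ := hpr (Nr + 0) (by omega)
      rw [cmb_r] at h4 h5
      exact ⟨j, hj, h4.trans ap0, h5.trans vp0⟩) (by
      obtain ⟨j, hj, h4, h5⟩ := hpr (Nr + 3) (by omega)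
      rw [cmb_r] at h4 h5
      exact ⟨j, hj, h4.trans ap3, h5.trans vp3⟩) (by
      obtain ⟨j, hj, h4, h5⟩ := hpr (Nr + 4) (by omega)
      rw [cmb_r] at h4 h5
      exact ⟨j, hj, h4.trans ap4, h5.trans vp4⟩) hhh hε.le (by linarith only [hεd])
    (by linarith only [hhl4]) (by linarith only [hhl4, hXc]) hDb5 (by
      have := hbl (Nv + 3) (Or.inr (Or.inr rfl))
      rwa [v4] at this) hΘs
  -- the four windows
  have hRf := R'.recNz (y := y) (a := a) (k₁ := k₁) (vw := fun _ => 0) (N₁ := 1) (N₂ := 3)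
    (Rg := fun l => κ l = .one ∨ κ l = .thin) (by omega) hκ (by rw [hκu]; exact fun h => nomatch h)
    (Or.inr hκt) (fun l _ h => h) (fun l hl => Or.inl (hκ l hl)) (fun h => h.symm) le_rfl
    (by omega) le_rfl
    hy hya hsa hS₂ (fun k hk => by
      interval_cases k
      · obtain ⟨j, hj, h4, h5⟩ := hpr (Nr + 0) (by omega)
        rw [cmb_r] at h4 h5
        exact ⟨j, hj, h4.trans ap0, by rw [h5, vp0]; norm_num [vG]⟩
      · obtain ⟨j, hj, h4, h5⟩ := hpr (Nr + 1) (by omega)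
        rw [cmb_r] at h4 h5
        exact ⟨j, hj, h4.trans ap1, by rw [h5, vp1]; norm_num [vG]⟩)
    (fun k hk hk' => by
      obtain rfl | rfl : k = 2 ∨ k = 3 := by omega
      · obtain ⟨j, hj, h4⟩ := hwn (Nv + 4) (by omega)
        exact ⟨j, hj, by rw [h4, v5]; norm_num [vG]⟩
      · obtain ⟨j, hj, h4⟩ := hwn (Nv + 2) (by omega)
        exact ⟨j, hj, by rw [h4, v3]; norm_num [vG]⟩)
    (by
      obtain ⟨j, hj, h4, h5⟩ := hpr (Nr + 2) (by omega)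
      rw [cmb_r] at h4 h5
      exact ⟨j, hj, h4.trans ap2, h5.trans vp2⟩) hε.le
    (by linarith only [hεc, hXc]) (fun k hk hk' => by omega) (fun k hk hk' => by omega) hk2
    (by linarith only [hKf, hK'])
  -- the closed gradient
  have hXs' : ∀ (J : ℕ) (F : Fam 4 J) (B B' : F.Ω → Prop) (g₀ : ℕ → ℕ → ℕ)
      (G : ℕ → PtT F → ℕ → MvPolynomial (Option (Fin 4)) ℝ)
      (H : ℕ → LnT F → ℕ → MvPolynomial (Option (Fin 4)) ℝ)
      (Ht : ℕ → LnT F → MvPolynomial (Option (Fin 4)) ℝ)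
      (CL : LnT F → MvPolynomial (Option (Fin 4)) ℝ)
      (Cp : PtT F → MvPolynomial (Option (Fin 4)) ℝ), Sub B' B →
      XiF Θ (t + Va Nv * q) J F B g₀ G H Ht CL Cp →
      XiF Θ (t + Va Nv * q) J F B' g₀ G H Ht CL Cp := by
    rintro J F B B' g₀ G H Ht CL Cp hBB ⟨V, C', z, z', G₁, G₂, cc, h1, h2⟩
    exact ⟨V, C', z, z', G₁, G₂, cc, hΘs _ _ _ _ _ _ _ _ _ _ _ hBB h1, fun ω hω => h2 ω (hBB ω hω)⟩
  refine ⟨S', fun J F B g₀ G H Ht CL Cp => XiF Θ (t + Va Nv * q) J F B g₀ G H Ht CL Cp ∧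
    XiCl c 2 Dw CT (X * q) (Sl (2 + 1) * q) (fun k => t + vG y k₁ vw k * q)
      (fun k l => lvN P c (2 + 1) (L (2 + 1)) l (t + vG y k₁ vw k * q) (t + vG y k₁ vw k * q))
      J F B g₀ G H Ht CL Cp, hsub, R', fun J F B g₀ G H Ht CL Cp h => h.2,
    ⟨1 / (4 * 1), 8 * 1 * K₄, by norm_num, by positivity, ?_⟩, fun κ' qf Pq h1 h2 h3 h4 => ?_,
    fun K₅ hK₅ hst => ?_⟩
  · exact hCT hRf N₁ N₂ hN1 hN2 (by linarith only [hab, hs, hbd]) (by rw [hbd']; exact hs) hC hhh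
      (by
        have h1 : ε * (6 * C) = 2 * (3 * C * ε) := by ring
        have h2 : 0 < 3 * C * ε := by positivity
        linarith only [h1, h2, hεe]) hlog hXc4 (hDbK.trans hDw2) hDw3 hXs' (by norm_num)
      (by norm_num : (0 : ℝ) ≤ 1 / (4 * 1) * (8 * 1))
      le_rfl hSl (hHn (1 / (4 * 1) * (8 * 1)))
  · obtain ⟨K₂, hK, hv⟩ := hVf κ' qf Pq h1 h2 h3 h4
    exact ⟨K₂, hK, hv.xi fun J F B g₀ G H Ht CL Cp h => h.1⟩
  · -- the static end
    have hhX : 8 * hh ≤ X := by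
      have h5 : hh ≤ C * hh := le_mul_of_one_le_left hhh.le hC
      linarith
    exact hste k0 k1' hκt hbd.symm (hKg.trans hK') hε hεs' hsub hch Ra' (by
        obtain ⟨j, hj, h4, h5⟩ := hpr (Nr + 5) (by omega)
        rw [cmb_r] at h4 h5
        exact ⟨j, hj, h4.trans ap5, h5.trans vp5⟩)
      (fun k hk => ⟨Nv + 5 + k, by omega, v6 k⟩) v1 hR3 (by linarith) hrrb hdt0 hdtb
      hdtc hX0 hXe hhh hhX hμ0 hqX (fun k hk => by
        obtain ⟨b1, b2, b3, b4, b5, b6⟩ := hmw k hk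
        exact ⟨b1, b2, b4, b6⟩) (H.sub hs') hΘs hΘn K₅ hK₅
      (str_imp hst fun J F B g₀ G H Ht CL Cp h => h.1)

end Pool.STB65
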