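import Pool.Agent.H65.VS.Tby
import Pool.Agent.H65.VS.Tbc
import Pool.Agent.H65.VS.Prt

/-!
# A static target over a thin coordinate, small rate

`partB_ts`: a static target over `u` thin, `a ≠ b`: void. `shA_tB1'`, `shA_tB3'`: the fields `tB1`,
`tB3` of the sheet `ShA`.
-/

set_option autoImplicit false

namespace Pool.STB65

open Finset Real
open Pool.GEN Pool.PKG Pool.ALT Pool.LA91 Pool.ASM
open Pool.V0F (ChUQ AttUQ)

/-- The property of the windows of the static end over a thin coordinate. -/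
abbrev QST : PropG 4 (((Unit ⊕ Unit) ⊕ (Unit ⊕ Unit)) ⊕ (ℕ × ℕ × ℚ × ℚ)) :=
  sumQ (sumQ (sumQ (ChUQ : PropG 4 Unit) (AttUQ : PropG 4 Unit))
    (sumQ (ChUQ : PropG 4 Unit) (AttUQ : PropG 4 Unit))) FaQ

theorem qst_ae : AePG 4 QST ∧ HerQ QST := by
  have h1 : AePG 4 (sumQ (ChUQ : PropG 4 Unit) (AttUQ : PropG 4 Unit)) :=
    aePG_sum (Pool.V0F.aePG_chU 4) (Pool.V0F.her_chU 4) (Pool.V0F.aePG_attU 4)
  have h2 : HerQ (sumQ (ChUQ : PropG 4 Unit) (AttUQ : PropG 4 Unit)) :=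
    her_sum (Pool.V0F.her_chU 4) (Pool.V0F.her_attU 4)
  exact ⟨aePG_sum (aePG_sum h1 h2 h1) (her_sum h2 h2) (aePG_fa 4),
    her_sum (her_sum h2 h2) (her_fa 4)⟩

/-- **A static target over `u` thin of smaller slope, small rate**: void. -/
theorem partB_tsy : PartB (kg4 .one .one .thin .sta)
    (fun Sl => 1 ≤ Sl 2 ∧ 2 ≤ Sl 3 ∧ Sl 2 < Sl 3)
    (fun _ => AdmL 4) (fun Sl => Sl 3 * Real.log 2) := by
  have hκ : ∀ l < 2, kg4 .one .one .thin .sta l = .one := fun l hl => by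
    interval_cases l <;> rfl
  refine ⟨_, inferInstance, QST, qst_ae.1, qst_ae.2, fun h h0 h1 Sl hS b D => ?_⟩
  obtain ⟨h2, h3, h4⟩ := hS
  have hb := b.2
  obtain ⟨hb', hb0, hb1, hβ⟩ := hb_ex (β := Sl 3 * Real.log 2 - b) (s := Sl 3) (by linarith)
    (by linarith)
  obtain ⟨y, hy⟩ : ∃ y : ℝ, y = max (3 / 2) ((Sl 3 - 1) / (Sl 3 - Sl 2)) := ⟨_, rfl⟩
  have hy1 : 3 / 2 ≤ y := by rw [hy]; exact le_max_left _ _
  have hy2 : Sl 3 - 1 ≤ y * (Sl 3 - Sl 2) := by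
    have : (Sl 3 - 1) / (Sl 3 - Sl 2) ≤ y := by rw [hy]; exact le_max_right _ _
    rwa [div_le_iff₀ (by linarith)] at this
  obtain ⟨a, ha⟩ : ∃ a : ℝ, a = max (max (y + 1 / 2) (Sl 3 + 1)) (Sl 3 - 1 + (Sl 2 - 1) * y) :=
    ⟨_, rfl⟩
  have ha1 : y + 1 / 2 ≤ a := by rw [ha]; exact (le_max_left _ _).trans (le_max_left _ _)
  have ha2 : Sl 3 + 1 ≤ a := by rw [ha]; exact (le_max_right _ _).trans (le_max_left _ _)
  have ha3 : Sl 3 - 1 + (Sl 2 - 1) * y ≤ a := by rw [ha]; exact le_max_right _ _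
  exact voidZ_sy (r := 2) (by norm_num) (by norm_num) hκ (by
    show Kg.thin ≠ .any
    exact fun h => nomatch h) (Or.inr rfl) h2 (by
    show 1 < Sl 3
    linarith) hy1 ha1 ha2 (svSY_B rfl rfl rfl rfl h3 hb0 hb1 hβ hy1 ha1 ha2 hy2 ha3
    (vbYb_of (r := 2) (by norm_num) hκ (by
      show 1 < Sl 3
      linarith) hb0 hb1))

/-- **A static target over `u` thin of larger slope, small rate**: void. -/
theorem partB_tsc : PartB (kg4 .one .one .thin .sta)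
    (fun Sl => 2 ≤ Sl 3 ∧ Sl 3 < Sl 2)
    (fun _ => AdmL 4) (fun Sl => Sl 3 * Real.log 2) := by
  have hκ : ∀ l < 2, kg4 .one .one .thin .sta l = .one := fun l hl => by
    interval_cases l <;> rfl
  refine ⟨_, inferInstance, QST, qst_ae.1, qst_ae.2, fun h h0 h1 Sl hS b D => ?_⟩
  obtain ⟨h3, h4⟩ := hS
  have hb := b.2
  obtain ⟨hb', hb0, hb1, hβ⟩ := hb_ex (β := Sl 3 * Real.log 2 - b) (s := Sl 3) (by linarith)
    (by linarith)
  obtain ⟨a, ha⟩ : ∃ a : ℝ, a = max 2 (Sl 3 + 1) := ⟨_, rfl⟩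
  have ha1 : (3 / 2 : ℝ) + 1 / 2 ≤ a := by
    rw [ha]
    linarith [le_max_left 2 (Sl 3 + 1)]
  have ha2 : Sl 3 + 1 ≤ a := by rw [ha]; exact le_max_right _ _
  exact voidZ_sc (r := 2) (by norm_num) (by norm_num) hκ (by
    show Kg.thin ≠ .any
    exact fun h => nomatch h) (Or.inr rfl) (by linarith) (by
    show 1 < Sl 3
    linarith) le_rfl ha1 ha2 (svSC_B rfl rfl rfl rfl h3 hb0 hb1 hβ h4 le_rfl ha1 ha2
    (vbYb_of (r := 2) (by norm_num) hκ (by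
      show 1 < Sl 3
      linarith) hb0 hb1))

/-- The field `tB1` of `ShA`. -/
theorem shA_tB1' : PartB (kg4 .one .one .thin .sta) (fun Sl => NAt Sl ∧ Sl 2 < Sl 3)
    (fun _ => AdmL 4) (fun Sl => Sl 3 * Real.log 2) :=
  partB_mono partB_tsy fun _ h => ⟨h.1.2.2.1.le, h.1.2.2.2, h.2⟩

/-- The field `tB3` of `ShA`. -/
theorem shA_tB3' : PartB (kg4 .one .one .thin .sta) (fun Sl => NAt Sl ∧ Sl 3 < Sl 2)
    (fun _ => AdmL 4) (fun Sl => Sl 3 * Real.log 2) :=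
  partB_mono partB_tsc fun _ h => ⟨h.1.2.2.2, h.2⟩

end Pool.STB65
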