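import Pool.Agent.H65.VS.Tbe
import Pool.Agent.H65.VS.Tbp

/-!
# A static target over a thin coordinate of the same slope, small rate

`partB_tse`: void. `shA_tB2'`: the field `tB2` of the sheet `ShA`.
-/

set_option autoImplicit false

namespace Pool.STB65

open Finset Real
open Pool.GEN Pool.PKG Pool.ALT Pool.LA91 Pool.ASM
open Pool.V0F (ChUQ AttUQ)

/-- The property of the windows of the static end over a thin coordinate of the same slope. -/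
abbrev QSTE : PropG 4 (((Unit ⊕ Unit) ⊕ ((Unit ⊕ Unit) ⊕ (ℕ × ℕ × ℚ × ℚ))) ⊕ (ℕ × ℕ × ℚ × ℚ)) :=
  sumQ (sumQ (sumQ (ChUQ : PropG 4 Unit) (AttUQ : PropG 4 Unit))
    (sumQ (sumQ (ChUQ : PropG 4 Unit) (AttUQ : PropG 4 Unit)) FaQ)) FaQ

theorem qste_ae : AePG 4 QSTE ∧ HerQ QSTE := by
  have h1 : AePG 4 (sumQ (ChUQ : PropG 4 Unit) (AttUQ : PropG 4 Unit)) :=
    aePG_sum (Pool.V0F.aePG_chU 4) (Pool.V0F.her_chU 4) (Pool.V0F.aePG_attU 4)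
  have h2 : HerQ (sumQ (ChUQ : PropG 4 Unit) (AttUQ : PropG 4 Unit)) :=
    her_sum (Pool.V0F.her_chU 4) (Pool.V0F.her_attU 4)
  exact ⟨aePG_sum (aePG_sum h1 h2 (aePG_sum h1 h2 (aePG_fa 4)))
      (her_sum h2 (her_sum h2 (her_fa 4))) (aePG_fa 4),
    her_sum (her_sum h2 (her_sum h2 (her_fa 4))) (her_fa 4)⟩

/-- **A static target over `u` thin of the same slope, small rate**: void. -/
theorem partB_tse : PartB (kg4 .one .one .thin .sta)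
    (fun Sl => 2 ≤ Sl 3 ∧ Sl 2 = Sl 3)
    (fun _ => AdmL 4) (fun Sl => Sl 3 * Real.log 2) := by
  have hκ : ∀ l < 2, kg4 .one .one .thin .sta l = .one := fun l hl => by
    interval_cases l <;> rfl
  refine ⟨_, inferInstance, QSTE, qste_ae.1, qste_ae.2, fun h h0 h1 Sl hS b D => ?_⟩
  obtain ⟨h3, h4⟩ := hS
  have hb := b.2
  obtain ⟨hb', hb0, hb1, hβ⟩ := hb_ex (β := Sl 3 * Real.log 2 - b) (s := Sl 3) (by linarith)
    (by linarith)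
  have hs0 : 0 < Sl 3 := by linarith
  obtain ⟨κ₂, hκ₂⟩ : ∃ κ₂ : ℝ, κ₂ = (Sl 3 - 1) / Sl 3 * hb' / 2 := ⟨_, rfl⟩
  have hp : 0 < (Sl 3 - 1) / Sl 3 * hb' := mul_pos (div_pos (by linarith) hs0) hb0
  have hκ0 : 0 < κ₂ := by rw [hκ₂]; linarith
  have hκ1 : κ₂ < (Sl 3 - 1) / Sl 3 * hb' := by rw [hκ₂]; linarith
  obtain ⟨lu, hlu⟩ : ∃ lu : ℝ, lu = max 3 ((Sl 3 - 1) / κ₂) := ⟨_, rfl⟩
  have hlu3 : 3 ≤ lu := by rw [hlu]; exact le_max_left _ _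
  have hlu1 : Sl 3 - 1 ≤ κ₂ * lu := by
    have h1 : (Sl 3 - 1) / κ₂ ≤ lu := by rw [hlu]; exact le_max_right _ _
    rw [div_le_iff₀ hκ0] at h1
    linarith
  obtain ⟨a, ha⟩ : ∃ a : ℝ, a = max (Sl 3 + 1) (lu + 1 / 2) := ⟨_, rfl⟩
  have ha1 : Sl 3 + 1 ≤ a := by rw [ha]; exact le_max_left _ _
  have ha2 : lu + 1 / 2 ≤ a := by rw [ha]; exact le_max_right _ _
  exact voidZ_sc (r := 2) (y := 3 / 2) (by norm_num) (by norm_num) hκ (by
    show Kg.thin ≠ .any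
    exact fun h => nomatch h) (Or.inr rfl) (by linarith) (by
    show 1 < Sl 3
    linarith) le_rfl (by linarith) ha1 (svSC_E hκ rfl rfl h3 hb0 hb1 hβ h4 hκ0 hκ1 hlu3 hlu1 le_rfl
    (by linarith) ha1 ha2 (vbYb_of (r := 2) (by norm_num) hκ (by
      show 1 < Sl 3
      linarith) hb0 hb1))

/-- The field `tB2` of `ShA`. -/
theorem shA_tB2' : PartB (kg4 .one .one .thin .sta) (fun Sl => NAt Sl ∧ Sl 2 = Sl 3)
    (fun _ => AdmL 4) (fun Sl => Sl 3 * Real.log 2) :=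
  partB_mono partB_tse fun _ h => ⟨h.1.2.2.2, h.2⟩

end Pool.STB65
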