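import Pool.Agent.H3.D2G.RecG

/-!
# A record in other units

`recG_rsc`: the same record, the scale is `k q`.
-/

set_option autoImplicit false

namespace Pool.STB65

open Finset Real MvPolynomial
open Pool.Agent.H49.Ent Pool.Agent.H32.Dense Pool.STK Pool.KA Pool.KSAT Pool.K2S Pool.PB Pool.S6C
open Pool.GEN Pool.PKG

/-- **The same record in other units.** -/
theorem recG_rsc {m : ℕ} {S : PCl m} {al : ℝ} {g₀ : ℝ → ℝ}
    {P : List (Fin m) × Fin m → ℝ → ℝ → ℝ} {θ : ℝ}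
    {P₂ : ℕ → List (Fin m) × Fin m → ℝ → ℝ → ℝ} {θ₂ Eb e₂ : ℕ → ℝ}
    {c : ℕ → Fin m} {Pt : ℝ → ℝ → ℝ} {r : ℝ → ℝ} {h K₀ g : ℝ} {L T : ℕ → ℝ → ℝ → ℝ}
    {Sl : ℕ → ℝ} {κ : ℕ → Kg} {G : Set ℝ} {S₀ N : ℕ} {A V : ℕ → ℝ} {S₂ N' : ℕ} {V' : ℕ → ℝ}
    {K ε q t k : ℝ} (hk : 0 < k)
    (R : RecG S al g₀ P θ P₂ θ₂ Eb e₂ c Pt r h K₀ g L T Sl κ G S₀ N A V S₂ N' V' K ε q t) :
    RecG S al g₀ P θ P₂ θ₂ Eb e₂ c Pt r h (K₀ / k) g L T Sl κ G S₀ N (fun i => A i / k)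
      (fun i => V i / k) S₂ N' (fun i => V' i / k) (K / k) (ε / k) (k * q) t := by
  have e0 : ∀ x : ℝ, x / k * (k * q) = x * q := fun x => by field_simp
  have e3 : 3 * (K / k) * (k * q) = 3 * K * q := by field_simp
  have h1 := R.t0
  have h2 := R.t1
  refine ⟨R.ne, R.al0, R.g₀pos, R.clx, R.thr, R.th0, R.tgs, R.rate, R.inj, R.c0, R.law, R.lv,
    R.lawL, mul_pos hk R.q0, ?_, ?_, ?_, ?_, ?_, ?_, ?_, ?_, R.s0, ?_, ?_, ?_, ?_, R.tgl⟩
  · rw [e0]; exact R.t0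
  · rw [e0]; exact R.t1
  · rw [e0]; exact R.near
  · simp only [e0]; exact R.memG
  · simp only [e0]; exact R.TL
  · simp only [e0]; exact R.TLc
  · simp only [e0]; exact R.dL
  · simp only [e0]; exact R.dT
  · simp only [e0]; exact R.l0
  · intro l hl
    have h3 := R.kd l hl
    cases hκ : κ l <;> rw [hκ] at h3 <;> simp only [KgQ, e0] at h3 ⊢ <;> exact h3
  · simp only [e0]; exact R.row
  · intro l hl hm
    obtain ⟨c1, c2, c3, c4, c5, c6, c7, c8, c9, c10⟩ := R.tg l hl hm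
    refine ⟨c1, c2, c3, ?_, ?_, ?_, ?_, ?_, ?_, ?_⟩
    · rw [e3]; exact c4
    · simp only [e0]; exact c5
    · simp only [e0, e3]; exact c6
    · simp only [e0]; exact c7
    · simp only [e0]; exact c8
    · simp only [e0]; exact c9
    · simp only [e0]; exact c10

end Pool.STB65
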