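import Pool.Agent.H92.STE.Se1
import Pool.Agent.H90.STV.Mxr
import Pool.Agent.H92.ALT.Sl2
import Pool.Agent.H92.V0F.Hex

/-!
# A subclass from the static end

`st_sub`: in a subclass, on all events, a label of the family is near the closed label of a row chain.
-/

set_option autoImplicit false

namespace Pool.STB65

open Finset Real MvPolynomial
open Pool.Agent.H49.Ent Pool.Agent.H32.Dense Pool.STK Pool.KA Pool.KSAT Pool.K2S Pool.PB Pool.S6C
  Pool.GEN Pool.RCD Pool.LA91 Pool.OWN68 Pool.PKG Pool.ALT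
open Pool.CHT Pool.V1E
open Pool.PN18 (Fm2)
open Pool.STV90 (BlR RwE)
open Pool.V0F (her_ext)

/-- **A subclass from the static end.** -/
theorem st_sub {m : ℕ} {S : PCl m} {c : ℕ → Fin m} {r D : ℕ} {a v e gu p K w : ℝ} {Θ : Fm2 m}
    (hS : S.Ne) (hΘ : ∀ (J : ℕ) (F : Fam m J) (A B : F.Ω → Prop) (V C : Type) (z : PtT F → V)
      (z' : LnT F → V) (G₁ G₂ : V → MvPolynomial (Option (Fin m)) ℝ) (cc : LnT F → C),
      Sub B A → Θ J F A V C z z' G₁ G₂ cc → Θ J F B V C z z' G₁ G₂ cc)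
    (H : StL S c r D a v e gu p K (XiF Θ w)) (x : ℝ) :
    ∃ S' : PCl m, S'.Ne ∧ SubC S' S ∧ Bas S' (fun J F A => ∃ (V : Type) (z : PtT F → V)
      (z' : LnT F → V) (G : V → MvPolynomial (Option (Fin m)) ℝ),
      BlR c r D a v e gu p x w (Fm2.lab Θ) J F A V z z' G) := by
  obtain ⟨S', h1, h2, h3⟩ := her_ext hS (fun _ J F A => ∃ (V : Type) (z : PtT F → V)
      (z' : LnT F → V) (G : V → MvPolynomial (Option (Fin m)) ℝ),
      BlR c r D a v e gu p x w (Fm2.lab Θ) J F A V z z' G) (fun _ J F A B hBA hA => by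
    obtain ⟨V, z, z', G, ⟨C, G₁, cc, hG⟩, hr⟩ := hA
    exact ⟨V, z, z', G, ⟨C, G₁, cc, hΘ J F A B V C z z' G₁ G cc hBA hG⟩, hr.sub hBA⟩)
    (fun _ => ⟨K, Bas.mono 0 H (by
      rintro J - F A ⟨B, B₁, g₀, G, H, Ht, CL, Cp, g, T, TH, Gc, Hc, P, hBA, hB, hPe,
        ⟨V, C, z, z', G₁, G₂, cc, hG, hG2⟩, hCp, hT, hR, hp, hgu, hd⟩
      refine ⟨B₁, fun ω hω => hBA ω (hB ω hω), hPe, V, z, z', G₂,
        ⟨C, G₁, cc, hΘ J F B B₁ V C z z' G₁ G₂ cc hB hG⟩, g, T, TH, Gc, Hc, P, hT, hR, hp, hgu,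
        fun ω hω => ?_⟩
      have h4 : eval (bt F ω) (pderiv (some (c r)) (Hc (slam F ⌊v * J⌋₊ ω) -
          G₂ (z' (slam F ⌊w * J⌋₊ ω)))) = 0 := by
        rw [← hG2 ω (hB ω hω), hCp ω (hB ω hω)]
        exact hd _ _
      rw [h4, abs_zero]
      positivity)⟩)
  exact ⟨S', h1, h2, h3 0⟩

end Pool.STB65
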