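import Pool.Agent.H98.STB.VrC
import Pool.Agent.H92.ALT.Jn3

/-!
# The labels at a later window of the alternative

`alo_win`: at a window of the chain the second labels of the family are blind, and there are labels of
the target and of `u`.
-/

set_option autoImplicit false

namespace Pool.STB65

open Finset Real MvPolynomial
open Pool.Agent.H49.Ent Pool.Agent.H32.Dense Pool.STK Pool.KA Pool.KSAT Pool.K2S Pool.PB Pool.S6C
  Pool.GEN Pool.RCD Pool.LA91 Pool.OWN68 Pool.PKG Pool.ALT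
open Pool.GRD (LbP)
open Pool.PN18 (Fm2)

/-- **The labels at a later window of the alternative.** -/
theorem alo_win {S : PCl 4} {c : ℕ → Fin 4} {L : ℕ → ℝ → ℝ → ℝ} {Db Na i j : ℕ} {Va : ℕ → ℝ}
    {R hb dt lam rr ℓ g₂ X hh μ e₀ π₀ q t : ℝ} {Ψ : Fml 4}
    {w p₁ p₂ eN uN pN pa₁ pa₂ ea ua pa : ℝ} {Θ : Fm2 4}
    (H : AlO (r₀ := 2) S c L Db Na Va i j R hb dt lam rr ℓ g₂ X hh μ e₀ π₀ q t Ψ w p₁ p₂ eN uN pN
      pa₁ pa₂ ea ua pa)
    (hΘn : ∀ (J : ℕ) (F : Fam 4 J) (A : F.Ω → Prop) (V C : Type) (z : PtT F → V)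
      (z' : LnT F → V) (G₁ G₂ : V → MvPolynomial (Option (Fin 4)) ℝ) (cc : LnT F → C),
      Θ J F A V C z z' G₁ G₂ cc →
      NzF Ψ c 2 (c 3) Db Db Db w (t + Va i * q) p₁ p₂ eN uN pN J F A V z z' G₂)
    {k : ℕ} (hk : k < Na) (h1 : Va i + g₂ ≤ Va k) (h2 : |Va k| ≤ R) (h3 : Va k + g₂ ≤ R)
    (hX : X * q ≤ μ) (hh0 : 0 < hh * q) (hhX : 2 * (hh * q) ≤ X * q) (hμ : 0 < μ)
    (m1 : μ ≤ L 3 (t + Va k * q) (t + Va k * q)) (m2 : μ ≤ L 2 (t + Va k * q) (t + Va k * q))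
    (m3 : e₀ + L 3 (t + Va k * q) (t + Va k * q) + μ ≤ 1)
    (m4 : L 3 (t + Va k * q) (t + Va k * q) + L 2 (t + Va k * q) (t + Va k * q) + μ ≤ 1 + π₀) :
    BlB S c 2 (c 3) (t + Va i * q) (t + Va k * q) Db Db
      (L 3 (t + Va k * q) (t + Va k * q) - 2 * (hh * q))
      (L 2 (t + Va k * q) (t + Va k * q) - 2 * (hh * q))
      (L 2 (t + Va k * q) (t + Va k * q) - L 3 (t + Va k * q) (t + Va k * q) + X * q)
      (Fm2.lab Θ) ∧
    (∃ χ : ℝ, 0 < χ ∧ Bas S (fun J F A => ∃ (P₁ : ℕ) (V₁ : Type) (z₁ : PtT F → V₁)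
      (z₁' : LnT F → V₁) (G₁ : V₁ → MvPolynomial (Option (Fin 4)) ℝ),
      LbP F ((range 3).image c) (c 3) Db J ⌊(t + Va k * q) * J⌋₊ P₁ A z₁ z₁' G₁ ∧
        (L 3 (t + Va k * q) (t + Va k * q) - 2 * (hh * q) + χ) * J ≤ P₁)) ∧
    ∃ χ : ℝ, 0 < χ ∧ Bas S (fun J F A => ∃ (P₁ : ℕ) (V₁ : Type) (z₁ : PtT F → V₁)
      (z₁' : LnT F → V₁) (G₁ : V₁ → MvPolynomial (Option (Fin 4)) ℝ),
      LbP F ((range 2).image c) (c 2) Db J ⌊(t + Va k * q) * J⌋₊ P₁ A z₁ z₁' G₁ ∧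
        (L 2 (t + Va k * q) (t + Va k * q) - 2 * (hh * q) + χ) * J ≤ P₁) := by
  have hb : BlB S c 2 (c 3) (t + Va i * q) (t + Va k * q) Db Db
      (L 3 (t + Va k * q) (t + Va k * q) - 2 * (hh * q))
      (L 2 (t + Va k * q) (t + Va k * q) - 2 * (hh * q))
      (L 2 (t + Va k * q) (t + Va k * q) - L 3 (t + Va k * q) (t + Va k * q) + X * q)
      (NzF Ψ c 2 (c 3) Db Db Db w (t + Va i * q) p₁ p₂ eN uN pN) :=
    H.blb k hk h1 h2 h3 hX (hX.trans m2) (by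
      show e₀ + L 3 (t + Va k * q) (t + Va k * q) < 1
      linarith) (by
      show L 3 (t + Va k * q) (t + Va k * q) + L 2 (t + Va k * q) (t + Va k * q) + X * q ≤ 1 + π₀
      linarith)
  obtain ⟨E, Eu, hl⟩ := H.lab k hk
  obtain ⟨k1, k2⟩ := Pool.STB.alw_lab (η' := hh * q)
    (p := L 3 (t + Va k * q) (t + Va k * q) - 2 * (hh * q))
    (p₂ := L 2 (t + Va k * q) (t + Va k * q) - 2 * (hh * q)) hl hh0 (by
      show L 3 (t + Va k * q) (t + Va k * q) - 2 * (hh * q) + hh * q ≤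
        L 3 (t + Va k * q) (t + Va k * q)
      linarith) (by linarith) (by linarith) (by linarith)
  exact ⟨blb_imp' hb (fun J F A V z z' G hG => by
    obtain ⟨C', G₁, cc, h⟩ := hG
    exact hΘn J F A V C' z z' G₁ G cc h), k1, k2⟩

end Pool.STB65
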