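import Pool.Agent.H92.ALT.Jn3
import Pool.Agent.H42.D2.Nqc

/-!
# The slope and the velocity over the natural labels of a family of small rate, at a record

`jx_rec`: at a record, in a subclass, a family of pairs of natural labels, the slope hypothesis
`SlHU` and the dead velocity `VfNU` over its second labels, with the output `AlO` of the alternative
at all windows of the chain. The target may be static.
-/

set_option autoImplicit false

namespace Pool.STB65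

open Finset Real MvPolynomial
open Pool.Agent.H49.Ent Pool.Agent.H32.Dense Pool.STK Pool.KA Pool.KSAT Pool.K2S Pool.PB Pool.S6C
  Pool.GEN Pool.RCD Pool.LA91 Pool.OWN68 Pool.PKG Pool.ALT
open Pool.CHT Pool.CHX Pool.ISO Pool.D2R Pool.D2G30 Pool.V1E Pool.CR99 Pool.GRW
open Pool.UNJ (ceI)
open Pool.GRD (LbP)
open Pool.PN18 (Fm2)
open Pool.AJX (LbX)
open Pool.AJW (jfV jfV_mem)
open Pool.V0F (LbU ChUQ AttUQ recG_lbf)

set_option maxHeartbeats 1000000 in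
/-- **The slope and the velocity over the natural labels of a family of small rate, at a record.** -/
theorem jx_rec (r S₀ : ℕ) (hr : 1 ≤ r) (hS₀ : 1 ≤ S₀) : ∃ D₀ : ℕ, 1 ≤ D₀ ∧
    ∀ Db Dw Dv : ℕ, D₀ ≤ Db → Dv ≤ Db → Db * max 1 Db ≤ Dw →
    ∀ {hb b β' C δ X₀ dt₁ rr₁ R₁ K₀ a : ℝ}, 0 < hb → hb ≤ 1 → 1 < b →
    β' ≤ (1 - hb) * b * Real.log 2 → 1 ≤ C → 0 < δ → 0 < X₀ → 0 < dt₁ → 0 < K₀ →
    ∃ (lam rr R dt ℓ kf X h₁ Xc : ℝ) (e : PosR), 0 < lam ∧ lam ≤ rr ∧ rr₁ ≤ rr ∧ 1 + b ≤ R ∧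
    R₁ ≤ R ∧ 0 < dt ∧ dt ≤ dt₁ ∧ dt * lam ≤ dt₁ ∧ 0 < ℓ ∧ b ≤ kf ∧ 0 < X ∧ X ≤ X₀ ∧
    X ≤ 1 / 2 ∧ 0 < h₁ ∧ 0 ≤ Xc ∧
    ∀ hh k₁ : ℝ, 0 < hh → hh ≤ h₁ → kf + 8 ≤ k₁ → a + 1 ≤ k₁ →
    ∃ K₁ : ℝ, 1 ≤ K₁ ∧ (∀ k ≤ r, -K₁ ≤ jfV r (-b) Xc k ∧ jfV r (-b) Xc k ≤ K₁) ∧
    ∀ K' : ℝ, K₁ ≤ K' → ∃ ε₀ : ℝ, 0 < ε₀ ∧ ∀ ε : ℝ, 0 < ε → ε ≤ ε₀ →
    ∀ {h : ℝ} {Sl : ℕ → ℝ} {κ : ℕ → Kg}, (∀ l < r, κ l = .one) → Sl (r + 1) = b →
    ∀ {S : PCl (r + 2)} {P : List (Fin (r + 2)) × Fin (r + 2) → ℝ → ℝ → ℝ} {θ : ℝ}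
      {c : ℕ → Fin (r + 2)} {Pt : ℝ → ℝ → ℝ} {rt : ℝ → ℝ} {L T : ℕ → ℝ → ℝ → ℝ} {G : Set ℝ}
      {g : ℝ}, (∀ l < r + 2, HasDerivAt (fun x => L l x x) (Sl l) g) →
    LowE (AdmL (r + 2)) β' Dv e S P θ c Pt rt L T κ G g → ∀ {k₀ k₀' : ℕ},
    ChUQ (n := r + 2) () k₀ S P θ c Pt rt L T κ G g →
    AttUQ (n := r + 2) () k₀' S P θ c Pt rt L T κ G g →
    ∃ μ q₁ e₀ π₀ : ℝ, 0 < μ ∧ 0 < q₁ ∧ ∀ {al : ℝ} {g₀ : ℝ → ℝ}
      {P₂ : ℕ → List (Fin (r + 2)) × Fin (r + 2) → ℝ → ℝ → ℝ} {θ₂ Eb e₂ : ℕ → ℝ} {N : ℕ}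
      {A V : ℕ → ℝ} {S₂ Na : ℕ} {Va : ℕ → ℝ} {q t : ℝ}, q < q₁ →
      RecG S al g₀ P θ P₂ θ₂ Eb e₂ c Pt rt h K₀ g L T Sl κ G S₀ N A V S₂ Na Va K' ε q t →
      (∀ k < Na, |Va k| ≤ K') → ∀ {i j j' : ℕ}, i < Na → j < Na → j' < Na → Va i = -b →
      Va j = 0 → Va j' = 1 → (∀ k ≤ r, ∃ k' < Na, Va k' = jfV r (-b) Xc k) →
      ∀ {D Dr : ℕ}, D ≤ Db → (Db * max 1 Db + 1) * (Db * max 1 Db + 1) ≤ Dr →
      ∃ (S' : PCl (r + 2)) (Θ : Fm2 (r + 2)) (Ψ : Fml (r + 2))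
        (w p₁ p₂ eN uN pN pa₁ pa₂ ea ua pa : ℝ), S'.Ne ∧ SubC S' S ∧
      RecG S' al g₀ P θ P₂ θ₂ Eb e₂ c Pt rt h K₀ g L T Sl κ G S₀ N A V S₂ Na Va K' ε q t ∧
      (∀ k < Na, μ ≤ L (r + 1) (t + Va k * q) (t + Va k * q) ∧
        μ ≤ L r (t + Va k * q) (t + Va k * q) ∧ L r (t + Va k * q) (t + Va k * q) + μ ≤ 1 ∧
        e₀ + L (r + 1) (t + Va k * q) (t + Va k * q) + μ ≤ 1 ∧
        π₀ + μ ≤ L (r + 1) (t + Va k * q) (t + Va k * q) ∧
        L (r + 1) (t + Va k * q) (t + Va k * q) + L r (t + Va k * q) (t + Va k * q) + μ ≤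
          1 + π₀) ∧ X / 4 * q ≤ μ ∧
      AlO S' c L Db Na Va i j R hb dt lam rr ℓ b (X / 4) hh μ e₀ π₀ q t Ψ w p₁ p₂ eN uN pN pa₁
        pa₂ ea ua pa ∧
      (∀ (J : ℕ) (F : Fam (r + 2) J) (A B : F.Ω → Prop) (V C : Type) (z : PtT F → V)
        (z' : LnT F → V) (G₁ G₂ : V → MvPolynomial (Option (Fin (r + 2))) ℝ) (cc : LnT F → C),
        Sub B A → Θ J F A V C z z' G₁ G₂ cc → Θ J F B V C z z' G₁ G₂ cc) ∧
      (∀ (J : ℕ) (F : Fam (r + 2) J) (A : F.Ω → Prop) (V C : Type) (z : PtT F → V)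
        (z' : LnT F → V) (G₁ G₂ : V → MvPolynomial (Option (Fin (r + 2))) ℝ) (cc : LnT F → C),
        Θ J F A V C z z' G₁ G₂ cc →
        NzF Ψ c r (c (r + 1)) Db Db Db w (t + Va i * q) p₁ p₂ eN uN pN J F A V z z' G₂) ∧
      Bas S' (fun J F A => ∃ (V C : Type) (z : PtT F → V) (z' : LnT F → V)
        (G₁ G₂ : V → MvPolynomial (Option (Fin (r + 2))) ℝ) (cc : LnT F → C),
        Θ J F A V C z z' G₁ G₂ cc) ∧
      ∀ {N₁ N₂ : ℕ} {y : ℝ} {vw : ℕ → ℝ} {Rg : ℕ → Prop}, 3 ≤ N₂ →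
      SlHU S' c r D Dw Dr N₁ N₂ Rg C (t + a * q)
        (Eb (r + 1)) (3 * ε * q) (hh * q) (X * q) (b * q) (L (r + 1))
        (fun k => t + vG y k₁ vw k * q)
        (fun k l => lvN P c (r + 1) (L (r + 1)) l (t + vG y k₁ vw k * q) (t + vG y k₁ vw k * q))
        (fun k l => bet P c l (t + a * q) (t + vG y k₁ vw k * q)) (1 / (4 * 1)) (8 * 1)
        (XiF Θ (t + Va i * q)) ∧
      ∀ (κ' : ℝ) (qf : ℕ → Fin r → ℕ) (Pq : Fin r → ℝ), 0 < κ' → κ' ≤ 1 →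
        (∀ i, (kf + 1) * q ≤ Pq i) → (∀ (J : ℕ) (i : Fin r), Pq i * J - 2 ≤ qf J i) →
        VfNU S' c r D Dw Dr N₁ N₂ Rg C (t + a * q)
          (Eb (r + 1)) (3 * ε * q) (hh * q) (X * q) (b * q) (kf * q) (L (r + 1))
          (fun k => t + vG y k₁ vw k * q)
          (fun k l => lvN P c (r + 1) (L (r + 1)) l (t + vG y k₁ vw k * q) (t + vG y k₁ vw k * q))
          (fun k l => bet P c l (t + a * q) (t + vG y k₁ vw k * q)) κ' qf δ (2 * 1)
          (XiF Θ (t + Va i * q)) := by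
  classical
  obtain ⟨D₀, hD₀, halo⟩ := alo_rec r S₀ hS₀
  obtain ⟨Kl, hKl, hlbf⟩ := recG_lbf (r + 2) S₀ (by omega) hS₀
  refine ⟨D₀, hD₀, ?_⟩
  intro Db Dw Dv hDb2 hDb4 hDw2 hb b β' C δ X₀ dt₁ rr₁ R₁ K₀ a hb0 hb1 hs1 hβ hC hδ hX₀ hdt₁ hK₀
  have hC0 : 0 < C := by linarith only [hC]
  have hbp : 0 < b := by linarith only [hs1]
  have hr0 : (0 : ℝ) ≤ r := Nat.cast_nonneg r
  have hbb : b < b * b := by nlinarith only [hs1]
  -- the constants
  obtain ⟨lam, hlam⟩ : ∃ lam : ℝ, lam = b * b - (b - b + 1) / 2 := ⟨_, rfl⟩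
  have hlame : lam = b * b - 1 / 2 := by
    rw [hlam]
    ring
  have hlam0 : 1 / 2 < lam := by
    rw [hlame]
    linarith only [hs1, hbb]
  have hlp : 0 < lam := by linarith only [hlam0]
  obtain ⟨δN, C', hδN, hC', Hv⟩ := vfN_B Db Dw r hr hb0 hb1 hδ hlp
  obtain ⟨φ, hφ⟩ : ∃ φ : ℝ, φ = min 1 (δN * lam / (8 * (r + 1))) := ⟨_, rfl⟩
  have hφ0 : 0 < φ := by
    rw [hφ]
    positivity
  have hφ1 : φ ≤ 1 := by
    rw [hφ]
    exact min_le_left _ _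
  have hφN : (r + 1) * φ ≤ δN * lam / 8 := by
    have h1 : φ ≤ δN * lam / (8 * (r + 1)) := by
      rw [hφ]
      exact min_le_right _ _
    rw [le_div_iff₀ (by positivity)] at h1
    linarith only [h1]
  have hrφ : 0 ≤ (r : ℝ) * φ := mul_nonneg hr0 hφ0.le
  obtain ⟨Xc, hXc⟩ : ∃ Xc : ℝ, Xc = 12 * b + 32 * (r + 1) * φ + lam := ⟨_, rfl⟩
  have hXc0 : 0 < Xc := by
    rw [hXc]
    linarith only [hbp, hrφ, hφ0, hlp]
  have h3X : 0 ≤ 3 ^ r * Xc := by positivity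
  obtain ⟨dt, hdt⟩ : ∃ dt : ℝ, dt = min (min dt₁ (dt₁ / lam)) (min (δN / 2) (φ / lam)) :=
    ⟨_, rfl⟩
  have hdt0 : 0 < dt := by
    rw [hdt]
    exact lt_min (lt_min hdt₁ (by positivity)) (lt_min (by linarith only [hδN]) (by positivity))
  have hdt1 : dt ≤ dt₁ := by
    rw [hdt]
    exact (min_le_left _ _).trans (min_le_left _ _)
  have hdt2 : dt * lam ≤ dt₁ := by
    have h1 : dt ≤ dt₁ / lam := by
      rw [hdt]
      exact (min_le_left _ _).trans (min_le_right _ _)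
    rwa [le_div_iff₀ hlp] at h1
  have hdtN : dt ≤ δN / 2 := by
    rw [hdt]
    exact (min_le_right _ _).trans (min_le_left _ _)
  have hdtφ : dt * lam ≤ φ := by
    have h1 : dt ≤ φ / lam := by
      rw [hdt]
      exact (min_le_right _ _).trans (min_le_right _ _)
    rwa [le_div_iff₀ hlp] at h1
  have hC'0 : 0 < C' := by linarith only [hC']
  obtain ⟨rr, hrrd⟩ : ∃ rr : ℝ, rr = max lam rr₁ := ⟨_, rfl⟩
  have hrr : lam ≤ rr := by rw [hrrd]; exact le_max_left _ _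
  have hrr1 : rr₁ ≤ rr := by rw [hrrd]; exact le_max_right _ _
  have hby : 0 < b * b := mul_pos hbp hbp
  obtain ⟨X, hX⟩ : ∃ X : ℝ, X = min (min X₀ (δ / (4 * C'))) (1 / 2) := ⟨_, rfl⟩
  have hX0 : 0 < X := by rw [hX]; positivity
  have hXa : X ≤ X₀ := by rw [hX]; exact (min_le_left _ _).trans (min_le_left _ _)
  have hXc' : X ≤ 1 / 2 := by rw [hX]; exact min_le_right _ _
  have hXd : X ≤ b * b := by linarith only [hXc', hs1, hbb]
  have hXδ : C' * X ≤ δ / 4 := by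
    have h1 : X ≤ δ / (4 * C') := by rw [hX]; exact (min_le_left _ _).trans (min_le_right _ _)
    rw [le_div_iff₀ (by positivity)] at h1
    linarith only [h1]
  obtain ⟨R, hR⟩ : ∃ R : ℝ, R = max (max (1 + b) R₁) ((rr + 1 / 2) / b) := ⟨_, rfl⟩
  have hR1 : 1 + b ≤ R := by rw [hR]; exact (le_max_left _ _).trans (le_max_left _ _)
  have hR3 : R₁ ≤ R := by rw [hR]; exact (le_max_right _ _).trans (le_max_left _ _)
  have hR2 : rr + 1 / 2 ≤ b * R := by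
    have : (rr + 1 / 2) / b ≤ R := by rw [hR]; exact le_max_right _ _
    rw [div_le_iff₀ hbp] at this
    linarith only [this]
  have hR0 : 0 < R := by linarith only [hR1, hbp]
  obtain ⟨ℓ, h₁, ε₁, e₁, hℓ, hℓ₁, hh₁, hε₁, he₁, halo⟩ := halo Db hDb2 (b := b) (h := hb)
    (δ := dt) (lam := lam) (rr := rr) (gg := 1 / 2) (R := R) (K₁ := K₀) (ℓ₀ := 1) (X := X / 4)
    (g₂ := b) hbp hb0 hb1 hdt0 hlp hrr (by norm_num) hR0.le hK₀.le one_pos
    (by linarith only [hX0]) hbp (by linarith only [hXd, hX0])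
  obtain ⟨kf, hkf⟩ : ∃ kf : ℝ, kf = max (3 ^ r * Xc) (b * b + b + 1) := ⟨_, rfl⟩
  have hkf1 : 3 ^ r * Xc ≤ kf := by rw [hkf]; exact le_max_left _ _
  have hkf2 : b * b + b + 1 ≤ kf := by rw [hkf]; exact le_max_right _ _
  have hkf0 : 0 < kf := by linarith only [hkf2, hby, hbp]
  refine ⟨lam, rr, R, dt, ℓ, kf, X, min h₁ (min (min φ (min (1 / 4) (X / (4 * C))))
    (X / (20 * C))), Xc, ⟨e₁, he₁⟩, hlp, hrr, hrr1, hR1, hR3, hdt0, hdt1, hdt2, hℓ,
    by linarith only [hkf2, hby], hX0, hXa, hXc', by positivity, hXc0.le, ?_⟩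
  intro hh k₁ hhh hhl hk1 hk2
  have hhl1 := hhl.trans (min_le_left _ _)
  have hhl2 := hhl.trans ((min_le_right _ _).trans (min_le_left _ _))
  have hhl3 := hhl.trans ((min_le_right _ _).trans (min_le_right _ _))
  rw [le_div_iff₀ (by positivity)] at hhl3
  have hhC : 4 * (C * hh) ≤ X := by
    have h1 : hh ≤ X / (4 * C) := hhl2.trans ((min_le_right _ _).trans (min_le_right _ _))
    rw [le_div_iff₀ (by positivity)] at h1
    linarith only [h1]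
  have hCh0 : 0 < C * hh := mul_pos hC0 hhh
  have hhX : 4 * hh ≤ X := by
    have h1 : hh ≤ C * hh := le_mul_of_one_le_left hhh.le hC
    linarith only [h1, hhC]
  have hlog : 10 * (C * hh) < X := by nlinarith only [hhl3, hCh0]
  have hK0 : 0 ≤ k₁ + C + kf + lam + 3 := by
    linarith only [hk1, hkf0, hC0, hlp]
  obtain ⟨K₁, hK₁⟩ : ∃ K₁ : ℝ, K₁ = max (k₁ + C + 3 ^ r * Xc + kf + b + lam + 3)
      (max (R + 1) (K₀ + 1)) := ⟨_, rfl⟩
  have hKa : k₁ + C + 3 ^ r * Xc + kf + b + lam + 3 ≤ K₁ := by rw [hK₁]; exact le_max_left _ _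
  have hKb : R + 1 ≤ K₁ := by rw [hK₁]; exact (le_max_left _ _).trans (le_max_right _ _)
  have hKd : K₀ + 1 ≤ K₁ := by rw [hK₁]; exact (le_max_right _ _).trans (le_max_right _ _)
  refine ⟨K₁, by linarith only [hKb, hR0], fun k hk => ?_, fun K' hK' => ?_⟩
  · obtain ⟨h1, h2⟩ := jfV_mem (r := r) (vv := -b) (X := Xc) (by linarith only [hbp]) hXc0.le
      (show k ≤ r by omega)
    constructor <;> linarith only [h1, h2, hK0, h3X, hbp, hKa]
  refine ⟨min (min (φ / 2) (X / 4)) (min ε₁ (X / 16)), by positivity, fun ε hε hεε => ?_⟩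
  have hεa := hεε.trans ((min_le_left _ _).trans (min_le_left _ _))
  have hεd := hεε.trans ((min_le_left _ _).trans (min_le_right _ _))
  have hεb := hεε.trans ((min_le_right _ _).trans (min_le_left _ _))
  have hεc := hεε.trans ((min_le_right _ _).trans (min_le_right _ _))
  intro h Sl κ hκ hbd S P θ c Pt rt L T G g hder hZ k₀ k₀' hch hat
  obtain ⟨i₀, ⟨a1, a2, a3, a4, a5, a6, a7⟩, hiD, φ₁, k₂, hφ10, hφ11, hrt⟩ := hZ
  have hK'0 : K₀ ≤ K' := by linarith only [hKd, hK']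
  have hK'p : 0 < K' := by linarith only [hK'0, hK₀]
  by_cases hpos : 0 < L (r + 1) g g
  swap
  · obtain ⟨q₁, hq₁, H⟩ := rec_pos (by omega : r + 1 < r + 2) (hder (r + 1) (by omega)) hK₀ hK'0
      hpos
    exact ⟨1, q₁, 0, 0, one_pos, hq₁, fun hq Rc => (H hq Rc).elim⟩
  by_cases hposu : 0 < L r g g
  swap
  · obtain ⟨q₁, hq₁, H⟩ := rec_pos (by omega : r < r + 2) (hder r (by omega)) hK₀ hK'0 hposu
    exact ⟨1, q₁, 0, 0, one_pos, hq₁, fun hq Rc => (H hq Rc).elim⟩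
  have e1 : r + 2 - 1 = r + 1 := rfl
  have e2 : r + 2 - 2 = r := rfl
  rw [e1] at a1 a5 a6 a7
  rw [e2] at a2 a7
  obtain ⟨μ₁, d, hμ₁, hd, hmar⟩ := mar_lin (hder r (by omega)) (hder (r + 1) (by omega)) hpos
    hposu a5 a6 a7
  obtain ⟨μ, hμ⟩ : ∃ μ : ℝ, μ = min μ₁ ((1 / 2) ^ k₀') := ⟨_, rfl⟩
  have hμ0 : 0 < μ := by rw [hμ]; positivity
  have hμa : μ ≤ μ₁ := by rw [hμ]; exact min_le_left _ _
  have hμb : μ ≤ (1 / 2) ^ k₀' := by rw [hμ]; exact min_le_right _ _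
  have hKK : 0 < K' + K₀ := by linarith only [hK'p, hK₀]
  have hKK3 : 0 < 3 * K' + K₀ := by linarith only [hK'p, hK₀]
  have hb8 : 0 < 8 * b + 8 * rr := by linarith only [hbp, hrr, hlp]
  have hKR : 0 < K₀ + R + 1 := by linarith only [hK₀, hR0]
  refine ⟨μ, min (min (d / (K' + K₀)) ((1 / 2) ^ k₂ / (K₀ + R + 1))) (min
    (μ / (8 * b + 8 * rr)) (min ((1 / 2) ^ k₀' / (3 * K' + K₀)) μ)), i₀.2.1, i₀.2.2.2, hμ0,
    by positivity, ?_⟩
  intro al g₀ P₂ θ₂ Eb e₂ N A V S₂ Na Va q t hq Ra hVaA i j j' hi hj hj' hVi hVj hVj' hwin D Dr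
    hDb1 hDr
  have q2 := hq.trans_le ((min_le_left _ _).trans (min_le_left _ _))
  have q3 := hq.trans_le ((min_le_left _ _).trans (min_le_right _ _))
  have q4 := hq.trans_le ((min_le_right _ _).trans (min_le_left _ _))
  have q5 := hq.trans_le ((min_le_right _ _).trans ((min_le_right _ _).trans (min_le_left _ _)))
  have q6 := hq.trans_le ((min_le_right _ _).trans ((min_le_right _ _).trans
    (min_le_right _ _)))
  rw [lt_div_iff₀ hKK] at q2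
  rw [lt_div_iff₀ hKK3] at q5
  rw [lt_div_iff₀ hKR] at q3
  rw [lt_div_iff₀ hb8] at q4
  have hq0 := Ra.q0
  have h9 : 0 < K' * q := mul_pos hK'p hq0
  have h10 : 0 < K₀ * q := mul_pos hK₀ hq0
  have hnear := Ra.near
  have hwd : ∀ k < Na, |t + Va k * q - g| ≤ (K' + K₀) * q := by
    intro k hk
    have h1 : |Va k * q| ≤ K' * q := by
      rw [abs_mul, abs_of_pos hq0]
      exact mul_le_mul_of_nonneg_right (hVaA k hk) hq0.le
    calc |t + Va k * q - g| = |(t - g) + Va k * q| := by congr 1; ring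
      _ ≤ |t - g| + |Va k * q| := abs_add_le _ _
      _ ≤ K₀ * q + K' * q := add_le_add hnear h1
      _ = (K' + K₀) * q := by ring
  have hmw : ∀ k < Na, μ ≤ L (r + 1) (t + Va k * q) (t + Va k * q) ∧
      μ ≤ L r (t + Va k * q) (t + Va k * q) ∧ L r (t + Va k * q) (t + Va k * q) + μ ≤ 1 ∧
      i₀.2.1 + L (r + 1) (t + Va k * q) (t + Va k * q) + μ ≤ 1 ∧
      i₀.2.2.2 + μ ≤ L (r + 1) (t + Va k * q) (t + Va k * q) ∧
      L (r + 1) (t + Va k * q) (t + Va k * q) + L r (t + Va k * q) (t + Va k * q) + μ ≤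
        1 + i₀.2.2.2 := by
    intro k hk
    obtain ⟨b1, b2, b3, b4, b5, b6⟩ := hmar (t + Va k * q) ((hwd k hk).trans (by
      linarith only [q2]))
    exact ⟨by linarith only [hμa, b1], by linarith only [hμa, b2], by linarith only [hμa, b3],
      by linarith only [hμa, b4], by linarith only [hμa, b5], by linarith only [hμa, b6]⟩
  have hqX : X / 4 * q ≤ μ := by
    have h1 : X / 4 * q ≤ 1 * q := mul_le_mul_of_nonneg_right (by linarith only [hXc', hX0]) hq0.le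
    linarith only [h1, q6]
  have hXq0 : 0 < X / 4 * q := by positivity
  have htG : t ∈ G := by
    have h1 := Ra.memG.2 j hj
    rwa [hVj, zero_mul, add_zero] at h1
  have hGw : ∀ k ≤ r, t + jfV r (-b) Xc k * q ∈ G := fun k hk => by
    obtain ⟨k', hk', e1⟩ := hwin k hk
    have h1 := Ra.memG.2 k' hk'
    rwa [e1] at h1
  -- the labels of the chain
  obtain ⟨S₁, hs₁, R₁, hlab⟩ := hlbf Ra hK'p hVaA (le_refl (3 * K' * q)) (fun k hk => by
      obtain ⟨rd, -, h2⟩ := hch _ (Ra.memG.2 k hk)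
      exact ⟨rd, h2⟩) (fun k hk => by
      obtain ⟨rk, E, h1, h2, h3, h4, h5⟩ := hat _ (Ra.memG.2 k hk) ((hwd k hk).trans (by
        linarith only [q5, h9]))
      refine ⟨rk, E, h3, ?_, fun e he => ?_⟩
      · show E + L (r + 2 - 1) _ _ + 3 * K' * q ≤ 1
        linarith only [h4, h10, q5]
      · exact h5 e he)
  -- the natural labels
  have hs1' : SubC S₁ S := fun τ J F A h => hs₁ τ J F A h
  have hat' : ∀ k ≥ k₂, AltAt S₁ ((range (r + 1)).image c) ((range r).image c) (c (r + 1))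
      i₀.1.2.2 i₀.2.1 i₀.2.2.1 i₀.2.2.2 (fun w => L (r + 1) w w) g φ₁ e₁ k := by
    intro k hk
    have h4 := hrt k hk
    rw [a1, a2] at h4
    exact h4.sub hs1'
  obtain ⟨S₂', hs₂, R₂, Ψ, w, p₁, p₂, eN, uN, pN, pa₁, pa₂, ea, ua, pa, H⟩ := halo hh hhh hhl1 R₁
    hbd (hKb.trans hK') hεb hVaA (fun k hk => by
      obtain ⟨rd, -, h2⟩ := hch _ (R₁.memG.2 k hk)
      exact ⟨rd, h2.sub hs1'⟩) (μ := μ) (fun k hk => by
      obtain ⟨rk, E, c1, c2, c3, c4, c5⟩ := hat _ (R₁.memG.2 k hk) ((hwd k hk).trans (by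
        linarith only [q5, h9]))
      exact ⟨E, rk, c3, by
        have c4' : E + L (r + 1) (t + Va k * q) (t + Va k * q) ≤ 1 - (1 / 2) ^ k₀' := c4
        linarith only [c4', hμb], (hmw k hk).2.2.1, c5.sub hs1'⟩) (x := g) (e₀ := i₀.2.1)
    (ρ₀ := i₀.2.2.1) (π₀ := i₀.2.2.2) (φ := φ₁) (e := e₁) (Kf := i₀.1.2.2) (k₁ := k₂) hnear
    (hiD.trans hDb4) he₁ le_rfl (hφ11.trans hβ) hat' (by linarith only [q3])
    (by exact_mod_cast a4) (by exact_mod_cast a3) hμ0 (by linarith only [q4]) (i := i)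
    (j := j) hi hj (by
      rw [hVi, abs_neg, abs_of_pos hbp]
      linarith only [hR1]) (by
      rw [hVj, abs_zero]
      linarith only [hR0]) (by
      rw [hVi, hVj, hlame]
      linarith only []) (by
      rw [hVi]
      linarith only [hR2, hby]) (hmw i hi).1 (by
      have h1 := (hmw j hj).2.2.2.1
      linarith only [h1])
    (by
      have h1 := (hmw i hi).2.2.2.2.1
      linarith only [h1, hμ0]) (by
      have h1 := (hmw i hi).2.2.2.2.2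
      linarith only [h1, hμ0])
    (by
      have h1 := (hmw j hj).2.2.2.2.2
      linarith only [h1, hμ0])
  have hs3 : SubC S₂' S := fun τ J F A h => hs1' τ J F A (hs₂ τ J F A h)
  -- the velocity
  obtain ⟨E, rd, hE, hlb⟩ := hlab i hi
  have hCG : ChG S₂' c (r + 1) (fun l x => L l x x) G := ⟨fun w hw => by
    obtain ⟨rd, c1, c2⟩ := hch w hw
    exact ⟨_, rd, c1, c2.sub hs3⟩⟩
  rw [hVi] at hE hlb
  have Kn : VbK r b b δN C C' δ lam φ Xc dt X kf hh k₁ a ε :=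
    { s1 := hs1
      y1 := le_rfl
      l0 := hlp
      ls := hlam
      φ0 := hφ0
      φ1 := hφ1
      φN := hφN
      φX := by
        rw [hXc]
        linarith only [hbp, hlp]
      sX := by
        rw [hXc]
        linarith only [hrφ, hφ0, hlp]
      lX := by
        rw [hXc]
        linarith only [hrφ, hφ0, hlp, hbp, hdtφ]
      X30 := h3X
      kX := hkf1
      ks := hkf2
      dt0 := hdt0
      dtN := hdtN
      dtφ := hdtφ
      C1 := hC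
      C'1 := hC'
      δ0 := hδ
      X0 := hX0
      X2 := hXc'
      Xδ := hXδ
      h0 := hhh
      hφ := hhl2.trans (min_le_left _ _)
      h4 := hhl2.trans ((min_le_right _ _).trans (min_le_left _ _))
      hC := hhC
      hX := hhX
      kk := hk1
      ka := hk2
      ε0 := hε
      εφ := by linarith only [hεa]
      εX := by linarith only [hεd] }
  obtain ⟨Θ, t1, t2, t3, t4⟩ := Hv R₂ hκ hbd Kn (hKa.trans hK') hCG htG hGw
    (fun l hl => hE l (by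
      show l ≤ r + 2 - 1
      omega))
    (fun e he => by
      refine (Bas.mono 0 (hlb e he) ?_).sub hs₂
      rintro J - F A ⟨V, z, z', g, hg⟩
      exact ⟨V, z, z', g, fun l _ hl => hg l (by omega)⟩) hμ0 hVi hVj H
    (D := D) (Dr := Dr) (by
      have hm : max D (Db * max 1 Db) = Db * max 1 Db :=
        max_eq_right (hDb1.trans (Nat.le_mul_of_pos_right _ (by simp)))
      rw [hm]
      exact hDr)
  have hDK : Db * max 1 Db ≤ Dr :=
    ((Nat.le_succ _).trans (Nat.le_mul_of_pos_right _ (by simp))).trans hDr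
  have hDbK : D ≤ Db * max 1 Db := hDb1.trans (Nat.le_mul_of_pos_right _ (by simp))
  refine ⟨S₂', Θ, Ψ, w, p₁, p₂, eN, uN, pN, pa₁, pa₂, ea, ua, pa, R₂.ne, hs3, R₂, hmw, hqX, H, t1,
    by rw [hVi]; exact t2, t3, fun {N₁ N₂ y vw Rg} hN2 => ⟨?_, fun κ' qf Pq hκ' hκ1 hPq hqf => by
      rw [hVi]
      exact t4 κ' qf Pq hκ' hκ1 hPq hqf⟩⟩
  -- the slopes
  have hbl : ∀ k, k = j ∨ k = j' →
      BlB S₂' c r (c (r + 1)) (t + Va i * q) (t + Va k * q) D D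
        (L (r + 1) (t + Va k * q) (t + Va k * q) - 2 * (hh * q))
        (L r (t + Va k * q) (t + Va k * q) - 2 * (hh * q))
        (L r (t + Va k * q) (t + Va k * q) - L (r + 1) (t + Va k * q) (t + Va k * q) +
          X / 4 * q) (Fm2.lab Θ) := by
    intro k hk
    have hk4 : k < Na := by
      rcases hk with rfl | rfl
      · exact hj
      · exact hj'
    have hVk : 0 ≤ Va k ∧ Va k ≤ 1 := by
      rcases hk with rfl | rfl
      · rw [hVj]
        exact ⟨le_rfl, by norm_num⟩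
      · rw [hVj']
        exact ⟨by norm_num, le_rfl⟩
    obtain ⟨b1, b2, b3, b4, b5, b6⟩ := hmw k hk4
    have h1 := H.blb k hk4 (by rw [hVi]; linarith only [hVk.1]) (abs_le.2
      ⟨by linarith only [hVk.1, hR0], by linarith only [hVk.2, hR1, hbp]⟩)
      (by linarith only [hVk.2, hR1]) hqX (by linarith only [b2, hqX]) (by
        linarith only [b4, hμ0]) (by linarith only [b6, hqX])
    have h2 := BlB.deg hDb1 hDb1 h1
    exact blb_imp' h2 (Ψ' := Fm2.lab Θ) (fun J F A V z z' G hG => by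
      obtain ⟨C', G₁, cc, h⟩ := hG
      rw [hVi]
      exact t2 J F A V C' z z' G₁ G cc h)
  have hwv : t + Va i * q ≤ t := by
    rw [hVi]
    have := mul_pos hbp hq0
    linarith only [this]
  have := slN_recU (Θ := Θ) (k₁ := k₁) (vw := vw) (y := y) (a := a) (Eb' := Eb (r + 1))
    (ε' := 3 * ε * q) (Rg := Rg) (N₁ := N₁) (Dw := Dw) (w := t + Va i * q)
    (Dr := Dr) (Kd := Db * max 1 Db) R₂ hN2 hDw2
    (hDbK.trans hDK) hDK (by rw [hbd]; linarith only [hs1])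
    (by linarith only [hKb, hK', hR0]) hhh hC hlog hε.le (by linarith only [hεc]) hwv
    (fun J F A V C z z' G₁ G₂ cc hG => by
      have h0 : NzF Ψ c r (c (r + 1)) Db Db Db w (t + Va i * q) p₁ p₂ eN uN pN J F A V z z' G₂ := by
        rw [hVi]
        exact t2 J F A V C z z' G₁ G₂ cc hG
      have h1 := h0.lb
      exact ⟨fun y => by
        have := h1.deg y
        rwa [max_self] at this, h1.dep, h1.cls⟩) t1 (fun v hv => by
      rcases hv with rfl | rfl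
      · have := hbl j (Or.inl rfl)
        rwa [hVj] at this
      · have := hbl j' (Or.inr rfl)
        rwa [hVj'] at this) le_rfl (Bas.mono 0 t3 fun J _ F A hA => by
      obtain ⟨V, C', z, z', G₁, G₂, cc, h⟩ := hA
      exact ⟨A, fun _ h => h, by rw [one_mul], V, C', z, z', G₁, G₂, cc, h⟩)
  rw [hbd] at this
  exact this

end Pool.STB65
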