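import Pool.Agent.H92.ALT.Sl2
import Pool.Agent.H73.D2.Tmy

/-!
# The slope hypothesis at the scale of a record, a static target

`slN_rs`: `SlH` of the end for `N - P(p, u)`, `u` thin, `N` static, from `BlB` at the windows `t`,
`t + q`, `t + y q`, with the numbers of the record.
-/

set_option autoImplicit false

namespace Pool.STB65

open Finset Real MvPolynomial
open Pool.Agent.H49.Ent Pool.Agent.H32.Dense Pool.STK Pool.KA Pool.KSAT Pool.K2S Pool.PB Pool.S6C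
  Pool.GEN Pool.RCD Pool.LA91 Pool.OWN68 Pool.PKG Pool.ALT
open Pool.CHT Pool.CHX Pool.ISO Pool.D2R Pool.D2G30 Pool.V1E Pool.CR99
open Pool.PN18 (Fm2)

/-- **The slope hypothesis at the scale of a record**, the target is static. -/
theorem slN_rs {r : ℕ} {S : PCl (r + 2)} {al : ℝ} {g₀ : ℝ → ℝ}
    {P : List (Fin (r + 2)) × Fin (r + 2) → ℝ → ℝ → ℝ} {θ : ℝ}
    {P₂ : ℕ → List (Fin (r + 2)) × Fin (r + 2) → ℝ → ℝ → ℝ} {θ₂ Eb e₂ : ℕ → ℝ}
    {c : ℕ → Fin (r + 2)} {Pt : ℝ → ℝ → ℝ} {rt : ℝ → ℝ} {h K₀ g : ℝ} {L T : ℕ → ℝ → ℝ → ℝ}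
    {Sl : ℕ → ℝ} {κ : ℕ → Kg} {G : Set ℝ} {S₀ N : ℕ} {A V : ℕ → ℝ} {S₂ N' : ℕ} {V' : ℕ → ℝ}
    {K ε q t : ℝ}
    (R : RecG S al g₀ P θ P₂ θ₂ Eb e₂ c Pt rt h K₀ g L T Sl κ G S₀ N A V S₂ N' V' K ε q t)
    (hκu : κ r = .thin) (hκt : κ (r + 1) = .sta) {y a k₁ X hh C : ℝ} {vw : ℕ → ℝ}
    {D Dw Dr N₁ N₂ Kd : ℕ} (hN1 : 1 ≤ N₁) (hN2 : 3 ≤ N₂) (hKw : Kd ≤ Dw) (hDr : D ≤ Dr)
    (hKr : Kd ≤ Dr) (hy : 3 / 2 ≤ y) (hya : y + 1 / 2 ≤ a) (hsa : Sl (r + 1) + 1 ≤ a)
    (hys : Sl (r + 1) - 1 ≤ y * (Sl (r + 1) - Sl r))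
    (has : Sl (r + 1) - 1 + (Sl r - 1) * y ≤ a)
    (haK : a ≤ K) (hhh : 0 < hh) (hC : 1 ≤ C) (hCX : 10 * (C * hh) < X) (hX1 : X ≤ 1)
    (hε : 0 ≤ ε) (hεX : 16 * ε ≤ X) {w : ℝ} (hwt : w ≤ t) {Θ : Fm2 (r + 2)}
    (hΘd : ∀ (J : ℕ) (F : Fam (r + 2) J) (A : F.Ω → Prop) (V C : Type) (z : PtT F → V)
      (z' : LnT F → V) (G₁ G₂ : V → MvPolynomial (Option (Fin (r + 2))) ℝ) (cc : LnT F → C),
      Θ J F A V C z z' G₁ G₂ cc →
      (∀ y, (G₂ y).totalDegree ≤ Kd) ∧ (∀ y, DpI ((range (r + 1)).image c) (G₂ y)) ∧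
      ∀ ω, A ω → z (ptr F J ω) = z' (slam F ⌊w * J⌋₊ ω))
    (hΘs : ∀ (J : ℕ) (F : Fam (r + 2) J) (A B : F.Ω → Prop) (V C : Type) (z : PtT F → V)
      (z' : LnT F → V) (G₁ G₂ : V → MvPolynomial (Option (Fin (r + 2))) ℝ) (cc : LnT F → C),
      Sub B A → Θ J F A V C z z' G₁ G₂ cc → Θ J F B V C z z' G₁ G₂ cc)
    (hB : ∀ v : ℝ, v = 0 ∨ v = 1 ∨ v = y → BlB S c r (c (r + 1)) w (t + v * q) D D
      (L (r + 1) (t + v * q) (t + v * q) - 2 * (hh * q)) (L r (t + v * q) (t + v * q) -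
        2 * (hh * q)) (L r (t + v * q) (t + v * q) - L (r + 1) (t + v * q) (t + v * q) +
        X / 4 * q) (Fm2.lab Θ))
    {K₄ : ℝ} (hK₄ : 1 ≤ K₄) (hex : Bas S (fun J F A => ∃ A₁ : F.Ω → Prop, Sub A₁ A ∧
      Pe F.p A ≤ K₄ * Pe F.p A₁ ∧ ∃ (V C : Type) (z : PtT F → V) (z' : LnT F → V)
        (G₁ G₂ : V → MvPolynomial (Option (Fin (r + 2))) ℝ) (cc : LnT F → C),
        Θ J F A₁ V C z z' G₁ G₂ cc)) :
    SlH S c r D Dw Dr N₁ N₂ (fun l => κ l = .one ∨ κ l = .thin) C (t + a * q)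
      (Eb (r + 1)) (3 * ε * q) (hh * q) (X * q) (Sl (r + 1) * q) (L (r + 1))
      (fun k => t + vG y k₁ vw k * q)
      (fun k l => lvN P c (r + 1) (L (r + 1)) l (t + vG y k₁ vw k * q) (t + vG y k₁ vw k * q))
      (fun k l => bet P c l (t + a * q) (t + vG y k₁ vw k * q)) (1 / (4 * K₄)) (8 * K₄)
      (XiF Θ w) := by
  have hkd := R.kd (r + 1) (by omega)
  rw [hκt] at hkd
  obtain ⟨s, hs⟩ : ∃ s, s = Sl (r + 1) := ⟨_, rfl⟩
  obtain ⟨su, hsu⟩ : ∃ su, su = Sl r := ⟨_, rfl⟩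
  rw [← hs, ← hsu] at hys has
  rw [← hs] at hsa ⊢
  have hs2 : 2 ≤ s := by
    rw [hs]
    exact hkd.1
  have hsu1 : 1 < su := by
    have h1 := R.kd r (by omega)
    rw [hκu] at h1
    rw [hsu]
    exact h1.1
  have hq := R.q0
  have hlv : ∀ l ≤ r + 1, ∀ a w : ℝ, lvN P c (r + 1) (L (r + 1)) l a w = L l a w :=
    fun l hl a w => by rw [← R.lv_at (by omega : r + 1 < r + 2) hl]
  have ht0 := R.t0
  have ht1 := R.t1
  have hKq : a * q ≤ K * q := mul_le_mul_of_nonneg_right haK hq.le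
  have hyq : 3 / 2 * q ≤ y * q := mul_le_mul_of_nonneg_right hy hq.le
  have hyaq : y * q + q / 2 ≤ a * q := by
    have := mul_le_mul_of_nonneg_right hya hq.le
    linarith
  have hsaq : s * q + q ≤ a * q := by
    have := mul_le_mul_of_nonneg_right hsa hq.le
    linarith
  have hs2q : 2 * q ≤ s * q := mul_le_mul_of_nonneg_right hs2 hq.le
  have hysq : s * q - q ≤ s * (y * q) - su * (y * q) := by
    have := mul_le_mul_of_nonneg_right hys hq.le
    have e1 : y * (s - su) * q = s * (y * q) - su * (y * q) := by ring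
    rw [e1] at this
    linarith
  have hasq : s * q - q + su * (y * q) - y * q ≤ a * q := by
    have := mul_le_mul_of_nonneg_right has hq.le
    have e1 : (s - 1 + (su - 1) * y) * q = s * q - q + su * (y * q) - y * q := by ring
    rw [e1] at this
    exact this
  have hsyq : s * q - q ≤ s * (y * q) - y * q := by
    have h1 : 0 ≤ (s - 1) * (y - 1) * q :=
      mul_nonneg (mul_nonneg (by linarith) (by linarith)) hq.le
    nlinarith
  have hεq : 0 ≤ ε * q := mul_nonneg hε hq.le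
  have hhq : 0 < hh * q := mul_pos hhh hq
  have hCq : 10 * (C * (hh * q)) < X * q := by
    have := mul_lt_mul_of_pos_right hCX hq
    linarith
  have hCq1 : hh * q ≤ C * (hh * q) := le_mul_of_one_le_left hhq.le hC
  have hεXq : 16 * (ε * q) ≤ X * q := by
    have := mul_le_mul_of_nonneg_right hεX hq.le
    linarith
  have hXq1 : X * q ≤ q := by
    have := mul_le_mul_of_nonneg_right hX1 hq.le
    linarith
  -- the levels
  have htt : |t - t| ≤ K * q := by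
    rw [sub_self, abs_zero]
    linarith
  have hx1 : |t + 1 * q - t| ≤ K * q := by
    rw [add_sub_cancel_left, one_mul, abs_of_pos hq]
    linarith
  have hxy : |t + y * q - t| ≤ K * q := by
    rw [add_sub_cancel_left, abs_of_pos (by linarith)]
    linarith
  have e1 : t + 1 * q - t = q := by ring
  have ey : t + y * q - t = y * q := by ring
  have u1 := abs_le.1 (R.dL r (by omega) _ hx1)
  have uy := abs_le.1 (R.dL r (by omega) _ hxy)
  have n1 := abs_le.1 (R.dL (r + 1) (by omega) _ hx1)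
  have ny := abs_le.1 (R.dL (r + 1) (by omega) _ hxy)
  rw [e1, ← hsu] at u1
  rw [ey, ← hsu] at uy
  rw [e1, ← hs] at n1
  rw [ey, ← hs] at ny
  obtain ⟨u1a, u1b⟩ := u1
  obtain ⟨uya, uyb⟩ := uy
  obtain ⟨n1a, n1b⟩ := n1
  obtain ⟨nya, nyb⟩ := ny
  simp only [one_mul] at u1a u1b n1a n1b
  -- the growth
  have hgr : L (r + 1) t t + 2 * (a * q) - 2 * (ε * q) ≤ L (r + 1) (t + a * q) t := by
    have h1 := hkd.2 (t + a * q) t (by linarith) (by linarith) (by linarith)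
    have h2 := (abs_le.1 (R.dL (r + 1) (by omega) (t + a * q) (by
      rw [add_sub_cancel_left, abs_of_pos (by linarith)]
      exact hKq))).1
    rw [add_sub_cancel_left, ← hs] at h2
    have h3 : 2 * (a * q) ≤ s * (a * q) := mul_le_mul_of_nonneg_right hs2 (by linarith)
    linarith
  have hLt : t ≤ L (r + 1) t t := R.low_at (by omega) (by linarith) le_rfl (by linarith)
  have hLtr : t ≤ L r t t := R.low_at (by omega) (by linarith) le_rfl (by linarith)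
  have v0 : vG y k₁ vw 0 = 0 := by norm_num [vG]
  have v1 : vG y k₁ vw 1 = y := by norm_num [vG]
  have v3 : vG y k₁ vw 3 = 1 := by norm_num [vG]
  have hgen := hB
  obtain ⟨B, hB⟩ : ∃ B : ℝ, B = min (2 * (a * q)) (s * (y * q) + a * q - y * q) := ⟨_, rfl⟩
  have hB1 : B ≤ 2 * (a * q) := by rw [hB]; exact min_le_left _ _
  have hB2 : B ≤ s * (y * q) + a * q - y * q := by rw [hB]; exact min_le_right _ _
  have hB3 : 3 * q ≤ B := by
    rw [hB]
    exact le_min (by linarith) (by linarith)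
  have hB4 : su * (y * q) + a * q - y * q + (s * q - q) ≤ B := by
    rw [hB]
    exact le_min (by linarith) (by linarith)
  refine slh_nz (w := w) (Θ := Θ) (Kd := Kd)
    (p := fun k => lvN P c (r + 1) (L (r + 1)) (r + 1) (t + vG y k₁ vw k * q)
      (t + vG y k₁ vw k * q) - 2 * (hh * q))
    (q := fun k => lvN P c (r + 1) (L (r + 1)) r (t + vG y k₁ vw k * q)
      (t + vG y k₁ vw k * q) - 2 * (hh * q))
    (x := fun k => lvN P c (r + 1) (L (r + 1)) r (t + vG y k₁ vw k * q)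
      (t + vG y k₁ vw k * q) - lvN P c (r + 1) (L (r + 1)) (r + 1) (t + vG y k₁ vw k * q)
      (t + vG y k₁ vw k * q) + X / 4 * q)
    (qr := L (r + 1) t t + B - 4 * (C * (hh * q)) - 4 * (ε * q))
    (gm := L r (t + y * q) (t + y * q) + (a * q - y * q)) R.pos (R.inj.mono fun x hx => ?_)
    hN1 hN2 hKw hDr hKr ?_ ?_ ?_ ?_ ?_ hhq ?_ ?_ ?_ ?_ ?_ ?_ ?_ hΘd hΘs ?_ ?_ ?_ ?_ ?_ ?_ ?_ ?_ ?_
    ?_ ?_ ?_ ?_ ?_ hK₄ hex
  · rw [Set.mem_Iio] at hx ⊢
    omega
  all_goals try simp only [v0, v1, v3, hlv _ le_rfl, hlv r (by omega), zero_mul, add_zero, one_mul]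
  · exact hwt
  · linarith
  · linarith
  · linarith
  · linarith
  · linarith
  · linarith
  · linarith
  · linarith
  · positivity
  · linarith
  · linarith
  · have := hgen 0 (Or.inl rfl)
    simpa only [zero_mul, add_zero] using this
  · exact hgen y (Or.inr (Or.inr rfl))
  · have := hgen 1 (Or.inr (Or.inl rfl))
    simpa only [one_mul] using this
  · intro k
    linarith
  · intro k
    linarith
  · linarith
  · linarith
  · linarith
  · linarith
  · linarith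
  · linarith
  · intro _
    linarith
  · intro hR
    exact absurd (Or.inr hκu) hR
  · linarith

end Pool.STB65
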