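import Pool.Agent.H65.VS.Vni

/-!
# The static end at a record

`SteP`: at a record with natural labels of a family of small rate there is no label of the static end.
`ste_ni`: the slope of the static target is no integer.
-/

set_option autoImplicit false

namespace Pool.STB65

open Finset Real MvPolynomial
open Pool.Agent.H49.Ent Pool.Agent.H32.Dense Pool.STK Pool.KA Pool.KSAT Pool.K2S Pool.PB Pool.S6C
  Pool.GEN Pool.RCD Pool.LA91 Pool.OWN68 Pool.PKG Pool.ALT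
open Pool.CHT Pool.CHX Pool.ISO Pool.D2R Pool.D2G30 Pool.V1E Pool.CR99 Pool.GRW
open Pool.GRD (LbP)
open Pool.PN18 (Fm2)
open Pool.STB82 (nodF_rec nodF_pair)
open Pool.STB77 (NodF nni3_rec' recG_low)
open Pool.STV90 (BlR RwE mxs_row L3m l3m_three l3m_ne nodF_low)
open Pool.V0F (ChUQ AttUQ)

/-- **The static end at a record** with the output `AlO` of the alternative (rate `(1 - h₀) σ log 2`,
`σ` the slope of the static target), at the window `t - y₁ q`: no label of the static end. `ar q`: the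
radius of its row, `del q`: the loss of its precision. -/
def SteP (h₀ σ : ℝ) : Prop :=
  ∃ ar del : ℝ, 1 < ar ∧ ar ≤ 2 ∧ 0 < del ∧ ∀ S₀ S₂ Db Dw : ℕ, 1 ≤ S₀ → S₀ ≤ S₂ → 1 ≤ Db →
  ∃ X₀ dt₁ : ℝ, 0 < X₀ ∧ 0 < dt₁ ∧ ∀ K₀ y₁ lx : ℝ, 0 < K₀ → σ ≤ y₁ → 0 < lx →
  ∃ (K₂ : ℝ) (Nw : ℕ) (Vw : ℕ → ℝ) (ε₁ : ℝ), 3 ≤ K₂ ∧ (∀ k < Nw, 0 ≤ Vw k ∧ Vw k ≤ 2) ∧ 0 < ε₁ ∧
  ∀ {S S' : PCl 4} {al : ℝ} {g₀ : ℝ → ℝ} {P : List (Fin 4) × Fin 4 → ℝ → ℝ → ℝ}
    {θ : ℝ} {P₂ : ℕ → List (Fin 4) × Fin 4 → ℝ → ℝ → ℝ} {θ₂ Eb e₂ : ℕ → ℝ}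
    {c : ℕ → Fin 4} {Pt : ℝ → ℝ → ℝ} {rt : ℝ → ℝ} {h g : ℝ} {L T : ℕ → ℝ → ℝ → ℝ}
    {Sl : ℕ → ℝ} {κ : ℕ → Kg} {G : Set ℝ} {N : ℕ} {A V : ℕ → ℝ} {Na : ℕ} {Va : ℕ → ℝ}
    {K' ε q t : ℝ} {k₀ : ℕ}, κ 0 = .one → κ 1 = .one → κ 3 = .sta → Sl 3 = σ → K₂ ≤ K' → 0 < ε →
    ε ≤ ε₁ → SubC S' S → ChUQ (n := 4) () k₀ S P θ c Pt rt L T κ G g →
    RecG S' al g₀ P θ P₂ θ₂ Eb e₂ c Pt rt h K₀ g L T Sl κ G S₀ N A V S₂ Na Va K' ε q t →
    (∃ j < N, A j = ar ∧ V j = 0) → (∀ k < Nw, ∃ j < Na, Va j = Vw k) →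
    ∀ {i j : ℕ} {R dt rr ℓ g₂ X hh μ e₀ π₀ : ℝ} {Ψ : Fml 4}
      {w p₁ p₂ eN uN pN pa₁ pa₂ ea ua pa : ℝ} {Θ : Fm2 4}, Va i = -y₁ → y₁ + 3 ≤ R →
    g₂ ≤ y₁ → σ * y₁ + σ + 3 ≤ rr → 0 < dt → dt ≤ dt₁ → dt * lx ≤ dt₁ → 0 < X → X ≤ X₀ →
    0 < hh → 8 * hh ≤ X → 0 < μ → X / 4 * q ≤ μ →
    (∀ k < Na, μ ≤ L 3 (t + Va k * q) (t + Va k * q) ∧
        μ ≤ L 2 (t + Va k * q) (t + Va k * q) ∧
        e₀ + L 3 (t + Va k * q) (t + Va k * q) + μ ≤ 1 ∧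
        L 3 (t + Va k * q) (t + Va k * q) + L 2 (t + Va k * q) (t + Va k * q) + μ ≤ 1 + π₀) →
    AlO (r₀ := 2) S' c L Db Na Va i j R h₀ dt lx rr ℓ g₂ (X / 4) hh μ e₀ π₀ q t Ψ w p₁ p₂ eN uN pN
      pa₁ pa₂ ea ua pa →
    (∀ (J : ℕ) (F : Fam 4 J) (A B : F.Ω → Prop) (V C : Type) (z : PtT F → V)
        (z' : LnT F → V) (G₁ G₂ : V → MvPolynomial (Option (Fin 4)) ℝ) (cc : LnT F → C),
        Sub B A → Θ J F A V C z z' G₁ G₂ cc → Θ J F B V C z z' G₁ G₂ cc) →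
    (∀ (J : ℕ) (F : Fam 4 J) (A : F.Ω → Prop) (V C : Type) (z : PtT F → V)
        (z' : LnT F → V) (G₁ G₂ : V → MvPolynomial (Option (Fin 4)) ℝ) (cc : LnT F → C),
        Θ J F A V C z z' G₁ G₂ cc →
        NzF Ψ c 2 (c 3) Db Db Db w (t + Va i * q) p₁ p₂ eN uN pN J F A V z z' G₂) →
    ∀ K₅ : ℝ, 0 ≤ K₅ → ¬ StR S' c 2 Dw Sl L Eb ar del q t K₅ (XiF Θ (t + Va i * q))

set_option maxHeartbeats 4000000 in
/-- **The static end at a record**, the slope of the static target is no integer. -/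
theorem ste_ni {h₀ σ : ℝ} (hni : ∀ b : ℕ, σ ≠ b) (hσ2 : 2 ≤ σ) : SteP h₀ σ := by
  classical
  have hσ0 : 0 < σ := by linarith
  obtain ⟨b, hb⟩ : ∃ b, b = ⌊σ⌋₊ := ⟨_, rfl⟩
  have hb1 : (b : ℝ) ≤ σ := by
    rw [hb]
    exact Nat.floor_le (by linarith)
  have hb2 : σ < b + 1 := by
    rw [hb]
    exact Nat.lt_floor_add_one σ
  have hbne : (b : ℝ) < σ := lt_of_le_of_ne hb1 fun h => hni b (by rw [h])
  have hb2' : 2 ≤ b := by
    rw [hb]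
    exact Nat.le_floor (by exact_mod_cast hσ2)
  obtain ⟨lam, hlam⟩ : ∃ lam : ℝ, lam = min (σ - b) (b + 1 - σ) / 8 := ⟨_, rfl⟩
  have hlam0 : 0 < lam := by
    rw [hlam]
    exact div_pos (lt_min (by linarith) (by linarith)) (by norm_num)
  have hlam1 : 8 * lam ≤ σ - b := by
    rw [hlam]
    linarith [min_le_left (σ - b) (b + 1 - σ)]
  have hlam2 : 8 * lam ≤ b + 1 - σ := by
    rw [hlam]
    linarith [min_le_right (σ - b) (b + 1 - σ)]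
  have hlam16 : 16 * lam ≤ 1 := by linarith
  -- the radius
  obtain ⟨ex, hex⟩ : ∃ ex : ℝ, ex = lam / (8 * σ) := ⟨_, rfl⟩
  have hex0 : 0 < ex := by rw [hex]; positivity
  have hσex : σ * ex = lam / 8 := by rw [hex]; field_simp
  have hex1 : ex ≤ 1 := by
    have : 1 * ex ≤ σ * ex := mul_le_mul_of_nonneg_right (by linarith) hex0.le
    linarith
  obtain ⟨ar, har⟩ : ∃ ar : ℝ, ar = 1 + ex := ⟨_, rfl⟩
  have har1 : 1 < ar := by linarith
  have har2 : ar ≤ 2 := by linarith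
  obtain ⟨kq, hkq⟩ : ∃ kq : ℝ, kq = ar / 2 := ⟨_, rfl⟩
  have hkq0 : 0 < kq := by linarith
  have hkq1 : kq ≤ 1 := by linarith
  have hkq2 : 1 ≤ 2 * kq := by linarith
  refine ⟨ar, lam / 8, har1, har2, by positivity, fun S₀ S₂ Db Dw hS₀ hS₂ hDb0 => ?_⟩
  have hDbK : Db ≤ Db * max 1 Db := Nat.le_mul_of_pos_right _ (by simp)
  -- the degrees
  obtain ⟨D₂, hD₂, nodB⟩ := nodF_pair 3 S₂ (by norm_num) (hS₀.trans hS₂)
  obtain ⟨D₃, hD₃, nodA⟩ := nodF_rec 3 S₀ (by norm_num) hS₀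
  obtain ⟨Dn, hDn⟩ : ∃ Dn : ℕ, Dn = Db * max 1 Db + D₂ + D₃ + dSt 2 Dw := ⟨_, rfl⟩
  have hDn1 : 1 ≤ Dn := by omega
  obtain ⟨C₀, D', ϰ, hDD', hϰ0, hϰ1, hnn⟩ := nni3_rec' 4 Dn b hDn1 hb2' hbne hb2
  obtain ⟨Cm, hmx⟩ := mxs_row Dn (dSt 2 Dw) hDn1
  have hC₀ : (0 : ℝ) ≤ C₀ := Nat.cast_nonneg _
  have hCm : (0 : ℝ) ≤ Cm := Nat.cast_nonneg _
  obtain ⟨ς, hς⟩ : ∃ ς : ℝ, ς = ϰ / (2 * (Cm + 1)) := ⟨_, rfl⟩
  have hς0 : 0 < ς := by rw [hς]; positivity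
  have hςC : 2 * ((Cm + 1) * ς) = ϰ := by rw [hς]; field_simp
  have hςϰ : ς ≤ ϰ := by
    have : 1 * ς ≤ ((Cm : ℝ) + 1) * ς := mul_le_mul_of_nonneg_right (by linarith) hς0.le
    linarith
  refine ⟨lam, 1, hlam0, one_pos, fun K₀ y₁ lx hK₀ hy₁ hlx => ?_⟩
  have hy₁0 : 0 < y₁ := by linarith
  -- the balls
  obtain ⟨nk, hnk⟩ := exists_nat_ge (1 / ϰ)
  obtain ⟨n, hn⟩ : ∃ n : ℕ, n = nk + 1 := ⟨_, rfl⟩
  have hn1 : (1 : ℝ) ≤ n := by rw [hn]; push_cast; linarith [(Nat.cast_nonneg nk : (0 : ℝ) ≤ nk)]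
  have hn0 : (0 : ℝ) < n := by linarith
  obtain ⟨ν, hν⟩ : ∃ ν : ℝ, ν = 1 / n := ⟨_, rfl⟩
  have hν0 : 0 < ν := by rw [hν]; positivity
  have hnν : (n : ℝ) * ν = 1 := by rw [hν]; field_simp
  have hνϰ : ν ≤ ϰ := by
    have h1 : 1 / ϰ ≤ n := by rw [hn]; push_cast; linarith
    rw [div_le_iff₀ hϰ0] at h1
    rw [hν, div_le_iff₀ hn0]
    linarith
  have hxk : ∀ k ≤ 2 * n, 0 ≤ (k : ℝ) * ν ∧ (k : ℝ) * ν ≤ 2 := fun k hk => by
    refine ⟨by positivity, ?_⟩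
    have : (k : ℝ) * ν ≤ ((2 * n : ℕ) : ℝ) * ν :=
      mul_le_mul_of_nonneg_right (by exact_mod_cast hk) hν0.le
    push_cast at this
    linarith
  obtain ⟨K₂, hK₂⟩ : ∃ K₂ : ℝ, K₂ = (σ * y₁ + lx + 2) + (3 * σ + 20) * 2 + 5 * C₀ + y₁ +
    (K₀ + 10) := ⟨_, rfl⟩
  have hσy : 0 < σ * y₁ := mul_pos hσ0 hy₁0
  refine ⟨K₂, 2 * n + 1, fun k => (k : ℝ) * ν * kq, ϰ / 16, by linarith, fun k hk => ?_,
    by positivity, ?_⟩
  · obtain ⟨h3, h4⟩ := hxk k (by omega)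
    have h5 : (k : ℝ) * ν * kq ≤ 2 * 1 := mul_le_mul h4 hkq1 hkq0.le (by norm_num)
    exact ⟨mul_nonneg h3 hkq0.le, by linarith⟩
  intro S S' al g₀ P θ P₂ θ₂ Eb e₂ c Pt rt h g L T Sl κ G N A V Na Va K' ε q t k₀ k0 k1 k3 hσ hK' hε
    hε2 hsub hch R' hpr hwn i j R dt rr ℓ g₂ X hh μ e₀ π₀ Ψ w p₁ p₂ eN uN pN pa₁ pa₂ ea ua pa Θ v0
    hRR hg₂ hrr hdt0 hdt1 hdt2 hX0 hX2 hhh hhl2 hμ hXμ hmar H hΘs hΘn K₅ hK₅ hst
  have hσ' : Sl (2 + 1) = σ := hσ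
  have hne := R'.ne
  have hq0 := R'.q0
  choose! iw hiw1 hiw2 using hwn
  -- the numbers
  obtain ⟨qc, hqc⟩ : ∃ qc : ℝ, qc = kq * q := ⟨_, rfl⟩
  have hqc0 : 0 < qc := by rw [hqc]; exact mul_pos hkq0 hq0
  have hqc1 : qc ≤ q := by rw [hqc]; exact mul_le_of_le_one_left hq0.le hkq1
  have hqc2 : q ≤ 2 * qc := by
    have := mul_le_mul_of_nonneg_right hkq2 hq0.le
    rw [hqc]
    linarith
  have hqcar : 2 * qc = ar * q := by rw [hqc, hkq]; ring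
  obtain ⟨yy, hyy⟩ : ∃ yy : ℝ, yy = L 2 (t + ar * q) t + ϰ * qc -
    (L 3 t t + 2 * σ * qc - lam * qc) := ⟨_, rfl⟩
  obtain ⟨S₁, hne₁, hsub₁, hex⟩ := st_sub hne hΘs hst (yy - 1)
  have R₁ := R'.sub hne₁ hsub₁
  have H₁ := H.sub hsub₁
  have Rr := recG_rsc hkq0 R₁
  rw [← hqc] at Rr
  have hKq : K' / kq * qc = K' * q := by rw [hqc]; field_simp
  have hεr : ε / kq * qc = ε * q := by rw [hqc]; field_simp
  have S1 : Sl 1 = 1 := by
    have := R'.kd 1 (by norm_num)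
    rw [k1] at this
    exact this
  have hK'2 : K₂ ≤ K' := hK'
  have hKq2 : K₂ * q ≤ K' * q := mul_le_mul_of_nonneg_right hK' hq0.le
  have hK₂q : K₂ * q = (σ * y₁ + lx + 2) * q + (3 * σ + 20) * (2 * q) + 5 * C₀ * q +
      y₁ * q + (K₀ + 10) * q := by rw [hK₂]; ring
  have z2 : 0 ≤ (σ * y₁ + lx + 2) * q := by positivity
  have z3 : 0 ≤ (3 * σ + 20) * (2 * q) := by positivity
  have z4 : 0 ≤ 5 * (C₀ : ℝ) * q := by positivity
  have z5 : 0 ≤ y₁ * q := by positivity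
  have z6 : 0 ≤ K₀ * q := by positivity
  have z7 : (K₀ + 10) * q = K₀ * q + 10 * q := by ring
  have ht0 := R₁.t0
  have ht1 := R₁.t1
  have hεq : 0 < ε * q := mul_pos hε hq0
  have hεq1 : 16 * (ε * q) ≤ ϰ * q := by
    have := mul_le_mul_of_nonneg_right hε2 hq0.le
    linarith
  have hϰq : 0 < ϰ * qc := mul_pos hϰ0 hqc0
  have hϰq1 : ϰ * q ≤ 2 * (ϰ * qc) := by
    have := mul_le_mul_of_nonneg_left hqc2 hϰ0.le
    linarith
  have hϰq2 : ϰ * qc ≤ qc := mul_le_of_le_one_left hqc0.le hϰ1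
  have hεq8 : 8 * (ε * q) ≤ ϰ * qc := by linarith
  have hςq : 0 < ς * qc := mul_pos hς0 hqc0
  have hςCq : 2 * ((Cm + 1) * (ς * qc)) = ϰ * qc := by
    rw [← hςC]
    ring
  have hςϰq : ς * qc ≤ ϰ * qc := mul_le_mul_of_nonneg_right hςϰ hqc0.le
  have hlq0 : 0 < lam * qc := mul_pos hlam0 hqc0
  have hlq1 : lam * q ≤ 2 * (lam * qc) := by
    have := mul_le_mul_of_nonneg_left hqc2 hlam0.le
    linarith
  have hlqq : 0 < lam * q := mul_pos hlam0 hq0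
  have hXq : X * q ≤ lam * q := mul_le_mul_of_nonneg_right hX2 hq0.le
  have hXq0 : 0 < X * q := mul_pos hX0 hq0
  have hhq0 : 0 < hh * q := mul_pos hhh hq0
  have hhq1 : 8 * (hh * q) ≤ X * q := by
    have := mul_le_mul_of_nonneg_right hhl2 hq0.le
    linarith
  have hbx : ∀ x : ℝ, t - y₁ * q ≤ x → x ≤ t + 2 * q → |x - t| ≤ K' * q := fun x h1 h2 => by
    rw [abs_le]
    constructor <;> linarith
  have h34 : (3 : ℕ) < 4 := by norm_num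
  have l3 : ∀ x : ℝ, t - y₁ * q ≤ x → x ≤ t + 2 * q →
      |L 3 x x - L 3 t t - σ * (x - t)| ≤ ε * q := fun x h1 h2 => by
    have := R₁.dL 3 h34 x (hbx x h1 h2)
    rwa [hσ] at this
  have hsta := R₁.kd 3 h34
  rw [k3] at hsta
  have hsta := hsta.2
  -- the nodes
  obtain ⟨AA, hAA⟩ : ∃ AA : ℕ → ℝ, AA = fun k => if k ≤ 2 * n then t + Va (iw k) * q else
    t + 2 * qc := ⟨_, rfl⟩
  obtain ⟨WW, hWW⟩ : ∃ WW : ℕ → ℝ, WW = fun k => if k ≤ 2 * n then t + Va (iw k) * q else t :=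
    ⟨_, rfl⟩
  have AAk : ∀ k ≤ 2 * n, AA k = t + Va (iw k) * q := fun k hk => by
    rw [hAA]; simp only [if_pos hk]
  have WWk : ∀ k ≤ 2 * n, WW k = t + Va (iw k) * q := fun k hk => by
    rw [hWW]; simp only [if_pos hk]
  have AAa : AA (2 * n + 1) = t + 2 * qc := by
    rw [hAA]
    simp only [if_neg (show ¬ (2 * n + 1 ≤ 2 * n) by omega)]
  have WWa : WW (2 * n + 1) = t := by
    rw [hWW]
    simp only [if_neg (show ¬ (2 * n + 1 ≤ 2 * n) by omega)]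
  have v6 : ∀ k ≤ 2 * n, Va (iw k) = (k : ℝ) * ν * kq := fun k hk => hiw2 k (by omega)
  have Vq : ∀ k ≤ 2 * n, Va (iw k) * q = (k : ℝ) * ν * qc := fun k hk => by
    rw [v6 k hk, hqc]; ring
  have kq' : ∀ k ≤ 2 * n, 0 ≤ (k : ℝ) * ν * qc ∧ (k : ℝ) * ν * qc ≤ 2 * qc := fun k hk =>
    ⟨mul_nonneg (hxk k hk).1 hqc0.le, mul_le_mul_of_nonneg_right (hxk k hk).2 hqc0.le⟩
  have htA : ∀ k ≤ 2 * n, t ≤ AA k ∧ AA k ≤ t + 2 * qc := fun k hk => by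
    rw [AAk k hk, Vq k hk]
    have := kq' k hk
    constructor <;> linarith
  have WA : ∀ k ≤ 2 * n, WW k = AA k := fun k hk => by rw [WWk k hk, AAk k hk]
  have AA0 : AA 0 = t := by rw [AAk 0 (Nat.zero_le _), Vq 0 (Nat.zero_le _)]; push_cast; ring
  have AA1 : AA n = t + qc := by rw [AAk n (by omega), Vq n (by omega), hnν, one_mul]
  have AAN : AA (2 * n) = t + 2 * qc := by
    rw [AAk _ le_rfl, Vq _ le_rfl]
    push_cast
    rw [mul_assoc (2 : ℝ), hnν]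
    ring
  have hkk : ∀ k < 2 * n + 2, k ≤ 2 * n ∨ k = 2 * n + 1 := fun k hk => by omega
  have hWlo : ∀ k < 2 * n + 2, t ≤ WW k := fun k hk => by
    rcases hkk k hk with h1 | h1
    · rw [WA k h1]
      exact (htA k h1).1
    · rw [h1, WWa]
  have hWA : ∀ k < 2 * n + 2, WW k ≤ AA k := fun k hk => by
    rcases hkk k hk with h1 | h1
    · rw [WA k h1]
    · rw [h1, WWa, AAa]
      linarith
  have hAhi : ∀ k < 2 * n + 2, AA k ≤ t + 2 * qc := fun k hk => by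
    rcases hkk k hk with h1 | h1
    · exact (htA k h1).2
    · rw [h1, AAa]
  obtain ⟨jr, hjr, hAr, hVr⟩ := hpr
  have hlq : 0 ≤ lam * qc := hlq0.le
  have hnod : ∀ k < 2 * n + 2, NodF S₁ c 3 Dn (L3m L (lam * qc)) (Eb 3) (Eb 3) (AA k) (WW k) :=
      fun k hk => by
    refine nodF_low ?_ hlq
    rcases hkk k hk with h1 | h1
    · rw [WA k h1, AAk k h1]
      exact (nodA R₁ h34 (iw k) (hiw1 k (by omega))).up (by omega)
    · have h2 := (nodB R₁ h34 jr hjr).1.up (show D₂ ≤ Dn by omega)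
      rw [hAr, hVr, zero_mul, add_zero] at h2
      rw [h1, WWa, AAa, hqcar]
      exact h2
  -- the labels at the balls
  have hwin : ∀ k ≤ 2 * n, _ := fun k hk => by
    obtain ⟨m1, m2, m4, m6⟩ := hmar (iw k) (hiw1 k (by omega))
    obtain ⟨m7, m8⟩ := hxk k hk
    have m9 : 0 ≤ Va (iw k) ∧ Va (iw k) ≤ 2 := by
      rw [v6 k hk]
      exact ⟨mul_nonneg m7 hkq0.le, by
        have := mul_le_mul m8 hkq1 hkq0.le (by norm_num : (0 : ℝ) ≤ 2)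
        linarith⟩
    exact alo_win (k := iw k) H₁ hΘn (hiw1 k (by omega)) (by rw [v0]; linarith) (abs_le.2 (by
      constructor <;> linarith)) (by linarith) hXμ hhq0 (by linarith) hμ m1 m2 m4 m6
  have hΘlb : ∀ (J : ℕ) (F : Fam 4 J) (A : F.Ω → Prop) (V : Type) (z : PtT F → V)
      (z' : LnT F → V) (G : V → MvPolynomial (Option (Fin 4)) ℝ), Fm2.lab Θ J F A V z z' G →
      LbP F ((range 3).image c) (c 3) Dn J ⌊(t + Va i * q) * J⌋₊ ⌊pN * J⌋₊ A z z' G := by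
    rintro J F A V z z' G ⟨C', G₁, cc, hG⟩
    have h1 := Pool.GRD.LbP.of (hΘn J F A V C' z z' G₁ G cc hG).lb
    rw [max_self] at h1
    exact { h1 with deg := fun v => (h1.deg v).trans (by omega) }
  have hw0 : Va i * q = -(y₁ * q) := by rw [v0]; ring
  have hx0 : L 3 t t ≤ pN + (σ * y₁ + lx + 1) * q := by
    have h1 := H₁.pN1
    have h2 : L (2 + 1) (t + Va i * q) (t + Va i * q) = L 3 (t + Va i * q) (t + Va i * q) := rfl
    rw [h2] at h1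
    have h3 := (abs_le.1 (l3 (t + Va i * q) (by rw [hw0]; linarith) (by rw [hw0]; linarith))).1
    have h4 : σ * (t + Va i * q - t) = -(σ * y₁ * q) := by rw [hw0]; ring
    rw [h4] at h3
    have h5 : dt * lx * q ≤ lx * q := by
      have := mul_le_mul_of_nonneg_right hdt1 (mul_nonneg hlx.le hq0.le)
      linarith
    have h6 : ε * q ≤ q := by linarith
    have h7 : 0 < lx * q := mul_pos hlx hq0
    linarith
  have hCςq : (C₀ : ℝ) * (ϰ * qc + 4 * (ς * qc)) ≤ 5 * C₀ * q := by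
    have h1 : ϰ * qc + 4 * (ς * qc) ≤ 5 * q := by linarith
    have := mul_le_mul_of_nonneg_left h1 hC₀
    linarith
  refine hnn (Db := Db) Rr h34 S1 hσ k3 (div_nonneg hε.le hkq0.le) hlam0.le hlam1 hlam2
    (2 * n + 2) AA WW (fun k hk => ?_) hWA (fun k hk => ?_) hnod (2 * n) (2 * n) n le_rfl
    (by omega) (fun k => k) (fun _ => 2 * n + 1) (fun k hk => ⟨by omega, WA k hk⟩)
    (fun k hk => ?_) (fun k h1 h2 => ⟨by omega, ?_, by rw [WWa, AA0]⟩) AA0 AA1 AAN (ν * qc)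
    (ϰ * qc) (ς * qc) (fun k hk => ?_) (by positivity)
    (mul_le_mul_of_nonneg_right hνϰ hqc0.le) le_rfl ?_ hςq hςϰq ?_ (w := t + Va i * q)
    (pN := pN) (x := (σ * y₁ + lx + 1) * q) (p := fun k => L 3 (AA k) (AA k) - 2 * (hh * q))
    (p₂ := fun k => L 2 (AA k) (AA k) - 2 * (hh * q))
    (y := fun k => L 2 (AA k) (AA k) - L 3 (AA k) (AA k) + X / 4 * q)
    (Ψ := BlR c 2 (dSt 2 Dw) (t + ar * q) t (Eb (2 + 1) + (2 * Sl (2 + 1) + 1) * q)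
      (L 2 t t + lam / 8 * q) (L (2 + 1) t t + (Sl (2 + 1) - lam / 8) * q) (yy - 1)
      (t + Va i * q) (Fm2.lab Θ)) ?_ (by positivity) hx0 ?_ ?_ (fun k hk => ?_)
    (fun k hk => ?_) (fun J F A V z z' G' hG => hΘlb J F A V z z' G' hG.1) (by omega)
    (fun k hk => ?_) (fun k hk => ?_) (fun k hk => ?_) D' le_rfl (Or.inr ?_) (k₂ := iw n)
    (hiw1 n (by omega)) ?_ hex
  · rw [hKq]
    have := hWlo k hk
    linarith
  · rw [hKq]
    have := hAhi k hk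
    linarith
  · -- the balls are ordered
    show AA k ≤ AA (k + 1)
    rw [AAk k hk.le, AAk (k + 1) (by omega), Vq k hk.le, Vq (k + 1) (by omega)]
    push_cast
    have : 0 < ν * qc := mul_pos hν0 hqc0
    linarith
  · -- the static node
    have h3 : k = 2 * n := le_antisymm h2 h1
    show AA (2 * n + 1) = AA k
    rw [h3, AAa, AAN]
  · show AA (k + 1) ≤ AA k + ν * qc
    rw [AAk k hk.le, AAk (k + 1) (by omega), Vq k hk.le, Vq (k + 1) (by omega)]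
    push_cast
    linarith
  · rw [mul_assoc, hεr]
    linarith
  · have : 3 * (K' / kq) * qc = 3 * (K' * q) := by rw [mul_assoc, hKq]
    rw [this]
    linarith
  · rw [hw0]
    linarith
  · have : 3 * (K' / kq) * qc = 3 * (K' * q) := by rw [mul_assoc, hKq]
    rw [this]
    have h1 : (3 * σ + 20) * qc ≤ (3 * σ + 20) * (2 * q) :=
      mul_le_mul_of_nonneg_left (by linarith) (by linarith)
    linarith
  · rw [le_div_iff₀ hkq0]
    have : (σ + 5) * kq ≤ (σ + 5) * 1 := mul_le_mul_of_nonneg_left hkq1 (by linarith)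
    linarith
  · -- lq
    show L 3 t t + b * (AA k - t) ≤ L 3 (AA k) (AA k) - 2 * (hh * q) + ϰ * qc + lam * qc
    obtain ⟨h1, h2⟩ := htA k hk
    have h3 := (abs_le.1 (l3 (AA k) (by linarith) (by linarith))).1
    have h4 : (b : ℝ) * (AA k - t) ≤ σ * (AA k - t) :=
      mul_le_mul_of_nonneg_right hb1 (by linarith)
    linarith
  · -- bl
    show L 2 (AA k) (AA k) - L 3 (AA k) (AA k) + X / 4 * q + (L 3 t t + b * (AA k - t)) ≤
      L 2 (AA k) (AA k) + ϰ * qc + lam * qc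
    obtain ⟨h1, h2⟩ := htA k hk
    have h3 := (abs_le.1 (l3 (AA k) (by linarith) (by linarith))).1
    have h4 : (b : ℝ) * (AA k - t) ≤ σ * (AA k - t) :=
      mul_le_mul_of_nonneg_right hb1 (by linarith)
    linarith
  · -- the blind labels
    have h1 := (hwin k hk).1
    rw [← AAk k hk] at h1
    exact blb_imp' h1 fun J F A V z z' G hG => hG.1
  · have h1 := (hwin k hk).2.1
    rw [← AAk k hk] at h1
    exact h1
  · have h1 := (hwin k hk).2.2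
    rw [← AAk k hk] at h1
    exact h1
  · -- the mixed derivative
    have t3 := hsta (t + 2 * qc) t (by linarith) (by linarith) (by linarith)
    have d3 := (abs_le.1 (l3 (t + 2 * qc) (by linarith) (by linarith))).1
    have e2 : σ * (t + 2 * qc - t) = 2 * σ * qc := by ring
    rw [e2] at d3
    have e3 : 2 * σ * qc = σ * q + lam / 8 * q := by
      have h1 : 2 * σ * qc = σ * (2 * qc) := by ring
      rw [h1, hqcar, har, ← hσex]
      ring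
    have hL2 : L 2 t t ≤ L 2 (t + 2 * qc) t :=
      (R₁.lawL 2 (by norm_num)).mono_a _ _ _ (by linarith) le_rfl (by linarith) (by linarith)
    have hL0 := recG_low R₁ (i := 2) (by norm_num) (a := t + 2 * qc) (w := t) (by linarith)
      (by linarith) (by linarith)
    have hCς : ((Cm : ℝ) + 1) * (ς * qc) = Cm * (ς * qc) + ς * qc := by ring
    rw [← hqcar] at hyy ⊢
    refine hmx (Dr := D') (i := 2 * n + 1) (j := 2 * n + 1) (k := 2 * n + 1)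
      (γ := L 3 t t + 2 * σ * qc - lam * qc) (y := yy) (R₁.inj.mono fun x hx => by
      rw [Set.mem_Iio] at hx ⊢
      omega) hDD' (by omega) hςq.le (by omega) (by omega) AAa WWa (by rw [AAa])
      (by rw [WWa]) le_rfl le_rfl ?_ ?_ ?_ ?_ ?_ ?_ ?_ ?_
    · rw [l3m_three, AAa, WWa]
      linarith
    · rw [l3m_ne _ _ (by norm_num), AAa, WWa, hyy]
      linarith
    · rw [l3m_ne _ _ (by norm_num)]
      linarith
    · rw [l3m_ne _ _ (by norm_num), l3m_three, AAa, WWa, hyy]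
      linarith
    · rw [l3m_ne _ _ (by norm_num), l3m_three, hyy]
      linarith
    · rw [l3m_ne _ _ (by norm_num), hσ', hyy]
      show L 2 (t + 2 * qc) t - (L 3 t t + (σ - lam / 8) * q) + Cm * (ς * qc) < _
      linarith
    · rw [hσ', hyy]
      show L 2 t t + lam / 8 * q - (L 3 t t + (σ - lam / 8) * q) < _
      linarith
    · linarith
  · show Va (iw n) / kq = 1
    rw [v6 n (by omega), hnν, one_mul]
    field_simp

end Pool.STB65
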