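import Pool.Agent.H65.VS.Vni
import Pool.Agent.H6.STB.Evc
import Pool.Agent.H98.STB.VcA

/-!
# The static end, when the slope of the static target is an integer

`svSU_int`: `SvSU` under `LowE`, `u` steep or static, the slope of the static target is an integer.
-/

set_option autoImplicit false

namespace Pool.STB65

open Finset Real MvPolynomial
open Pool.Agent.H49.Ent Pool.Agent.H32.Dense Pool.STK Pool.KA Pool.KSAT Pool.K2S Pool.PB Pool.S6C
  Pool.GEN Pool.RCD Pool.LA91 Pool.OWN68 Pool.PKG Pool.ALT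
open Pool.CHT Pool.CHX Pool.ISO Pool.D2R Pool.D2G30 Pool.V1E Pool.CR99 Pool.GRW
open Pool.GRD (LbP)
open Pool.PN18 (Fm2)
open Pool.LBT (ThrOf)
open Pool.STB (vb_void nAA nWW nι nσ LsN GrN nι_le nAA_ball nWW_ball nAA_pair nWW_pair nod_rec
  ful_rec rows_rec)
open Pool.STB77 (recG_low)
open Pool.STV90 (BlR RwE mxs_row)
open Pool.AJW (jfV jfV_mem)
open Pool.V0F (ChUQ AttUQ)

set_option maxHeartbeats 4000000 in
/-- **The static end, the slope of the static target an integer.** -/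
theorem svSU_int {y a h β' : ℝ} {Sl : ℕ → ℝ} {κ : ℕ → Kg} {Dv b : ℕ} (k0 : κ 0 = .one)
    (k1 : κ 1 = .one) (k3 : κ 3 = .sta) (hσ : Sl 3 = b) (hb2 : 2 ≤ b)
    (hβ : β' < Sl 3 * Real.log 2) :
    SvSU 4 2 y a h Sl κ (sumQ (ChUQ : PropG 4 Unit) (AttUQ : PropG 4 Unit))
      (fun e : PosR => LowE (AdmL 4) β' Dv e) := by
  classical
  intro al hal K₀ hK₀ S₀ hS₀
  have hσ' : Sl (2 + 1) = b := hσ
  rw [hσ] at hβ
  have hbr : (2 : ℝ) ≤ b := by exact_mod_cast hb2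
  have hb0r : (0 : ℝ) < b := by linarith
  have hlog : 0 < Real.log 2 := Real.log_pos one_lt_two
  obtain ⟨h₀, hh0, hh1, hβ'⟩ := hb_ex hb0r hβ
  -- the radius
  obtain ⟨ex, hex⟩ : ∃ ex : ℝ, ex = 1 / (32 * b) := ⟨_, rfl⟩
  have hex0 : 0 < ex := by rw [hex]; positivity
  have hσex : b * ex = 1 / 32 := by rw [hex]; field_simp
  have hex1 : ex ≤ 1 := by
    have : 1 * ex ≤ b * ex := mul_le_mul_of_nonneg_right (by linarith) hex0.le
    linarith
  obtain ⟨ar, har⟩ : ∃ ar : ℝ, ar = 1 + ex := ⟨_, rfl⟩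
  have har1 : 1 < ar := by linarith
  have har2 : ar ≤ 2 := by linarith
  refine ⟨ar, 1 / 32, har1, by norm_num, 2, 1, fun _ => ar, fun _ => 0, by norm_num,
    fun k _ => ⟨by norm_num, by linarith, har2⟩, fun S₂ hS₂ D hD => ?_⟩
  obtain ⟨D₀, hD₀, hjx⟩ := jx_rec 2 S₀ (by norm_num) hS₀
  obtain ⟨Db, hDb⟩ : ∃ Db : ℕ, Db = max D (max D₀ Dv) := ⟨_, rfl⟩
  have hDb1 : D ≤ Db := by rw [hDb]; exact le_max_left _ _
  have hDb2 : D₀ ≤ Db := by rw [hDb]; exact (le_max_left _ _).trans (le_max_right _ _)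
  have hDb4 : Dv ≤ Db := by rw [hDb]; exact (le_max_right _ _).trans (le_max_right _ _)
  have hDb0 : 1 ≤ Db := hD.trans hDb1
  have hDbK : Db ≤ Db * max 1 Db := Nat.le_mul_of_pos_right _ (by simp)
  refine ⟨(Db * max 1 Db + 1) * (Db * max 1 Db + 1), by nlinarith, fun C hC Du => ?_⟩
  obtain ⟨Dw, hDw⟩ : ∃ Dw : ℕ, Dw = max (Db * max 1 Db) Du := ⟨_, rfl⟩
  have hDw2 : Db * max 1 Db ≤ Dw := by rw [hDw]; exact le_max_left _ _
  have hDw3 : Du ≤ Dw := by rw [hDw]; exact le_max_right _ _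
  refine ⟨Dw, by omega, hDw3, fun δ X₀ hδ hδ1 hX₀ => ?_⟩
  -- the degrees
  obtain ⟨D₂, hD₂, hnod⟩ := nod_rec 3 S₀ S₂ (by norm_num) hS₀ (hS₀.trans hS₂)
  obtain ⟨Dn, hDn⟩ : ∃ Dn : ℕ, Dn = Db * max 1 Db + D₂ + dSt 2 Dw := ⟨_, rfl⟩
  have hDn1 : 1 ≤ Dn := by omega
  obtain ⟨C₀, D', K₃, hC₀1, hDD', hDK, hevc⟩ := Pool.STB6.ev_core Dn b hDn1 (by omega)
  obtain ⟨Cm, hmx⟩ := mxs_row Dn (dSt 2 Dw) hDn1
  have hCm : (0 : ℝ) ≤ Cm := Nat.cast_nonneg _
  obtain ⟨n, Ac, τ, Cg, ne, hn, hAc, hτ, hτ1, hvoid⟩ := vb_void 4 (max K₃ b) b (by omega)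
    (by have := le_max_right K₃ b; omega) hh0 hh1
  have hn0 : (0 : ℝ) ≤ n := Nat.cast_nonneg n
  obtain ⟨kr, hkr⟩ : ∃ kr : ℝ, kr = 1 / (2 * ((n : ℝ) + 2)) := ⟨_, rfl⟩
  have hkr0 : 0 < kr := by rw [hkr]; positivity
  have hkr1 : 2 * (((n : ℝ) + 2) * kr) = 1 := by rw [hkr]; field_simp
  have hkr2 : ((n : ℝ) + 1) * kr ≤ 1 / 2 := by
    have : ((n : ℝ) + 1) * kr ≤ (n + 2) * kr := mul_le_mul_of_nonneg_right (by linarith) hkr0.le
    linarith
  have hkr3 : kr ≤ 1 / 2 := by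
    have : 1 * kr ≤ ((n : ℝ) + 1) * kr := mul_le_mul_of_nonneg_right (by linarith) hkr0.le
    linarith
  obtain ⟨v, hv0, hvk, hevc⟩ := hevc (max K₃ b) (le_max_left _ _) (n := n) (Cg := Cg) (ne := ne)
    (Ac := Ac) (τ := τ) (kr := kr) hn hAc hτ hτ1 hkr0
  obtain ⟨s₁, hs₁, hs₁v, hevc⟩ := hevc v hv0 le_rfl
  obtain ⟨sr, hsr⟩ : ∃ sr : ℝ, sr = min s₁ (1 / (16 * (Cm + 1))) := ⟨_, rfl⟩
  have hsr0 : 0 < sr := by rw [hsr]; positivity
  have hsr1 : sr ≤ s₁ := by rw [hsr]; exact min_le_left _ _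
  have hsrC : 16 * ((Cm + 1) * sr) ≤ 1 := by
    have h1 : sr ≤ 1 / (16 * (Cm + 1)) := by rw [hsr]; exact min_le_right _ _
    rw [le_div_iff₀ (by positivity)] at h1
    linarith
  have hsr16 : 16 * sr ≤ 1 := by
    have : 1 * sr ≤ ((Cm : ℝ) + 1) * sr := mul_le_mul_of_nonneg_right (by linarith) hsr0.le
    linarith
  obtain ⟨dt₁, hdt₁⟩ : ∃ dt₁ : ℝ, dt₁ = h₀ * kr * Real.log 2 / 128 := ⟨_, rfl⟩
  have hdt₁0 : 0 < dt₁ := by rw [hdt₁]; positivity
  obtain ⟨lx, rr, R, dt, ℓ, kf, X, h₁, Xc, e, hlx, hrr, hrr1, -, hRR, hdt0, hdt1, hdt2, hℓ, hkf,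
    hX0, hXX, hX12, hh₁, hXc, hjx⟩ := hjx Db Dw Dv hDb2 hDb4 hDw2 (hb := h₀) (b := (b : ℝ))
    (β' := β') (C := C) (δ := δ) (X₀ := min X₀ sr) (dt₁ := dt₁) (rr₁ := b * b + b + 3)
    (R₁ := 2 * b + 3) (K₀ := K₀) (a := a) hh0 hh1 (by linarith) hβ' hC hδ (lt_min hX₀ hsr0)
    hdt₁0 hK₀
  have hX1 : X ≤ X₀ := hXX.trans (min_le_left _ _)
  have hX2 : X ≤ sr := hXX.trans (min_le_right _ _)
  refine ⟨e, kf, X, min h₁ (X / 8), by rw [hσ']; exact hkf, hX0, hX1, by positivity,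
    fun hh k₁ hhh hhl hk1 hk2 => ?_⟩
  have hhl1 := hhl.trans (min_le_left _ _)
  have hhl2 := hhl.trans (min_le_right _ _)
  obtain ⟨K₁, hK₁1, hjf, hjx⟩ := hjx hh k₁ hhh hhl1 hk1 hk2
  -- the balls
  obtain ⟨nk, hnk⟩ := exists_nat_ge (1 / s₁)
  obtain ⟨M, hM⟩ : ∃ M : ℕ, M = nk + 1 := ⟨_, rfl⟩
  have hM1 : (1 : ℝ) ≤ M := by rw [hM]; push_cast; linarith [(Nat.cast_nonneg nk : (0 : ℝ) ≤ nk)]
  have hM0 : (0 : ℝ) < M := by linarith
  obtain ⟨ρ, hρ⟩ : ∃ ρ : ℝ, ρ = ar / (2 * M) := ⟨_, rfl⟩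
  have hρ0 : 0 < ρ := by rw [hρ]; positivity
  have hMρ : 2 * ((M : ℝ) * ρ) = ar := by rw [hρ]; field_simp
  have hρs : ρ ≤ s₁ := by
    have h1 : 1 / s₁ ≤ M := by rw [hM]; push_cast; linarith
    rw [div_le_iff₀ hs₁] at h1
    rw [hρ, div_le_iff₀ (by positivity)]
    linarith
  have hxk : ∀ k ≤ 2 * M, 0 ≤ (k : ℝ) * ρ ∧ (k : ℝ) * ρ ≤ ar := fun k hk => by
    refine ⟨by positivity, ?_⟩
    have : (k : ℝ) * ρ ≤ ((2 * M : ℕ) : ℝ) * ρ :=
      mul_le_mul_of_nonneg_right (by exact_mod_cast hk) hρ0.le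
    push_cast at this
    linarith
  -- the windows
  obtain ⟨Va, hVa⟩ : ∃ Va : ℕ → ℝ, Va = fun k => if k = 0 then -(b : ℝ) else if k = 1 then 0 else
    if k = 2 then 1 else if k ≤ 5 then jfV 2 (-(b : ℝ)) Xc (k - 3) else
    if k ≤ 6 + 2 * M then ((k - 6 : ℕ) : ℝ) * ρ else (((k - (7 + 2 * M) : ℕ) : ℝ) + 1) * kr :=
    ⟨_, rfl⟩
  have v0 : Va 0 = -b := by rw [hVa]; simp
  have v1 : Va 1 = 0 := by rw [hVa]; simp
  have v2 : Va 2 = 1 := by rw [hVa]; simp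
  have v3 : ∀ k ≤ 2, Va (3 + k) = jfV 2 (-b) Xc k := fun k hk => by
    rw [hVa]
    simp only [show ¬ (3 + k = 0) by omega, show ¬ (3 + k = 1) by omega,
      show ¬ (3 + k = 2) by omega, show 3 + k ≤ 5 by omega, if_true, if_false]
    congr 1
    omega
  have v6 : ∀ k ≤ 2 * M, Va (6 + k) = (k : ℝ) * ρ := fun k hk => by
    rw [hVa]
    simp only [show ¬ (6 + k = 0) by omega, show ¬ (6 + k = 1) by omega,
      show ¬ (6 + k = 2) by omega, show ¬ (6 + k ≤ 5) by omega,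
      show 6 + k ≤ 6 + 2 * M by omega, if_true, if_false]
    rw [show 6 + k - 6 = k by omega]
  have v7 : ∀ k, Va (7 + 2 * M + k) = ((k : ℝ) + 1) * kr := fun k => by
    rw [hVa]
    simp only [show ¬ (7 + 2 * M + k = 0) by omega, show ¬ (7 + 2 * M + k = 1) by omega,
      show ¬ (7 + 2 * M + k = 2) by omega, show ¬ (7 + 2 * M + k ≤ 5) by omega,
      show ¬ (7 + 2 * M + k ≤ 6 + 2 * M) by omega, if_false]
    rw [show 7 + 2 * M + k - (7 + 2 * M) = k by omega]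
  obtain ⟨xq, hxq⟩ : ∃ xq : ℝ, xq = b * b + lx + 1 := ⟨_, rfl⟩
  have hbb : (0 : ℝ) < b * b := mul_pos hb0r hb0r
  have hxq0 : 0 < xq := by rw [hxq]; linarith
  obtain ⟨Kx, hKx⟩ : ∃ Kx : ℝ, Kx = (ne + b * (n + 2) + n + 10) * kr := ⟨_, rfl⟩
  have hKx0 : 0 ≤ Kx := by rw [hKx]; positivity
  obtain ⟨K₂, hK₂⟩ : ∃ K₂ : ℝ, K₂ = K₁ + xq + Kx + b + (K₀ + 10) := ⟨_, rfl⟩
  have hKa : K₁ ≤ K₂ := by rw [hK₂]; linarith
  obtain ⟨Na, hNa⟩ : ∃ Na : ℕ, Na = 7 + 2 * M + (n + 1) := ⟨_, rfl⟩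
  have hVaK : ∀ k < Na, -(K₂ - 1) ≤ Va k ∧ Va k ≤ K₂ - 1 := by
    intro k hk
    rcases Nat.lt_or_ge k 6 with h1 | h1
    · rcases Nat.lt_or_ge k 3 with h2 | h2
      · interval_cases k
        · rw [v0]
          constructor <;> linarith
        · rw [v1]
          constructor <;> linarith
        · rw [v2]
          constructor <;> linarith
      · obtain ⟨k', rfl⟩ : ∃ k', k = 3 + k' := ⟨k - 3, by omega⟩
        rw [v3 k' (by omega)]
        obtain ⟨h3, h4⟩ := hjf k' (by omega)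
        constructor <;> linarith
    · rcases Nat.lt_or_ge k (7 + 2 * M) with h2 | h2
      · obtain ⟨k', rfl⟩ : ∃ k', k = 6 + k' := ⟨k - 6, by omega⟩
        rw [v6 k' (by omega)]
        obtain ⟨h3, h4⟩ := hxk k' (by omega)
        constructor <;> linarith
      · obtain ⟨k', rfl⟩ : ∃ k', k = 7 + 2 * M + k' := ⟨k - (7 + 2 * M), by omega⟩
        rw [v7]
        have h3 : (k' : ℝ) ≤ n := by exact_mod_cast (show k' ≤ n by omega)
        have h4 : ((k' : ℝ) + 1) * kr ≤ (n + 1) * kr :=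
          mul_le_mul_of_nonneg_right (by linarith) hkr0.le
        have h5 : 0 ≤ ((k' : ℝ) + 1) * kr := by positivity
        constructor <;> linarith
  refine ⟨K₂, Na, Va, 0, fun _ => 0, fun k hk => ?_, fun j hj => absurd hj (Nat.not_lt_zero j),
    fun K' hK' => ?_⟩
  · obtain ⟨h1, h2⟩ := hVaK k hk
    constructor <;> linarith
  obtain ⟨ε₀, hε₀, hjx⟩ := hjx K' (hKa.trans hK')
  refine ⟨min ε₀ (sr / 64), by positivity, fun ε hε hεε => ?_⟩
  have hε1 := hεε.trans (min_le_left _ _)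
  have hε2 := hεε.trans (min_le_right _ _)
  intro S g₀ P θ P₂ θ₂ Eb e₂ c Pt rt L T G g hG hg hder hZ
  refine ⟨fun j => if j = 0 then Sum.inl () else Sum.inr (), 2, fun _ => 0, fun _ => 1,
    fun j _ => one_pos, fun k₀ hk₀ => ?_⟩
  have hch : ChUQ (n := 4) () (k₀ 0) S P θ c Pt rt L T κ G g := by
    have h4 := hk₀ 0 (by norm_num)
    simp only [if_true] at h4
    exact h4
  have hat : AttUQ (n := 4) () (k₀ 1) S P θ c Pt rt L T κ G g := by
    have h4 := hk₀ 1 (by norm_num)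
    simp only [one_ne_zero, if_false] at h4
    exact h4
  obtain ⟨μ, q₁, e₀, π₀, hμ, hq₁, hjx⟩ := hjx ε hε hε1 (h := h) (Sl := Sl) (κ := κ) (fun l hl => by
    interval_cases l
    · exact k0
    · exact k1) hσ' hder hZ hch hat
  refine ⟨q₁, hq₁, fun q t x hq hx N A V N' V' Rc hpr hwn N₁ N₂ vw hN1 hN12 hN2 hvw => ?_⟩
  have hq0 := Rc.q0
  -- the record with the windows `Va`
  have Ra := Rc.mono (K₁ := K') (ε₁ := ε) (N₁ := N) (A₁ := A) (V₁ := V) (N₁' := Na)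
    (V₁' := Va) le_rfl le_rfl (fun k hk => ⟨k, hk, rfl, rfl⟩) (fun k hk => by
      obtain ⟨j, hj, e⟩ := hwn k hk
      exact ⟨j, hj, e.symm⟩)
  have hVaA : ∀ k < Na, |Va k| ≤ K' := fun k hk => by
    obtain ⟨h2, h3⟩ := hVaK k hk
    exact abs_le.2 ⟨by linarith, by linarith⟩
  obtain ⟨S', Θ, Ψ, w, p₁, p₂, eN, uN, pN, pa₁, pa₂, ea, ua, pa, hne, hsub, R', hmar, hXμ, H, hΘs,
    hΘn, hΘe, hfin⟩ := hjx hq Ra hVaA (i := 0) (j := 1) (j' := 2) (by omega) (by omega) (by omega)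
    v0 v1 v2 (fun k hk => ⟨3 + k, by omega, v3 k hk⟩) (D := D)
    (Dr := (Db * max 1 Db + 1) * (Db * max 1 Db + 1)) hDb1 le_rfl
  obtain ⟨hsl, hvf⟩ := hfin (N₁ := N₁) (N₂ := N₂) (y := y) (vw := vw)
    (Rg := fun l => κ l = .one ∨ κ l = .thin) hN2
  refine ⟨S', XiF Θ (t + Va 0 * q), hsub, Rc.sub hne hsub, ⟨1 / (4 * 1), 8 * 1, by norm_num,
    by norm_num, by rw [hσ']; exact hsl⟩, fun κ' qf Pq h1 h2 h3 h4 => ⟨2 * 1, by norm_num, by
    rw [hσ']; exact hvf κ' qf Pq h1 h2 h3 h4⟩, fun K₅ hK₅ hst => ?_⟩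
  -- the numbers
  obtain ⟨yy, hyy⟩ : ∃ yy : ℝ, yy = L 2 (t + ar * q) t + sr * q -
    (L 3 t t + b * ar * q - 1 / 4 * q) := ⟨_, rfl⟩
  obtain ⟨S₁, hne₁, hsub₁, hex⟩ := st_sub hne hΘs hst (yy - 1)
  have R₁ := R'.sub hne₁ hsub₁
  have H₁ := H.sub hsub₁
  have S1 : Sl 1 = 1 := by
    have := Rc.kd 1 (by norm_num)
    rw [k1] at this
    exact this
  have hKq2 : K₂ * q ≤ K' * q := mul_le_mul_of_nonneg_right hK' hq0.le
  have ht0 := R₁.t0
  have ht1 := R₁.t1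
  -- the record in a smaller box
  have Rm := R₁.mono (K₁ := K' - 1) (ε₁ := ε) (N₁ := N) (A₁ := A) (V₁ := V) (N₁' := Na)
    (V₁' := Va) (by linarith) le_rfl (fun k hk => ⟨k, hk, rfl, rfl⟩) (fun k hk => ⟨k, hk, rfl⟩)
  have h34 : (3 : ℕ) < 4 := by norm_num
  have hεq : 0 < ε * q := mul_pos hε hq0
  have hsrq : 0 < sr * q := mul_pos hsr0 hq0
  have hεq1 : 64 * (ε * q) ≤ sr * q := by
    have := mul_le_mul_of_nonneg_right hε2 hq0.le
    linarith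
  have hsrq1 : 16 * (sr * q) ≤ q := by
    have := mul_le_mul_of_nonneg_right hsr16 hq0.le
    linarith
  have hCsr : 16 * ((Cm + 1) * (sr * q)) ≤ q := by
    have := mul_le_mul_of_nonneg_right hsrC hq0.le
    linarith
  have hXq : X * q ≤ sr * q := mul_le_mul_of_nonneg_right hX2 hq0.le
  have hXq0 : 0 < X * q := mul_pos hX0 hq0
  have hhq0 : 0 < hh * q := mul_pos hhh hq0
  have hhq1 : 8 * (hh * q) ≤ X * q := by
    have := mul_le_mul_of_nonneg_right hhl2 hq0.le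
    linarith
  have hbq : 0 < b * q := mul_pos hb0r hq0
  have harq : ar * q ≤ 2 * q := mul_le_mul_of_nonneg_right har2 hq0.le
  have harq0 : q < ar * q := by
    have := mul_lt_mul_of_pos_right har1 hq0
    linarith
  have hK2q : K₂ * q = K₁ * q + xq * q + Kx * q + b * q + (K₀ * q + 10 * q) := by
    rw [hK₂]; ring
  have z1 : 0 ≤ K₁ * q := by positivity
  have z2 : 0 ≤ xq * q := by positivity
  have z3 : 0 ≤ Kx * q := by positivity
  have z6 : 0 ≤ K₀ * q := by positivity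
  have hbx : ∀ x : ℝ, t - b * q ≤ x → x ≤ t + 2 * q → |x - t| ≤ K' * q := fun x h1 h2 => by
    rw [abs_le]
    constructor <;> linarith
  have l3 : ∀ x : ℝ, t - b * q ≤ x → x ≤ t + 2 * q →
      |L 3 x x - L 3 t t - b * (x - t)| ≤ ε * q := fun x h1 h2 => by
    have := R₁.dL 3 h34 x (hbx x h1 h2)
    rwa [hσ] at this
  have hsta := R₁.kd 3 h34
  rw [k3] at hsta
  have hsta := hsta.2
  -- the lists
  have gr : Pool.STB.GrN ar ρ (2 * M) 0 0 (2 * M) (2 * M) :=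
    ⟨by omega, le_rfl, by omega, by omega, by push_cast; linarith, hρ0⟩
  obtain ⟨jr, hjr, hAr, hVr⟩ := hpr 0 (by norm_num)
  have HL : LsN 0 ar ρ (2 * M) 0 0 (fun _ => 0) (fun _ => 0) N A V Na Va (K' - 1) := by
    refine ⟨fun j hj => ⟨6 + j, by omega, by rw [v6 j hj, zero_add]⟩, fun j hj1 hj2 => ?_,
      fun j hj => absurd hj (Nat.not_lt_zero j), fun j hj => absurd hj (Nat.not_lt_zero j), ?_, ?_⟩
    · have : j = 1 := by omega
      subst this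
      exact ⟨jr, hjr, by rw [hAr]; push_cast; ring, hVr⟩
    · linarith
    · push_cast
      linarith
  have hw0 : Va 0 * q = -(b * q) := by rw [v0]; ring
  have hAk : ∀ k ≤ 2 * M, nAA t q 0 ar ρ (2 * M) 0 (fun _ => 0) (nι (2 * M) (2 * M) k) =
      t + Va (6 + k) * q := fun k hk => by
    rw [nι_le hk, nAA_ball hk, v6 k hk, zero_add]
  have hA0 : nAA t q 0 ar ρ (2 * M) 0 (fun _ => 0) (nι (2 * M) (2 * M) 0) = t := by
    rw [hAk 0 (Nat.zero_le _), v6 0 (Nat.zero_le _)]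
    push_cast
    ring
  have hW0 : nWW t q 0 ρ (2 * M) 0 (fun _ => 0) (nι (2 * M) (2 * M) 0) = t := by
    rw [nι_le (Nat.zero_le _), nWW_ball (Nat.zero_le _)]
    push_cast
    ring
  have hAN : nAA t q 0 ar ρ (2 * M) 0 (fun _ => 0) (nι (2 * M) (2 * M) (2 * M)) = t + ar * q := by
    rw [hAk _ le_rfl, v6 _ le_rfl]
    push_cast
    rw [mul_assoc (2 : ℝ), hMρ]
  have hσN : nσ (2 * M) 0 (2 * M) (2 * M) = 2 * M + 1 := by
    unfold nσ
    omega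
  have hAσ : nAA t q 0 ar ρ (2 * M) 0 (fun _ => 0) (2 * M + 1) = t + ar * q := by
    rw [nAA_pair le_rfl (by norm_num)]
    push_cast
    ring
  have hWσ : nWW t q 0 ρ (2 * M) 0 (fun _ => 0) (2 * M + 1) = t := by
    rw [nWW_pair le_rfl (by norm_num)]
    ring
  have Vb : ∀ k ≤ 2 * M, 0 ≤ Va (6 + k) ∧ Va (6 + k) ≤ ar := fun k hk => by
    rw [v6 k hk]
    exact hxk k hk
  have Vbq : ∀ k ≤ 2 * M, 0 ≤ Va (6 + k) * q ∧ Va (6 + k) * q ≤ ar * q := fun k hk =>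
    ⟨mul_nonneg (Vb k hk).1 hq0.le, mul_le_mul_of_nonneg_right (Vb k hk).2 hq0.le⟩
  -- the labels at the balls
  have hwin : ∀ k ≤ 2 * M, _ := fun k hk => by
    obtain ⟨m1, m2, m3, m4, m5, m6⟩ := hmar (6 + k) (by omega)
    obtain ⟨m7, m8⟩ := Vb k hk
    exact alo_win (k := 6 + k) H₁ hΘn (by omega) (by rw [v0]; linarith) (abs_le.2 (by
      constructor <;> linarith)) (by linarith) hXμ hhq0 (by linarith) hμ m1 m2 m4 m6
  have hΘlb : ∀ (J : ℕ) (F : Fam 4 J) (A : F.Ω → Prop) (V : Type) (z : PtT F → V)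
      (z' : LnT F → V) (G : V → MvPolynomial (Option (Fin 4)) ℝ), Fm2.lab Θ J F A V z z' G →
      LbP F ((range 3).image c) (c 3) Dn J ⌊(t + Va 0 * q) * J⌋₊ ⌊pN * J⌋₊ A z z' G := by
    rintro J F A V z z' G ⟨C', G₁, cc, hG⟩
    have h1 := Pool.GRD.LbP.of (hΘn J F A V C' z z' G₁ G cc hG).lb
    rw [max_self] at h1
    exact { h1 with deg := fun v => (h1.deg v).trans (by omega) }
  have l3w := abs_le.1 (l3 (t + Va 0 * q) (by rw [hw0]; linarith) (by rw [hw0]; linarith))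
  have h4w : (b : ℝ) * (t + Va 0 * q - t) = -(b * b * q) := by rw [hw0]; ring
  rw [h4w] at l3w
  have hx0 : L 3 t t ≤ pN + xq * q := by
    have h1 := H₁.pN1
    have h2 : L (2 + 1) (t + Va 0 * q) (t + Va 0 * q) = L 3 (t + Va 0 * q) (t + Va 0 * q) := rfl
    rw [h2] at h1
    have h5 : dt * lx * q ≤ dt₁ * q := mul_le_mul_of_nonneg_right hdt2 hq0.le
    have h6 : ε * q ≤ q := by linarith
    have h7 : dt₁ ≤ 1 := by
      have h8 : h₀ * kr ≤ 1 * 1 := mul_le_mul hh1 (by linarith) hkr0.le (by norm_num)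
      have h9 : h₀ * kr * Real.log 2 ≤ 1 * 1 * 1 := mul_le_mul h8 (by
        linarith [Real.log_two_lt_d9]) hlog.le (by norm_num)
      rw [hdt₁]
      linarith
    have h8 : dt₁ * q ≤ 1 * q := mul_le_mul_of_nonneg_right h7 hq0.le
    have h9 : 0 < lx * q := mul_pos hlx hq0
    have h10 : xq * q = b * b * q + lx * q + q := by rw [hxq]; ring
    linarith [l3w.1]
  have hherΨ : ∀ {D₁ : ℕ} {a₁ v₁ e₁ g₁ p₃ x₁ w₁ : ℝ} (J : ℕ) (F : Fam 4 J) (A B : F.Ω → Prop)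
      (V : Type) (z : PtT F → V) (z' : LnT F → V) (G : V → MvPolynomial (Option (Fin 4)) ℝ),
      Sub B A → BlR c 2 D₁ a₁ v₁ e₁ g₁ p₃ x₁ w₁ (Fm2.lab Θ) J F A V z z' G →
      BlR c 2 D₁ a₁ v₁ e₁ g₁ p₃ x₁ w₁ (Fm2.lab Θ) J F B V z z' G := by
    rintro D₁ a₁ v₁ e₁ g₁ p₃ x₁ w₁ J F A B V z z' G hBA ⟨⟨C', G₁, cc, hG⟩, hr⟩
    exact ⟨⟨C', G₁, cc, hΘs J F A B V C' z z' G₁ G cc hBA hG⟩, hr.sub hBA⟩
  have hfq : ∀ i' : ℕ, t + 0 * q + ((i' : ℝ) + 2) * kr * q =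
      t + Va (7 + 2 * M + (i' + 1)) * q := fun i' => by
    rw [v7]
    push_cast
    ring
  have hMx : MxS S₁ c Dn D' (2 * M + 0 + 2 + 0) L (Eb 3) (Eb 3) (sr * q) (sr * q) (t + Va 0 * q)
      (nAA t q 0 ar ρ (2 * M) 0 (fun _ => 0)) (nWW t q 0 ρ (2 * M) 0 (fun _ => 0))
      (nσ (2 * M) 0 (2 * M) (2 * M))
      (L 3 (nAA t q 0 ar ρ (2 * M) 0 (fun _ => 0) (nι (2 * M) (2 * M) 0))
        (nWW t q 0 ρ (2 * M) 0 (fun _ => 0) (nι (2 * M) (2 * M) 0)) +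
        b * (nAA t q 0 ar ρ (2 * M) 0 (fun _ => 0) (nι (2 * M) (2 * M) (2 * M)) -
          nAA t q 0 ar ρ (2 * M) 0 (fun _ => 0) (nι (2 * M) (2 * M) 0)) - 1 / 4 * q)
      (BlR c 2 (dSt 2 Dw) (t + ar * q) t (Eb (2 + 1) + (2 * Sl (2 + 1) + 1) * q)
        (L 2 t t + 1 / 32 * q) (L (2 + 1) t t + (Sl (2 + 1) - 1 / 32) * q) (yy - 1)
        (t + Va 0 * q) (Fm2.lab Θ)) := by
    have t3 := hsta (t + ar * q) t (by linarith) (by linarith) (by linarith)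
    have d3 := (abs_le.1 (l3 (t + ar * q) (by linarith) (by linarith))).1
    have e2 : b * (t + ar * q - t) = b * ar * q := by ring
    rw [e2] at d3
    have e3 : b * ar * q = b * q + 1 / 32 * q := by
      rw [har, ← hσex]
      ring
    have hL2 : L 2 t t ≤ L 2 (t + ar * q) t :=
      (R₁.lawL 2 (by norm_num)).mono_a _ _ _ (by linarith) le_rfl (by linarith) (by linarith)
    have hL0 := recG_low R₁ (i := 2) (by norm_num) (a := t + ar * q) (w := t) (by linarith)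
      (by linarith) (by linarith)
    have hCς : ((Cm : ℝ) + 1) * (sr * q) = Cm * (sr * q) + sr * q := by ring
    rw [hσN, hA0, hW0, hAN, e2]
    refine hmx (Dr := D') (i := 2 * M + 1) (j := 2 * M + 1) (k := 2 * M + 1)
      (γ := L 3 t t + b * ar * q - 1 / 4 * q) (y := yy) (Rm.inj.mono fun x hx => by
      rw [Set.mem_Iio] at hx ⊢
      omega) hDD' (by omega) hsrq.le (by omega) (by omega) hAσ hWσ (by rw [hAσ])
      (by rw [hWσ]) le_rfl le_rfl ?_ ?_ ?_ ?_ ?_ ?_ ?_ ?_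
    · rw [hAσ, hWσ]
      linarith
    · rw [hAσ, hWσ, hyy]
      linarith
    · linarith
    · rw [hAσ, hWσ, hyy]
      linarith
    · rw [hyy]
      linarith
    · rw [hσ', hyy]
      show L 2 (t + ar * q) t - (L 3 t t + ((b : ℝ) - 1 / 32) * q) + Cm * (sr * q) < _
      linarith
    · rw [hσ', hyy]
      show L 2 t t + 1 / 32 * q - (L 3 t t + ((b : ℝ) - 1 / 32) * q) < _
      linarith
    · linarith
  obtain ⟨wi, w1, w2, c₀, hc₀, hev⟩ := hevc Rm S1 hσ k3 hε.le (by linarith) HL gr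
    (hnod Rm h34 HL Dn (by omega)) (Db := Db) (oV := Va 0)
    (Ψ := BlR c 2 (dSt 2 Dw) (t + ar * q) t (Eb (2 + 1) + (2 * Sl (2 + 1) + 1) * q)
      (L 2 t t + 1 / 32 * q) (L (2 + 1) t t + (Sl (2 + 1) - 1 / 32) * q) (yy - 1)
      (t + Va 0 * q) (Fm2.lab Θ)) (pN := pN)
    (p := fun k => L 3 (t + Va (6 + k) * q) (t + Va (6 + k) * q) - 2 * (hh * q))
    (p₂ := fun k => L 2 (t + Va (6 + k) * q) (t + Va (6 + k) * q) - 2 * (hh * q))
    (z := fun k => L 2 (t + Va (6 + k) * q) (t + Va (6 + k) * q) -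
      L 3 (t + Va (6 + k) * q) (t + Va (6 + k) * q) + X / 4 * q)
    (by omega) (by rw [v0]; linarith) hherΨ
    (fun J F A V z z' G hG => hΘlb J F A V z z' G hG.1) (fun k hk => by
      have hk' : k ≤ 2 * M := by simpa using hk
      rw [hAk k hk']
      exact blb_imp' (hwin k hk').1 fun J F A V z z' G hG => hG.1) (fun k hk => by
      have hk' : k ≤ 2 * M := by simpa using hk
      rw [hAk k hk']
      exact (hwin k hk').2.1) (fun k hk => by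
      have hk' : k ≤ 2 * M := by simpa using hk
      rw [hAk k hk']
      exact (hwin k hk').2.2) (xq := xq) (xx := xq * q) (s₀ := sr * q) (sr := sr) (s := sr * q)
    hxq0.le (by positivity) le_rfl (by rw [zero_mul, add_zero]; exact hx0) (fun k hk => by
      rw [hAk k hk, zero_mul, add_zero]
      obtain ⟨h1, h2⟩ := Vbq k hk
      have h3 := (abs_le.1 (l3 (t + Va (6 + k) * q) (by linarith) (by linarith))).1
      linarith) (fun k hk => by
      rw [hAk k hk, zero_mul, add_zero]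
      obtain ⟨h1, h2⟩ := Vbq k hk
      have h3 := (abs_le.1 (l3 (t + Va (6 + k) * q) (by linarith) (by linarith))).1
      linarith) (by linarith) hρs hsr0 hsr1 rfl le_rfl (Dr := D') le_rfl (Lm := 1 / 4 * q)
    (by positivity) (by linarith) (Or.inr hMx) (N₁ := M) (by omega) (by linarith) (by
      push_cast
      have h1 : (2 * (M : ℝ) - M) * ρ * q = M * ρ * q := by ring
      rw [h1]
      have h2 : 1 / 4 * q < 1 / 2 * q := by linarith
      have h3 : 1 / 2 * q ≤ M * ρ * q := mul_le_mul_of_nonneg_right (by linarith) hq0.le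
      linarith) (by rw [abs_zero]; linarith) (by rw [abs_zero, ← hKx]; linarith)
    (fun i' hi' => ⟨7 + 2 * M + i', by omega, by rw [v7, zero_add]⟩)
    (sf := fun i' l => L l (t + 0 * q + ((i' : ℝ) + 2) * kr * q)
      (t + 0 * q + ((i' : ℝ) + 2) * kr * q)) (fun _ _ _ _ => le_rfl) hex
  -- the class theorem
  have hT := Rm.tg 3 (by norm_num) h34
  have hthr : ThrOf (chsys 4 (θ₂ 3)) S₁ (P₂ 3) := hT.thr₂
  have hkq : 0 < kr * q := mul_pos hkr0 hq0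
  have hkrq : kr * q ≤ 1 / 2 * q := mul_le_mul_of_nonneg_right hkr3 hq0.le
  obtain ⟨dl, hdl⟩ : ∃ dl : ℝ, dl = h₀ * (kr * q) * Real.log 2 / 256 := ⟨_, rfl⟩
  have hdl0 : 0 < dl := by rw [hdl]; positivity
  have hlxq : 0 ≤ dt * (lx * q) / 4 := by positivity
  have hDr : dt * (lx * q) / 4 + dl ≤ h₀ * (kr * q) * Real.log 2 / 128 := by
    have h1 := mul_le_mul_of_nonneg_right hdt2 hq0.le
    rw [hdt₁] at h1
    have e1 : dt * (lx * q) = dt * lx * q := by ring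
    have e2 : h₀ * kr * Real.log 2 / 128 * q = h₀ * (kr * q) * Real.log 2 / 128 := by ring
    rw [e2] at h1
    have h2 : 0 ≤ h₀ * (kr * q) * Real.log 2 := by positivity
    rw [e1, hdl]
    linarith
  have hroww : ∀ i' < n, L 3 (t + Va 0 * q) (t + Va 0 * q) ≤
      L 3 t t + b * (((i' : ℝ) + 1) * kr * q) ∧
      L 3 t t + b * (((i' : ℝ) + 1) * kr * q) + kr * q ≤
        L 3 (t + Va 0 * q) (t + Va 0 * q) + rr * q := by
    intro i' hi'
    have h1 : (0 : ℝ) ≤ b * (((i' : ℝ) + 1) * kr * q) := by positivity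
    have h2 : ((i' : ℝ) + 1) * kr ≤ (n + 1) * kr := mul_le_mul_of_nonneg_right (by
      have : (i' : ℝ) ≤ n := by exact_mod_cast hi'.le
      linarith) hkr0.le
    have h3 : ((i' : ℝ) + 1) * kr * q ≤ 1 / 2 * q :=
      mul_le_mul_of_nonneg_right (by linarith) hq0.le
    have h4 : (b : ℝ) * (((i' : ℝ) + 1) * kr * q) ≤ b * (1 / 2 * q) :=
      mul_le_mul_of_nonneg_left h3 hb0r.le
    have h5 := mul_le_mul_of_nonneg_right hrr1 hq0.le
    have e1 : ((b : ℝ) * b + b + 3) * q = b * b * q + b * q + 3 * q := by ring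
    rw [e1] at h5
    have h6 : 1 * q ≤ b * b * q := mul_le_mul_of_nonneg_right (by nlinarith) hq0.le
    constructor <;> linarith [l3w.1, l3w.2]
  refine hvoid M (kr * q) (v * q) hkq (mul_pos hv0 hq0) hthr Rm.tmh Rm.ne c
    (Rm.inj.mono fun x (hx : x < 3) => show x < 4 by omega) (η := v * q / 16) (e0 := e₂ 3)
    (eg := e₂ 3) (wn := t + Va 0 * q) (wi := wi) (ai := fun i => wi (i + 1))
    (fi := fun i => t + 0 * q + ((i : ℝ) + 2) * kr * q)
    (sf := fun i' l => L l (t + 0 * q + ((i' : ℝ) + 2) * kr * q)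
      (t + 0 * q + ((i' : ℝ) + 2) * kr * q))
    (s₁ := fun i => L 3 (t + 0 * q) (t + 0 * q) + b * (((i : ℝ) + 1) * kr * q))
    (s₂ := fun i => L 3 (t + 0 * q) (t + 0 * q) + b * (((i : ℝ) + 1) * kr * q) + kr * q)
    (Dr := fun _ => (1 - h₀) * (kr * q) * Real.log 2 + (dt * (lx * q) / 4 + dl))
    (I₀ := (range 2).image c) (fun x hx => ?_) hT.th₂0 (by
      have := mul_pos hv0 hq0
      linarith) (fun i' hi' => ?_)
    (fun i' hi' => ?_) w2 (fun i' hi' => ?_) (fun i' hi' => ?_) hherΨ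
    (fun J F A V z z' G hG ω hω => (hΘlb J F A V z z' G hG.1).cls ω hω) (fun i' hi' => ?_) hc₀ hev
  · rw [mem_image] at hx
    obtain ⟨a, ha, rfl⟩ := hx
    rw [mem_range] at ha
    interval_cases a
    · exact Or.inl rfl
    · exact Or.inr rfl
  · obtain ⟨a1, a2, a3, a4⟩ := w1 i' hi'.le
    refine ⟨by exact_mod_cast a1.le, by exact_mod_cast a2, a3, a4 3 le_rfl⟩
  · obtain ⟨a1, a2, a3, a4⟩ := w1 (i' + 1) hi'
    exact ⟨by exact_mod_cast a1, by exact_mod_cast a2, a3, a4 0 (by norm_num),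
      a4 1 (by norm_num)⟩
  · have h1 := ful_rec R₁ (fun τ J F A h => hsub τ J F A (hsub₁ τ J F A h)) hch
      (k := 7 + 2 * M + (i' + 1)) (by omega)
    rw [← hfq i'] at h1
    exact h1
  · have h2 : 0 ≤ (1 - h₀) * (kr * q) * Real.log 2 :=
      mul_nonneg (mul_nonneg (by linarith) hkq.le) hlog.le
    refine ⟨by linarith, by linarith, ?_⟩
    have e1 : L 3 (t + 0 * q) (t + 0 * q) + b * (((i' : ℝ) + 1) * kr * q) + kr * q -
      (L 3 (t + 0 * q) (t + 0 * q) + b * (((i' : ℝ) + 1) * kr * q)) = kr * q := by ring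
    show (1 - h₀) * (kr * q) * Real.log 2 + (dt * (lx * q) / 4 + dl) ≤ (1 - h₀) *
      (L 3 (t + 0 * q) (t + 0 * q) + b * (((i' : ℝ) + 1) * kr * q) + kr * q -
      (L 3 (t + 0 * q) (t + 0 * q) + b * (((i' : ℝ) + 1) * kr * q))) * Real.log 2 + _
    rw [e1]
    linarith
  · obtain ⟨r1, r2⟩ := hroww i' hi'
    refine Bas.mono 0 (rows_rec R₁.pos H₁ hμ.le (sa := L 3 t t + b * (((i' : ℝ) + 1) * kr * q))
      (sb := L 3 t t + b * (((i' : ℝ) + 1) * kr * q) + kr * q) (δ' := dl) r1 (by linarith) r2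
      hdl0) ?_
    intro J _ F A hA V z z' Gz hG
    obtain ⟨⟨C', G₁, cc, hG'⟩, -⟩ := hG
    have h5 := hA V z z' Gz (hΘn J F A V C' z z' G₁ Gz cc hG')
    rw [zero_mul, add_zero]
    refine h5.trans (le_of_eq ?_)
    ring

end Pool.STB65
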