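import Pool.Agent.H65.VS.Tbc
import Pool.Agent.H19.TIE.Svc

/-!
# The static end over a thin coordinate of the same slope, when a family of labels has small rate

`svSC_E`: `SvSC` under `LowE`, from `VbYb`.
-/

set_option autoImplicit false

namespace Pool.STB65

open Finset Real MvPolynomial
open Pool.Agent.H49.Ent Pool.Agent.H32.Dense Pool.STK Pool.KA Pool.KSAT Pool.K2S Pool.PB Pool.S6C
  Pool.GEN Pool.RCD Pool.LA91 Pool.OWN68 Pool.PKG Pool.ALT
open Pool.CHT Pool.CHX Pool.ISO Pool.D2R Pool.D2G30 Pool.V1E Pool.CR99 Pool.GRW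
open Pool.UNJ (ceI)
open Pool.GRD (LbP)
open Pool.PN18 (Fm2)
open Pool.V0F (LbU ChUQ AttUQ recG_lbf chV)
open Pool.V0N (AlM alm_rec nzm_part)
open Pool.V0B19 (nzD le_nzD grV grV_zero grV_mid grV_one grV_step)
open Pool.NPZ (v0b_nzw NzW)
open Pool.TIE19

set_option maxHeartbeats 4000000 in
/-- **The static end over a thin coordinate of the same slope, when a family of labels has small
rate.** -/
theorem svSC_Er {r : ℕ} (hr2 : r = 2) {y a h hb β' κ₂ lu : ℝ} {Sl : ℕ → ℝ} {κ : ℕ → Kg} {ι : Type}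
    {Q : PropG (r + 2) ι} {Dv : ℕ} (hκ : ∀ l < r, κ l = .one)
    (hκu : κ r = .thin) (hκt : κ (r + 1) = .sta) (hσ2 : 2 ≤ Sl (r + 1)) (hb0 : 0 < hb) (hb1 : hb ≤ 1)
    (hβ : β' ≤ (1 - hb) * Sl (r + 1) * Real.log 2)
    (hab : Sl r = Sl (r + 1)) (hκ₂0 : 0 < κ₂)
    (hκ₂1 : κ₂ < (Sl (r + 1) - 1) / Sl (r + 1) * hb) (hlu3 : 3 ≤ lu)
    (hlu : Sl (r + 1) - 1 ≤ κ₂ * lu) (hy : 3 / 2 ≤ y) (hya : y + 1 / 2 ≤ a)
    (hsa : Sl (r + 1) + 1 ≤ a) (hla : lu + 1 / 2 ≤ a) (hV : VbYb r y a h hb Sl κ Q) :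
    SvSC (r + 2) r y a h Sl κ (sumQ Q (sumQ (sumQ (ChUQ : PropG (r + 2) Unit)
      (AttUQ : PropG (r + 2) Unit)) (FaQ : PropG (r + 2) (ℕ × ℕ × ℚ × ℚ))))
      (fun e : PosR => LowE (AdmL (r + 2)) β' Dv e) := by
  classical
  have hr : 1 ≤ r := by omega
  intro al hal K₀ hK₀ S₀ hS₀
  obtain ⟨ar, del, har1, har2, hdel, hste⟩ := ste_all hσ2 hb0 hb1
  obtain ⟨Kr, Nr, Ar, Vr, hKr, hAV, hV⟩ := hV al hal K₀ hK₀ S₀ hS₀
  obtain ⟨D₀, hD₀, halm⟩ := alm_rec r S₀ hS₀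
  obtain ⟨Kl, hKl, hlbf⟩ := recG_lbf (r + 2) S₀ (by omega) hS₀
  obtain ⟨b, hbd⟩ : ∃ b : ℝ, b = Sl (r + 1) := ⟨_, rfl⟩
  have hr0 : (0 : ℝ) ≤ r := Nat.cast_nonneg r
  have hba : Sl r = b := hab.trans hbd.symm
  rw [← hbd] at hβ hσ2 hκ₂1 hlu hsa hste
  have hs : 1 < b := by linarith
  have hbp : 0 < b := by linarith
  have ha0 : 0 < a := by linarith
  have hlu0 : 0 < lu := by linarith
  -- the pairs
  obtain ⟨Ap, hAp⟩ : ∃ Ap : ℕ → ℝ, Ap = fun k => if k < 2 then a else if k = 3 then ar else 1 :=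
    ⟨_, rfl⟩
  obtain ⟨Vp, hVp⟩ : ∃ Vp : ℕ → ℝ, Vp = fun k => if k = 1 then y else 0 := ⟨_, rfl⟩
  have ap0 : Ap 0 = a := by rw [hAp]; norm_num
  have ap1 : Ap 1 = a := by rw [hAp]; norm_num
  have ap2 : Ap 2 = 1 := by rw [hAp]; norm_num
  have ap3 : Ap 3 = ar := by rw [hAp]; norm_num
  have vp0 : Vp 0 = 0 := by rw [hVp]; norm_num
  have vp1 : Vp 1 = y := by rw [hVp]; norm_num
  have vp2 : Vp 2 = 0 := by rw [hVp]; norm_num
  have vp3 : Vp 3 = 0 := by rw [hVp]; norm_num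
  obtain ⟨Km, hKm⟩ : ∃ Km : ℝ, Km = max (max Kr a) 2 := ⟨_, rfl⟩
  have m1 : Kr ≤ Km := by rw [hKm]; exact (le_max_left _ _).trans (le_max_left _ _)
  have m3 : a ≤ Km := by rw [hKm]; exact (le_max_right _ _).trans (le_max_left _ _)
  have m5 : 2 ≤ Km := by rw [hKm]; exact le_max_right _ _
  have hpp : ∀ k < 4, -Km ≤ Vp k ∧ Vp k ≤ Ap k ∧ Ap k ≤ Km := by
    intro k hk
    interval_cases k
    · rw [ap0, vp0]
      exact ⟨by linarith, by linarith, m3⟩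
    · rw [ap1, vp1]
      exact ⟨by linarith, by linarith, m3⟩
    · rw [ap2, vp2]
      exact ⟨by linarith, by linarith, by linarith⟩
    · rw [ap3, vp3]
      exact ⟨by linarith, by linarith, by linarith⟩
  refine ⟨ar, del, har1, hdel, Km, Nr + 4, cmb Nr Ar Ap, cmb Nr Vr Vp, hKr.trans m1,
    fun k hk => ?_, fun S₂ hS₂ D hD => ?_⟩
  · rcases Nat.lt_or_ge k Nr with h1 | h1
    · rw [cmb_l h1, cmb_l h1]
      obtain ⟨h2, h3, h4⟩ := hAV k h1
      exact ⟨by linarith, h3, by linarith⟩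
    · obtain ⟨j, rfl⟩ : ∃ j, k = Nr + j := ⟨k - Nr, by omega⟩
      rw [cmb_r, cmb_r]
      exact hpp j (by omega)
  obtain ⟨D₁, hV⟩ := hV S₂ hS₂ D hD
  obtain ⟨Db, hDb⟩ : ∃ Db : ℕ, Db = max (max D D₀) (max D₁ Dv) := ⟨_, rfl⟩
  have hDb1 : D ≤ Db := by rw [hDb]; exact (le_max_left _ _).trans (le_max_left _ _)
  have hDb2 : D₀ ≤ Db := by rw [hDb]; exact (le_max_right _ _).trans (le_max_left _ _)
  have hDb3 : D₁ ≤ Db := by rw [hDb]; exact (le_max_left _ _).trans (le_max_right _ _)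
  have hDb4 : Dv ≤ Db := by rw [hDb]; exact (le_max_right _ _).trans (le_max_right _ _)
  have hDbn : Db ≤ nzD Db := le_nzD Db
  have hDbK : Db * max 1 Db ≤ nzD Db := by
    unfold nzD
    rw [max_self]
  have hDK : D ≤ Db * max 1 Db := hDb1.trans (Nat.le_mul_of_pos_right _ (by simp))
  obtain ⟨Dr₀, hV⟩ := hV Db hDb1 hDb3
  refine ⟨max Dr₀ (nzD Db), (hDb1.trans hDbn).trans (le_max_right _ _), fun C hC => ?_⟩
  obtain ⟨Dw₀, hV⟩ := hV _ (le_max_left Dr₀ (nzD Db)) C hC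
  obtain ⟨Dw, hDw⟩ : ∃ Dw : ℕ, Dw = max Dw₀ (nzD Db + 1) := ⟨_, rfl⟩
  have hDw1 : Dw₀ ≤ Dw := by rw [hDw]; exact le_max_left _ _
  have hDw2 : nzD Db + 1 ≤ Dw := by rw [hDw]; exact le_max_right _ _
  obtain ⟨C', httb⟩ := ttb_of D Db Dw r hDb1 hDw2
  obtain ⟨CT, hCT⟩ := recNy_slhT Dw r C'
  have hDDw : D ≤ Dw := by omega
  refine ⟨Dw, CT, hDDw, fun δ X₀ hδ hδ1 hX₀ => ?_⟩
  obtain ⟨Xs, dt₁, hXs, hdt₁, hste⟩ := hste S₀ S₂ Db Dw hS₀ hS₂ (hD.trans hDb1)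
  obtain ⟨y₁, hy₁e⟩ : ∃ y₁ : ℝ, y₁ = max b (3 * lu + 4) := ⟨_, rfl⟩
  have hy₁b : b ≤ y₁ := by rw [hy₁e]; exact le_max_left _ _
  have hy₁l : 3 * lu + 4 ≤ y₁ := by rw [hy₁e]; exact le_max_right _ _
  obtain ⟨lam, rr₀, gg, dt₀, ℓ₀, kf₀, X₁, hlam, hrr₀, hgg, hdt₀, hℓ₀, hX₁, hly, hV⟩ :=
    hV _ hDw1 δ X₀ hδ hδ1 hX₀ y₁ (by rw [← hbd]; exact hy₁b)
  rw [← hbd] at hly
  have hy₁ : 0 < y₁ := by linarith
  have hby : 0 < b * y₁ := mul_pos hbp hy₁
  obtain ⟨Ks, Nw, Vw, εs, hKs, hVw, hεs, hste⟩ := hste K₀ y₁ lam hK₀ hy₁b hlam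
  obtain ⟨dt, hdtd⟩ : ∃ dt : ℝ, dt = min dt₀ (min dt₁ (dt₁ / lam)) := ⟨_, rfl⟩
  have hdt : 0 < dt := by rw [hdtd]; positivity
  have hdta : dt ≤ dt₀ := by rw [hdtd]; exact min_le_left _ _
  have hdtb : dt ≤ dt₁ := by rw [hdtd]; exact (min_le_right _ _).trans (min_le_left _ _)
  have hdtc : dt * lam ≤ dt₁ := by
    have : dt ≤ dt₁ / lam := by rw [hdtd]; exact (min_le_right _ _).trans (min_le_right _ _)
    rwa [le_div_iff₀ hlam] at this
  obtain ⟨rr, hrrd⟩ : ∃ rr : ℝ, rr = max rr₀ (b * y₁ + b + 3) := ⟨_, rfl⟩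
  have hrra : rr₀ ≤ rr := by rw [hrrd]; exact le_max_left _ _
  have hrrb : b * y₁ + b + 3 ≤ rr := by rw [hrrd]; exact le_max_right _ _
  have hrr : lam ≤ rr := hrr₀.trans hrra
  have hb1 : 0 < (b - 1) * lu := mul_pos (by linarith) hlu0
  -- the class theorem
  obtain ⟨δ₀, Λ, hδ₀, hΛ, hv0⟩ := v0b_nzw Db r b hb κ₂ (hD.trans hDb1) hr hs hb0 (by assumption)
    hκ₂0 hκ₂1
  obtain ⟨φ₀, hφ₀, hφ₀1, hφ₀2, hv0⟩ := hv0 1 one_pos
  obtain ⟨X, hX⟩ : ∃ X : ℝ, X = min (min X₀ X₁) (min Xs (1 / 4)) := ⟨_, rfl⟩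
  have hX0 : 0 < X := by
    rw [hX]; exact lt_min (lt_min hX₀ hX₁) (lt_min hXs (by norm_num))
  have hXe : X ≤ Xs := by rw [hX]; exact (min_le_right _ _).trans (min_le_left _ _)
  have hXa : X ≤ X₀ := by rw [hX]; exact (min_le_left _ _).trans (min_le_left _ _)
  have hXb : X ≤ X₁ := by rw [hX]; exact (min_le_left _ _).trans (min_le_right _ _)
  have hXc4 : X ≤ 1 / 4 := by rw [hX]; exact (min_le_right _ _).trans (min_le_right _ _)
  have hXc : X ≤ 1 := by linarith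
  obtain ⟨φt, hφt⟩ : ∃ φt : ℝ, φt = min (min (φ₀ * lu) (1 / 2)) (X / (4 * b)) := ⟨_, rfl⟩
  have hφt0 : 0 < φt := by rw [hφt]; positivity
  have hφt1 : φt ≤ φ₀ * lu := by rw [hφt]; exact (min_le_left _ _).trans (min_le_left _ _)
  have hφt2 : φt ≤ 1 / 2 := by rw [hφt]; exact (min_le_left _ _).trans (min_le_right _ _)
  have hφt3 : 4 * (b * φt) ≤ X := by
    have h1 : φt ≤ X / (4 * b) := by rw [hφt]; exact min_le_right _ _
    rw [le_div_iff₀ (by positivity)] at h1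
    linarith
  obtain ⟨M₀, hM₀⟩ := exists_nat_ge (max 2 (3 * ((1 + 2 * b) * lu) / φt))
  have hM2R : (2 : ℝ) ≤ M₀ := (le_max_left _ _).trans hM₀
  have hM2 : 2 ≤ M₀ := by exact_mod_cast hM2R
  have hM1 : 1 ≤ M₀ := by omega
  have hM0 : (0 : ℝ) < M₀ := by linarith
  have hMφ : 3 * ((1 + 2 * b) * lu) ≤ M₀ * φt := by
    have h1 := (le_max_right _ _).trans hM₀
    rwa [div_le_iff₀ hφt0] at h1
  have hluM : 0 < lu / M₀ := by positivity
  obtain ⟨lamM, hlamM⟩ : ∃ lamM : ℝ, lamM = min (min lam lu) (min (2 * φt / dt) (4 * gg / dt)) :=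
    ⟨_, rfl⟩
  have hlM0 : 0 < lamM := by rw [hlamM]; positivity
  have hlM1 : lamM ≤ lam := by rw [hlamM]; exact (min_le_left _ _).trans (min_le_left _ _)
  have hlM2 : lamM ≤ lu := by rw [hlamM]; exact (min_le_left _ _).trans (min_le_right _ _)
  have hlM3 : dt * lamM ≤ 2 * φt := by
    have h1 : lamM ≤ 2 * φt / dt := by
      rw [hlamM]
      exact (min_le_right _ _).trans (min_le_left _ _)
    rw [le_div_iff₀ hdt] at h1
    linarith
  have hlM4 : dt * lamM ≤ 4 * gg := by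
    have h1 : lamM ≤ 4 * gg / dt := by
      rw [hlamM]
      exact (min_le_right _ _).trans (min_le_right _ _)
    rw [le_div_iff₀ hdt] at h1
    linarith
  obtain ⟨gM, hgM⟩ : ∃ gM : ℝ, gM = min gg ((b - 1) * lu) := ⟨_, rfl⟩
  have hgM0 : 0 < gM := by rw [hgM]; exact lt_min hgg (by assumption)
  have hgM1 : gM ≤ gg := by rw [hgM]; exact min_le_left _ _
  have hgM2 : gM ≤ (b - 1) * lu := by rw [hgM]; exact min_le_right _ _
  obtain ⟨R, hR⟩ : ∃ R : ℝ, R = max (max (y₁ + 3) ((rr + gg) / b)) (max (lu + 2)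
    ((3 * lu + gg + 1) / b)) := ⟨_, rfl⟩
  have hR13 : y₁ + 3 ≤ R := by rw [hR]; exact (le_max_left _ _).trans (le_max_left _ _)
  have hR1 : 1 + y₁ ≤ R := by linarith
  have hR2 : rr + gg ≤ b * R := by
    have : (rr + gg) / b ≤ R := by rw [hR]; exact (le_max_right _ _).trans (le_max_left _ _)
    rw [div_le_iff₀ hbp] at this
    linarith
  have hR3 : lu + 2 ≤ R := by rw [hR]; exact (le_max_left _ _).trans (le_max_right _ _)
  have hR4 : 3 * lu + gg + 1 ≤ b * R := by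
    have : (3 * lu + gg + 1) / b ≤ R := by
      rw [hR]
      exact (le_max_right _ _).trans (le_max_right _ _)
    rw [div_le_iff₀ hbp] at this
    linarith
  have hR0 : 0 < R := by linarith
  have hδ'0 : 0 < δ₀ * lu / 2 := by positivity
  have hby2 : X / 2 ≤ b * y₁ := by
    have h1 : 1 * y₁ ≤ b * y₁ := mul_le_mul_of_nonneg_right hs.le hy₁.le
    linarith
  obtain ⟨ℓ, h₁, ε₁, e₁, hℓ, hℓ₁, hh₁, hε₁, he₁, halm⟩ := halm Db hDb2 (b := b) (h := hb)
    (δ := dt) (δ' := δ₀ * lu / 2) (lam := lamM) (g := gM) (R := R) (K₁ := K₀) (ℓ₀ := ℓ₀)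
    (X := X / 4) (g₂ := y₁) hbp hb0 (by assumption) hdt hδ'0 hlM0 hgM0 hR0.le hK₀.le hℓ₀
    (by linarith) hy₁ (by linarith)
  obtain ⟨kf, hkf⟩ : ∃ kf : ℝ, kf = max kf₀ b := ⟨_, rfl⟩
  obtain ⟨h₂, hh₂, hV⟩ := hV ℓ X kf hℓ hℓ₁ hX0 hXb (by rw [hkf]; exact le_max_left _ _)
  have hC0 : 0 < C := by linarith
  refine ⟨⟨e₁, he₁⟩, kf, X, min (min h₁ h₂) (min (X / (20 * C)) (min (φt / (4 * C))
    (min 1 (lu / M₀)))), by
    rw [← hbd, hkf]
    exact le_max_right _ _, hX0, hXa, by positivity, fun hh k₁ hhh hhl hk1 hk2 => ?_⟩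
  have hhl1 := hhl.trans ((min_le_left _ _).trans (min_le_left _ _))
  have hhl2 := hhl.trans ((min_le_left _ _).trans (min_le_right _ _))
  have hhl3 := hhl.trans ((min_le_right _ _).trans (min_le_left _ _))
  have hhl4 := hhl.trans ((min_le_right _ _).trans ((min_le_right _ _).trans (min_le_left _ _)))
  have hhl5 := hhl.trans ((min_le_right _ _).trans ((min_le_right _ _).trans
    ((min_le_right _ _).trans (min_le_left _ _))))
  have hhl6 := hhl.trans ((min_le_right _ _).trans ((min_le_right _ _).trans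
    ((min_le_right _ _).trans (min_le_right _ _))))
  rw [le_div_iff₀ (by positivity)] at hhl3 hhl4
  obtain ⟨K₁o, Nvo, Vvo, ns, vs, hVvo, hvso, hV⟩ := hV hh k₁ hhh hhl2 hk1 hk2
  obtain ⟨K₁, hK₁⟩ : ∃ K₁ : ℝ, K₁ = max K₁o Ks := ⟨_, rfl⟩
  have hK₁a : K₁o ≤ K₁ := by rw [hK₁]; exact le_max_left _ _
  have hK₁b : Ks ≤ K₁ := by rw [hK₁]; exact le_max_right _ _
  obtain ⟨Nv, hNv⟩ : ∃ Nv : ℕ, Nv = Nvo + Nw := ⟨_, rfl⟩
  obtain ⟨Vv, hVvd⟩ : ∃ Vv : ℕ → ℝ, Vv = cmb Nvo Vvo Vw := ⟨_, rfl⟩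
  have hVv : ∀ k < Nv, -K₁ ≤ Vv k ∧ Vv k ≤ K₁ := by
    intro k hk
    rw [hVvd]
    rcases Nat.lt_or_ge k Nvo with h1 | h1
    · rw [cmb_l h1]
      obtain ⟨h2, h3⟩ := hVvo k h1
      exact ⟨by linarith, by linarith⟩
    · obtain ⟨j, rfl⟩ : ∃ j, k = Nvo + j := ⟨k - Nvo, by omega⟩
      rw [cmb_r]
      obtain ⟨h2, h3⟩ := hVw j (by omega)
      exact ⟨by linarith, by linarith⟩
  have hvs : ∀ j < ns, -K₁ ≤ vs j ∧ vs j ≤ a - 1 / 2 := fun j hj => by
    obtain ⟨h2, h3⟩ := hvso j hj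
    exact ⟨by linarith, h3⟩
  have hk10 : 0 < k₁ := by linarith
  obtain ⟨Cf, hCf⟩ := exists_nat_ge (max (2 * Λ + 7 * r + 15) (k₁ + 2))
  have hCf1 : 2 * Λ + 7 * r + 15 ≤ Cf := (le_max_left _ _).trans hCf
  have hCf2 : k₁ + 2 ≤ Cf := (le_max_right _ _).trans hCf
  obtain ⟨cb, hcb⟩ : ∃ cb : ℕ, cb = Cf + 7 * r + 13 := ⟨_, rfl⟩
  have hcbR : (cb : ℝ) = Cf + 7 * r + 13 := by rw [hcb]; push_cast; ring
  obtain ⟨co, hco⟩ := exists_nat_ge (Λ + 1)
  have hco0 : (0 : ℝ) ≤ co := Nat.cast_nonneg _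
  have hcb0 : (0 : ℝ) ≤ cb := Nat.cast_nonneg _
  have hco1 : 1 ≤ co := by
    have h1 : (1 : ℝ) ≤ co := by linarith
    exact_mod_cast h1
  have hcb3 : 3 ≤ cb := by omega
  have hcbl : k₁ + 2 ≤ cb * lu := by
    have h1 : (cb : ℝ) * 1 ≤ cb * lu := mul_le_mul_of_nonneg_left (by linarith) hcb0
    linarith
  -- the windows
  obtain ⟨vg, hvg⟩ : ∃ vg : ℕ → ℝ, vg = fun j => -(2 * φt) + chV M₀ cb j * lu := ⟨_, rfl⟩
  have hvgb : ∀ j < (cb + co) * M₀ + 1, -(2 * φt) - cb * lu ≤ vg j ∧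
      vg j ≤ -(2 * φt) + co * lu := fun j hj => by
    obtain ⟨h1, h2⟩ := chV_bd hM1 hj
    have h3 := mul_le_mul_of_nonneg_right h1 hlu0.le
    have h4 := mul_le_mul_of_nonneg_right h2 hlu0.le
    rw [hvg]
    constructor
    · show _ ≤ -(2 * φt) + chV M₀ cb j * lu
      linarith
    · show -(2 * φt) + chV M₀ cb j * lu ≤ _
      linarith
  obtain ⟨Va, hVa⟩ : ∃ Va : ℕ → ℝ, Va = fun k => if k < Nv then Vv k else if k = Nv then -y₁ else
    if k = Nv + 1 then 0 else if k = Nv + 2 then 1 else if k = Nv + 3 then -k₁ else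
    vg (k - (Nv + 4)) := ⟨_, rfl⟩
  have v0 : ∀ k < Nv, Va k = Vv k := fun k hk => by rw [hVa]; simp only [hk, if_true]
  have v1 : Va Nv = -y₁ := by rw [hVa]; simp
  have v2 : Va (Nv + 1) = 0 := by rw [hVa]; simp
  have v3 : Va (Nv + 2) = 1 := by rw [hVa]; simp
  have v4 : Va (Nv + 3) = -k₁ := by rw [hVa]; simp
  have v5 : ∀ j, Va (Nv + 4 + j) = vg j := fun j => by
    rw [hVa]
    simp only [show ¬ Nv + 4 + j < Nv by omega, show ¬ Nv + 4 + j = Nv by omega,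
      show ¬ Nv + 4 + j = Nv + 1 by omega, show ¬ Nv + 4 + j = Nv + 2 by omega,
      show ¬ Nv + 4 + j = Nv + 3 by omega, if_false]
    congr 1
    omega
  obtain ⟨Na, hNa⟩ : ∃ Na : ℕ, Na = Nv + 4 + ((cb + co) * M₀ + 1) := ⟨_, rfl⟩
  obtain ⟨KL, hKL⟩ : ∃ KL : ℝ, KL = (cb + co + Λ + 1) * lu + k₁ + 6 := ⟨_, rfl⟩
  obtain ⟨K₂, hK₂⟩ : ∃ K₂ : ℝ, K₂ = max (max K₁ (R + 1)) (max (K₀ + 1)
    (max KL (2 * a + k₁ + 4))) := ⟨_, rfl⟩
  have hKa : K₁ ≤ K₂ := by rw [hK₂]; exact (le_max_left _ _).trans (le_max_left _ _)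
  have hKb : R + 1 ≤ K₂ := by rw [hK₂]; exact (le_max_right _ _).trans (le_max_left _ _)
  have hKd : K₀ + 1 ≤ K₂ := by rw [hK₂]; exact (le_max_left _ _).trans (le_max_right _ _)
  have hKe : KL ≤ K₂ := by
    rw [hK₂]
    exact (le_max_left _ _).trans ((le_max_right _ _).trans (le_max_right _ _))
  have hKf : 2 * a + k₁ + 4 ≤ K₂ := by
    rw [hK₂]
    exact (le_max_right _ _).trans ((le_max_right _ _).trans (le_max_right _ _))
  have hKLe : KL = cb * lu + co * lu + Λ * lu + lu + k₁ + 6 := by rw [hKL]; ring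
  have hcol : 0 ≤ co * lu := by positivity
  have hcbl0 : 0 ≤ cb * lu := by positivity
  have hΛl : 0 ≤ Λ * lu := by positivity
  have hVaK : ∀ k < Na, -K₂ ≤ Va k ∧ Va k ≤ K₂ := by
    intro k hk
    rcases Nat.lt_or_ge k Nv with h1 | h1
    · rw [v0 k h1]
      obtain ⟨h2, h3⟩ := hVv k h1
      exact ⟨by linarith, by linarith⟩
    · rcases Nat.lt_or_ge k (Nv + 4) with h5 | h5
      · obtain ⟨j, rfl⟩ : ∃ j, k = Nv + j := ⟨k - Nv, by omega⟩
        have hj : j < 4 := by omega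
        interval_cases j
        · rw [Nat.add_zero, v1]
          exact ⟨by linarith, by linarith⟩
        · rw [v2]
          exact ⟨by linarith, by linarith⟩
        · rw [v3]
          exact ⟨by linarith, by linarith⟩
        · rw [v4]
          exact ⟨by linarith, by linarith⟩
      · obtain ⟨j, rfl⟩ : ∃ j, k = Nv + 4 + j := ⟨k - (Nv + 4), by omega⟩
        rw [v5]
        obtain ⟨h2, h3⟩ := hvgb j (by omega)
        exact ⟨by linarith, by linarith⟩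
  -- the windows of balls
  obtain ⟨nb, hnb⟩ : ∃ nb : ℕ, nb = cb * M₀ + M₀ := ⟨_, rfl⟩
  obtain ⟨vs', hvs'⟩ : ∃ vs' : ℕ → ℝ, vs' = fun k => if k < ns then vs k else vg (k - ns) :=
    ⟨_, rfl⟩
  have hnbM : ∀ j ≤ nb, j < (cb + co) * M₀ + 1 := fun j hj => by
    have h1 : M₀ ≤ co * M₀ := Nat.le_mul_of_pos_left _ (by omega)
    rw [add_mul]
    omega
  have hvgt : ∀ j ≤ nb, vg j ≤ lu := fun j hj => by
    have h1 : chV M₀ cb j ≤ 1 := by
      unfold chV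
      have h2 : (j : ℝ) / M₀ ≤ cb + 1 := by
        rw [div_le_iff₀ hM0]
        have : j ≤ (cb + 1) * M₀ := by
          rw [add_mul, one_mul]
          omega
        exact_mod_cast this
      linarith
    have h3 := mul_le_mul_of_nonneg_right h1 hlu0.le
    rw [hvg]
    show -(2 * φt) + chV M₀ cb j * lu ≤ _
    linarith
  refine ⟨K₂, Na, Va, ns + (nb + 1), vs', hVaK, fun j hj => ?_, fun K' hK' => ?_⟩
  · rw [hvs']
    show -K₂ ≤ (if j < ns then vs j else vg (j - ns)) ∧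
      (if j < ns then vs j else vg (j - ns)) ≤ a - 1 / 2
    split_ifs with h1
    · obtain ⟨h2, h3⟩ := hvs j h1
      exact ⟨by linarith, h3⟩
    · obtain ⟨h2, -⟩ := hvgb (j - ns) (hnbM _ (by omega))
      have h3 := hvgt (j - ns) (by omega)
      exact ⟨by linarith, by linarith⟩
  obtain ⟨ε₀, hε₀, hV⟩ := hV K' (hK₁a.trans (hKa.trans hK'))
  refine ⟨min (min ε₀ (min ε₁ εs)) (min (X / 16) (min (gg / 8) (min (φt / 4) (min (hh / (6 * C)) 1)))),
    by positivity, fun ε hε hεε => ?_⟩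
  have hεa := hεε.trans ((min_le_left _ _).trans (min_le_left _ _))
  have hεb := hεε.trans ((min_le_left _ _).trans ((min_le_right _ _).trans (min_le_left _ _)))
  have hεs' := hεε.trans ((min_le_left _ _).trans ((min_le_right _ _).trans (min_le_right _ _)))
  have hεc := hεε.trans ((min_le_right _ _).trans (min_le_left _ _))
  have hεd := hεε.trans ((min_le_right _ _).trans ((min_le_right _ _).trans (min_le_left _ _)))
  have hεf := hεε.trans ((min_le_right _ _).trans ((min_le_right _ _).trans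
    ((min_le_right _ _).trans (min_le_left _ _))))
  have hεe := hεε.trans ((min_le_right _ _).trans ((min_le_right _ _).trans
    ((min_le_right _ _).trans ((min_le_right _ _).trans (min_le_left _ _)))))
  have hεh := hεε.trans ((min_le_right _ _).trans ((min_le_right _ _).trans
    ((min_le_right _ _).trans ((min_le_right _ _).trans (min_le_right _ _)))))
  rw [le_div_iff₀ (by positivity)] at hεe
  intro S g₀ P θ P₂ θ₂ Eb e₂ c Pt rt L T G g hG hg hder hZ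
  obtain ⟨i₀, ⟨a1, a2, a3, a4, a5, a6, a7⟩, hiD, φ, k₂, hφ0, hφ, hrt⟩ := hZ
  have hK'0 : K₀ ≤ K' := by linarith
  have hK'p : 0 < K' := by linarith
  by_cases hpos : 0 < L (r + 1) g g
  swap
  · obtain ⟨q₁, hq₁, H⟩ := rec_pos (by omega : r + 1 < r + 2) (hder (r + 1) (by omega)) hK₀ hK'0
      hpos
    exact ⟨fun _ => Sum.inr (Sum.inl (Sum.inl ())), 0, fun _ => 0, fun _ => 1,
      fun j hj => by omega, fun k₀ _ => ⟨q₁, hq₁, fun q t x hq _ N A V N' V' R => (H hq R).elim⟩⟩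
  by_cases hposu : 0 < L r g g
  swap
  · obtain ⟨q₁, hq₁, H⟩ := rec_pos (by omega : r < r + 2) (hder r (by omega)) hK₀ hK'0 hposu
    exact ⟨fun _ => Sum.inr (Sum.inl (Sum.inl ())), 0, fun _ => 0, fun _ => 1,
      fun j hj => by omega, fun k₀ _ => ⟨q₁, hq₁, fun q t x hq _ N A V N' V' R => (H hq R).elim⟩⟩
  have e1 : r + 2 - 1 = r + 1 := rfl
  have e2 : r + 2 - 2 = r := rfl
  rw [e1] at a1 a5 a6 a7
  rw [e2] at a2 a7
  obtain ⟨μ₁, d, hμ₁, hd, hmar⟩ := mar_lin (hder r (by omega)) (hder (r + 1) (by omega)) hpos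
    hposu a5 a6 a7
  obtain ⟨p, M, B₀, B₁, hB, hV⟩ := hV ε hε hεa S g₀ P θ P₂ θ₂ Eb e₂ c Pt rt L T G g hG hg hder
  obtain ⟨κT, hκT0, hκT1⟩ : ∃ x : ℚ, (0 : ℝ) < x ∧ (x : ℝ) < φ₀ := exists_rat_btwn hφ₀
  obtain ⟨b₀, hb₀⟩ : ∃ b₀ : ℝ, b₀ = -(2 * φt) - (Cf + (7 * r + 12) / 2 - Λ) * lu := ⟨_, rfl⟩
  obtain ⟨b₁, hb₁⟩ : ∃ b₁ : ℝ, b₁ = -(2 * φt) - (Cf / 2 + 7 * r + 13) * lu := ⟨_, rfl⟩
  have hbb : b₀ < b₁ := by
    have h1 : (Cf / 2 + 7 * r + 13) * lu < (Cf + (7 * r + 12) / 2 - Λ) * lu :=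
      mul_lt_mul_of_pos_right (by linarith) hlu0
    rw [hb₀, hb₁]
    linarith
  refine ⟨fun j => if j < M then Sum.inl (p j) else if j = M then Sum.inr (Sum.inl (Sum.inl ()))
    else if j = M + 1 then Sum.inr (Sum.inl (Sum.inr ())) else
    Sum.inr (Sum.inr (r, Cf, 1 / 8, κT)), M + 3,
    fun j => if j < M then B₀ j else if j < M + 2 then 0 else b₀,
    fun j => if j < M then B₁ j else if j < M + 2 then 1 else b₁, fun j hj => ?_, fun k₀ hk₀ => ?_⟩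
  · by_cases h4 : j < M
    · simp only [h4, if_true]
      exact hB j h4
    · by_cases h5 : j < M + 2
      · simp only [h4, h5, if_false, if_true]
        exact one_pos
      · simp only [h4, h5, if_false]
        exact hbb
  have hch : ChUQ (n := r + 2) () (k₀ M) S P θ c Pt rt L T κ G g := by
    have h4 := hk₀ M (by omega)
    simp only [lt_irrefl, if_false, if_true] at h4
    exact h4
  have hat : AttUQ (n := r + 2) () (k₀ (M + 1)) S P θ c Pt rt L T κ G g := by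
    have h4 := hk₀ (M + 1) (by omega)
    simp only [show ¬ M + 1 < M by omega, show ¬ M + 1 = M by omega, if_false, if_true] at h4
    exact h4
  obtain ⟨μ, hμ⟩ : ∃ μ : ℝ, μ = min μ₁ ((1 / 2) ^ k₀ (M + 1)) := ⟨_, rfl⟩
  have hμ0 : 0 < μ := by rw [hμ]; positivity
  have hμa : μ ≤ μ₁ := by rw [hμ]; exact min_le_left _ _
  have hμb : μ ≤ (1 / 2) ^ k₀ (M + 1) := by rw [hμ]; exact min_le_right _ _
  obtain ⟨q₁, hq₁, hV⟩ := hV k₀ (fun j hj => by
    have h4 := hk₀ j (by omega)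
    simp only [hj, if_true] at h4
    exact h4) μ hμ0
  have hKK : 0 < K' + K₀ := by linarith
  have h3KK : 0 < 3 * K' + K₀ := by linarith
  have hblu : 0 < b * lu := mul_pos hbp hlu0
  have hb8 : 0 < 8 * b + 8 * rr + 24 * (b * lu) := by linarith
  have hKR : 0 < K₀ + R + 1 := by linarith
  refine ⟨min q₁ (min (min (d / (K' + K₀)) ((1 / 2) ^ k₂ / (K₀ + R + 1))) (min
    (μ / (8 * b + 8 * rr + 24 * (b * lu))) (min ((1 / 2) ^ k₀ (M + 1) / (3 * K' + K₀))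
    (min μ ((1 / 2) ^ k₀ (M + 2) / lu))))), by positivity,
    fun q t x hq hx N A V N' V' Rc hpr hwn N₁ N₂ vw hN1 hN12 hN2 hvw => ?_⟩
  have q1 := hq.trans_le (min_le_left _ _)
  have q2 := hq.trans_le ((min_le_right _ _).trans ((min_le_left _ _).trans (min_le_left _ _)))
  have q3 := hq.trans_le ((min_le_right _ _).trans ((min_le_left _ _).trans (min_le_right _ _)))
  have q4 := hq.trans_le ((min_le_right _ _).trans ((min_le_right _ _).trans (min_le_left _ _)))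
  have q5 := hq.trans_le ((min_le_right _ _).trans ((min_le_right _ _).trans
    ((min_le_right _ _).trans (min_le_left _ _))))
  have q6 := hq.trans_le ((min_le_right _ _).trans ((min_le_right _ _).trans
    ((min_le_right _ _).trans ((min_le_right _ _).trans (min_le_left _ _)))))
  have q7 := hq.trans_le ((min_le_right _ _).trans ((min_le_right _ _).trans
    ((min_le_right _ _).trans ((min_le_right _ _).trans (min_le_right _ _)))))
  rw [lt_div_iff₀ hKK] at q2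
  rw [lt_div_iff₀ h3KK] at q5
  rw [lt_div_iff₀ hKR] at q3
  rw [lt_div_iff₀ hb8] at q4
  rw [lt_div_iff₀ hlu0] at q7
  have hq0 := Rc.q0
  have hrr0 : 0 < rr := hlam.trans_le hrr
  have hrq : 0 < rr * q := mul_pos hrr0 hq0
  have hbq : 0 < b * q := mul_pos hbp hq0
  have hbluq : 0 < b * lu * q := mul_pos hblu hq0
  have e4 : q * (8 * b + 8 * rr + 24 * (b * lu)) = 8 * (b * q) + 8 * (rr * q) +
    24 * (b * lu * q) := by ring
  rw [e4] at q4
  have hKq0 : 0 < K' * q := mul_pos hK'p hq0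
  have hK₀q : 0 < K₀ * q := mul_pos hK₀ hq0
  -- the record with the windows `Va`
  have Ra := Rc.mono (K₁ := K') (ε₁ := ε) (N₁ := N) (A₁ := A) (V₁ := V) (N₁' := Na)
    (V₁' := Va) le_rfl le_rfl (fun k hk => ⟨k, hk, rfl, rfl⟩) (fun k hk => by
      obtain ⟨j, hj, e⟩ := hwn k hk
      exact ⟨j, hj, e.symm⟩)
  have hnear := Rc.near
  have hVaA : ∀ k < Na, |Va k| ≤ K' := fun k hk => by
    obtain ⟨h2, h3⟩ := hVaK k hk
    exact abs_le.2 ⟨by linarith, by linarith⟩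
  have hwd : ∀ k < Na, |t + Va k * q - g| ≤ (K' + K₀) * q := by
    intro k hk
    have h1 : |Va k * q| ≤ K' * q := by
      rw [abs_mul, abs_of_pos hq0]
      exact mul_le_mul_of_nonneg_right (hVaA k hk) hq0.le
    calc |t + Va k * q - g| = |(t - g) + Va k * q| := by congr 1; ring
      _ ≤ |t - g| + |Va k * q| := abs_add_le _ _
      _ ≤ K₀ * q + K' * q := add_le_add hnear h1
      _ = (K' + K₀) * q := by ring
  have hmw : ∀ k < Na, μ ≤ L (r + 1) (t + Va k * q) (t + Va k * q) ∧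
      μ ≤ L r (t + Va k * q) (t + Va k * q) ∧ L r (t + Va k * q) (t + Va k * q) + μ ≤ 1 ∧
      i₀.2.1 + L (r + 1) (t + Va k * q) (t + Va k * q) + μ ≤ 1 ∧
      i₀.2.2.2 + μ ≤ L (r + 1) (t + Va k * q) (t + Va k * q) ∧
      L (r + 1) (t + Va k * q) (t + Va k * q) + L r (t + Va k * q) (t + Va k * q) + μ ≤
        1 + i₀.2.2.2 := by
    intro k hk
    obtain ⟨b1, b2, b3, b4, b5, b6⟩ := hmar (t + Va k * q) ((hwd k hk).trans (by linarith))
    exact ⟨by linarith, by linarith, by linarith, by linarith, by linarith, by linarith⟩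
  have hqX : X / 4 * q ≤ μ := by
    have : X * q ≤ 1 * q := mul_le_mul_of_nonneg_right hXc hq0.le
    linarith
  have hXq0 : 0 < X / 4 * q := by positivity
  have hn0 : Nv < Na := by omega
  have hn1 : Nv + 1 < Na := by omega
  have hn2 : Nv + 2 < Na := by omega
  -- the labels of the chain
  have hatd : ∀ k < Na, ∃ rk E : ℝ, 0 ≤ rk ∧ rk < 1 ∧ 0 ≤ E ∧
      E + L (r + 1) (t + Va k * q) (t + Va k * q) ≤ 1 - (1 / 2) ^ k₀ (M + 1) ∧
      LbU S ((range (r + 1)).image c) (c (r + 1)) (t + Va k * q)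
        (L (r + 1) (t + Va k * q) (t + Va k * q)) rk E := fun k hk => by
    obtain ⟨rk, E, c1, c2, c3, c4, c5⟩ := hat _ (Ra.memG.2 k hk) ((hwd k hk).trans (by linarith))
    have h2 : (0 : ℝ) < (1 / 2) ^ k₀ (M + 1) := by positivity
    exact ⟨rk, E, c1, by linarith, c3, c4, c5⟩
  obtain ⟨Sb, hsb, Rb, hlabc⟩ := hlbf Ra hK'p hVaA (le_refl (3 * K' * q)) (fun k hk => by
      obtain ⟨rd, -, h2⟩ := hch _ (Ra.memG.2 k hk)
      exact ⟨rd, h2⟩) (fun k hk => by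
      obtain ⟨rk, E, h1, h2, h3, h4, h5⟩ := hatd k hk
      refine ⟨rk, E, h3, ?_, h5⟩
      show E + L (r + 2 - 1) _ _ + 3 * K' * q ≤ 1
      have h6 : E + L (r + 2 - 1) (t + Va k * q) (t + Va k * q) ≤ 1 - (1 / 2) ^ k₀ (M + 1) := h4
      linarith)
  have hsbs : SubC Sb S := hsb
  -- the family of labels
  obtain ⟨ks, hks⟩ : ∃ ks : ℕ → ℕ, ks = fun k => if k = 0 then Nv else if k = 1 then Nv + 1 else
    if k = 2 then Nv + 4 + (cb - 3) * M₀ else Nv + 4 + (cb * M₀ + (k - 3)) := ⟨_, rfl⟩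
  have k0 : ks 0 = Nv := by rw [hks]; simp
  have k1 : ks 1 = Nv + 1 := by rw [hks]; simp
  have k2 : ks 2 = Nv + 4 + (cb - 3) * M₀ := by rw [hks]; simp
  have k3 : ∀ j, ks (3 + j) = Nv + 4 + (cb * M₀ + j) := fun j => by
    rw [hks]
    simp only [show ¬ 3 + j = 0 by omega, show ¬ 3 + j = 1 by omega, show ¬ 3 + j = 2 by omega,
      if_false]
    congr 2
    omega
  have hcb3M : (cb - 3) * M₀ ≤ cb * M₀ := Nat.mul_le_mul_right _ (by omega)
  have hksN : ∀ i < M₀ + 4, ks i < Na := by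
    intro i hi
    rcases Nat.lt_or_ge i 3 with h3 | h3
    · interval_cases i
      · rw [k0]; exact hn0
      · rw [k1]; exact hn1
      · rw [k2]
        have := hnbM ((cb - 3) * M₀) (by omega)
        omega
    · obtain ⟨j, rfl⟩ : ∃ j, i = 3 + j := ⟨i - 3, by omega⟩
      rw [k3]
      have := hnbM (cb * M₀ + j) (by omega)
      omega
  have hchb : ∀ j ≤ M₀, chV M₀ cb (cb * M₀ + j) = (j : ℝ) / M₀ := fun j _ =>
    Pool.V0F.chV_nb hM1 j
  have hchc : chV M₀ cb ((cb - 3) * M₀) = -3 := by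
    unfold chV
    have e3 : (((cb - 3) * M₀ : ℕ) : ℝ) = (cb - 3) * M₀ := by
      rw [Nat.cast_mul, Nat.cast_sub hcb3]
      norm_num
    rw [e3]
    field_simp
    ring
  have kv0 : Va (ks 0) = -y₁ := by rw [k0, v1]
  have kv1 : Va (ks 1) = 0 := by rw [k1, v2]
  have kv2 : Va (ks 2) = -(2 * φt) - 3 * lu := by
    rw [k2, v5, hvg]
    show -(2 * φt) + chV M₀ cb ((cb - 3) * M₀) * lu = _
    rw [hchc]
    ring
  have kv3 : ∀ j ≤ M₀, Va (ks (3 + j)) = -(2 * φt) + (j : ℝ) / M₀ * lu := fun j hj => by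
    rw [k3, v5, hvg]
    show -(2 * φt) + chV M₀ cb (cb * M₀ + j) * lu = _
    rw [hchb j hj]
  have kb : ∀ i < M₀ + 4, -y₁ ≤ Va (ks i) ∧ Va (ks i) ≤ lu := by
    intro i hi
    rcases Nat.lt_or_ge i 3 with h3 | h3
    · interval_cases i
      · rw [kv0]; constructor <;> linarith
      · rw [kv1]; constructor <;> linarith
      · rw [kv2]; constructor <;> linarith
    · obtain ⟨j, rfl⟩ : ∃ j, i = 3 + j := ⟨i - 3, by omega⟩
      rw [kv3 j (by omega)]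
      have h4 : 0 ≤ (j : ℝ) / M₀ := by positivity
      have h5 : (j : ℝ) / M₀ ≤ 1 := by
        rw [div_le_one hM0]
        exact_mod_cast (by omega : j ≤ M₀)
      have h6 : 0 ≤ (j : ℝ) / M₀ * lu := by positivity
      have h7 := mul_le_mul_of_nonneg_right h5 hlu0.le
      constructor <;> linarith
  have hat' : ∀ k ≥ k₂, AltAt Sb ((range (r + 1)).image c) ((range r).image c) (c (r + 1))
      i₀.1.2.2 i₀.2.1 i₀.2.2.1 i₀.2.2.2 (fun w => L (r + 1) w w) g φ e₁ k := by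
    intro k hk
    have h4 := hrt k hk
    rw [a1, a2] at h4
    exact h4.sub hsbs
  obtain ⟨S₁, hne₁, hs₁, R₁, hAlW, Ψ, wΨ, p₁, p₂, eN, uN, pN, HM, hblb⟩ := halm Rb hbd.symm
    (hKb.trans hK') hεb hVaA (fun k hk => by
      obtain ⟨rd, -, h2⟩ := hch _ (Ra.memG.2 k hk)
      exact ⟨rd, h2.sub hsbs⟩) (μ := μ) (fun k hk => by
      obtain ⟨rk, E, c1, c2, c3, c4, c5⟩ := hatd k hk
      exact ⟨E, rk, c3, by linarith, (hmw k hk).2.2.1, c5.sub hsbs⟩)
    (x := g) (e₀ := i₀.2.1) (ρ₀ := i₀.2.2.1)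
    (π₀ := i₀.2.2.2) (φ := φ) (e := e₁) (Kf := i₀.1.2.2) (k₁ := k₂) hnear (hiD.trans hDb4)
    he₁ le_rfl hφ0 (hφ.trans hβ) hat' (by linarith) (by exact_mod_cast a4) (by exact_mod_cast a3)
    hμ0 (by linarith) (n := M₀ + 4) (ks := ks) (by omega) hksN (fun i hi => by
      obtain ⟨h4, h5⟩ := kb i hi
      exact abs_le.2 ⟨by linarith, by linarith⟩) (fun i hi => by
      rw [kv0]
      exact (kb i hi).1) (fun i hi => by
      obtain ⟨b1, b2, b3, b4, b5, b6⟩ := hmw (ks i) (hksN i hi)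
      exact ⟨b1, b4, by linarith, by linarith⟩)
  have hεq : 0 < ε * q := mul_pos hε hq0
  have hVaq : ∀ {v : ℝ}, |v| ≤ K' → |t + v * q - t| ≤ K' * q := fun hv => by
    rw [add_sub_cancel_left, abs_mul, abs_of_pos hq0]
    exact mul_le_mul_of_nonneg_right hv hq0.le
  have HO := alo_of_alm HM (j := 1) (by omega) (by omega) (lamV := lam) (rr := rr) (g₂ := y₁)
    (X := X / 4) (η := hh) (e₀ := i₀.2.1) (π₀ := i₀.2.2.2) hq0 hdt hlM1 hrr (by
      rw [kv0, kv1]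
      have h4 : b * (t + 0 * q - (t + -y₁ * q)) = b * y₁ * q := by ring
      rw [h4]
      exact mul_le_mul_of_nonneg_right (by linarith) hq0.le) (by
      rw [kv0]
      have h4 : b * (t + R * q - (t + -y₁ * q)) = (b * R + b * y₁) * q := by ring
      rw [h4]
      exact mul_le_mul_of_nonneg_right (by linarith) hq0.le) (by linarith) (by
      have h4 := abs_le.1 (R₁.dL (r + 1) (by omega) _ (hVaq (hVaA (ks 0) (hksN 0 (by omega)))))
      have h5 := abs_le.1 (R₁.dL (r + 1) (by omega) _ (hVaq (hVaA (ks 1) (hksN 1 (by omega)))))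
      rw [← hbd] at h4 h5
      have h6 : b * (t + Va (ks 0) * q - t) = -(b * y₁ * q) := by rw [kv0]; ring
      have h7 : b * (t + Va (ks 1) * q - t) = 0 := by rw [kv1]; ring
      rw [h6] at h4
      rw [h7] at h5
      have h8 : (lam + gg) * q ≤ b * y₁ * q := mul_le_mul_of_nonneg_right hly hq0.le
      have h9 : dt * lamM * q ≤ 4 * gg * q := mul_le_mul_of_nonneg_right hlM4 hq0.le
      have h10 : ε * q ≤ gg / 8 * q := mul_le_mul_of_nonneg_right hεd hq0.le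
      linarith [h4.2, h5.1]) hlM0
    (fun k hk h4 h5 h6 h7 h8 h9 h10 => hblb hh hhh hhl1 0 (by omega) k hk h4 h5 h6 h7 h8 h9 h10)
    hAlW
  -- the velocity
  obtain ⟨S', Θ, hne, hs', hΘs, hΘn, hΘe, hVf⟩ := hV q t x q1 (fun j hj => by
      obtain ⟨h4, h5, h6, h7⟩ := hx j (by omega)
      simp only [hj, if_true] at h5 h6 h7
      exact ⟨h4, h5, h6, h7⟩) N A V Na Va S₁ (fun τ J F A h => hsb τ J F A (hs₁ τ J F A h)) R₁
    hVaA (fun k hk => by
      obtain ⟨j, hj, h4, h5⟩ := hpr k (by omega)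
      rw [cmb_l hk] at h4 h5
      exact ⟨j, hj, h4, h5⟩)
    (fun k hk => ⟨k, by omega, (v0 k (by omega)).trans (by rw [hVvd, cmb_l hk])⟩) N₁ N₂ vw hN1
    hN12 hN2 (fun k hk => by
      obtain ⟨j, h4, h5, h6, h7⟩ := hvw k (by omega)
      refine ⟨j, h4, h5, h6, h7.trans ?_⟩
      rw [hvs']
      simp only [hk, if_true])
    (ks 0) (ks 1) R y₁ (X / 4) i₀.2.1 i₀.2.2.2 Ψ wΨ (p₁ 0) (p₂ 0) (eN 0) (uN 0) (pN 0) (p₁ 1)
    (p₂ 1) (eN 1) (uN 1) (pN 1) (hksN 0 (by omega)) (hksN 1 (by omega)) kv0 kv1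
    (by linarith) (alo_rt hq0 hlam.le hdta hrra hrr₀ HO)
  have hsub : SubC S' S := fun τ J F A h => hsb τ J F A (hs₁ τ J F A (hs' τ J F A h))
  have hsub1 : SubC S' Sb := fun τ J F A h => hs₁ τ J F A (hs' τ J F A h)
  have R' := Rc.sub hne hsub
  have Ra' := Ra.sub hne hsub
  have HM' := HM.sub hs'
  -- the blindness
  have hbl : ∀ k, k = Nv + 1 ∨ k = Nv + 2 →
      BlB S' c r (c (r + 1)) (t + Va (ks 0) * q) (t + Va k * q) D D
        (L (r + 1) (t + Va k * q) (t + Va k * q) - 2 * (hh * q))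
        (L r (t + Va k * q) (t + Va k * q) - 2 * (hh * q))
        (L r (t + Va k * q) (t + Va k * q) - L (r + 1) (t + Va k * q) (t + Va k * q) +
          X / 4 * q) (Fm2.lab Θ) := by
    intro k hk
    have hk4 : k < Na := by omega
    have hVk : 0 ≤ Va k ∧ Va k ≤ 1 := by
      rcases hk with rfl | rfl
      · rw [v2]
        exact ⟨le_rfl, by linarith⟩
      · rw [v3]
        exact ⟨by norm_num, by linarith⟩
    obtain ⟨b1, b2, b3, b4, b5, b6⟩ := hmw k hk4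
    have h1 := hblb hh hhh hhl1 0 (by omega) k hk4 (by rw [kv0]; linarith)
      (abs_le.2 ⟨by linarith, by linarith⟩)
      (by linarith) hqX (by linarith) (by linarith) (by linarith)
    have h2 := BlB.deg hDb1 hDb1 h1
    have h3 := blb_imp' h2 (Ψ' := Fm2.lab Θ) (fun J F A V z z' G hG => by
      obtain ⟨C', G₁, cc, h⟩ := hG
      exact hΘn J F A V C' z z' G₁ G cc h)
    intro u1 u2 u3 u4
    exact (h3 u1 u2 u3 u4).sub hs'
  have hlog : 10 * (C * hh) < X := by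
    have h1 : hh * (20 * C) = 2 * (10 * (C * hh)) := by ring
    have h2 : 0 < C * hh := mul_pos hC0 hhh
    linarith only [h1, h2, hhl3]
  have hwv : t + Va (ks 0) * q ≤ t := by
    rw [kv0]
    have h1 := mul_pos hy₁ hq0
    linarith only [h1]
  -- the slopes
  have hSl := slN_recU (Θ := Θ) (k₁ := k₁) (vw := vw) (y := y) (a := a) (Eb' := Eb (r + 1))
    (ε' := 3 * ε * q) (Rg := fun l => κ l = .one ∨ κ l = .thin) (N₁ := N₁) (Dw := Dw)
    (Dr := max Dr₀ (nzD Db)) (Kd := Db * max 1 Db) R' hN2 (by omega)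
    ((hDb1.trans hDbn).trans (le_max_right _ _)) (hDbK.trans (le_max_right _ _))
    (by rw [← hbd]; linarith)
    (by linarith) hhh hC hlog hε.le (by linarith) hwv
    (fun J F A V C z z' G₁ G₂ cc hG => by
      have h1 := (hΘn J F A V C z z' G₁ G₂ cc hG).lb
      exact ⟨fun y => by
        have := h1.deg y
        rwa [max_self] at this, h1.dep, h1.cls⟩) hΘs (fun v hv => by
      rcases hv with rfl | rfl
      · have := hbl (Nv + 1) (Or.inl rfl)
        rwa [v2] at this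
      · have := hbl (Nv + 2) (Or.inr rfl)
        rwa [v3] at this) le_rfl (Bas.mono 0 hΘe fun J _ F A hA => by
      obtain ⟨V, C', z, z', G₁, G₂, cc, h⟩ := hA
      exact ⟨A, fun _ h => h, by rw [one_mul], V, C', z, z', G₁, G₂, cc, h⟩)
  -- the four windows
  have hRf := R'.recNz (y := y) (a := a) (k₁ := k₁) (vw := fun _ => 0) (N₁ := 1) (N₂ := 3)
    (Rg := fun l => κ l = .one ∨ κ l = .thin) (by omega) hκ (by rw [hκu]; exact fun h => nomatch h)
    (Or.inr hκt) (fun l _ h => h) (fun l hl => Or.inl (hκ l hl)) (fun h => h.symm) le_rfl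
    (by omega) le_rfl
    hy hya (by rw [← hbd]; exact hsa) hS₂ (fun k hk => by
      interval_cases k
      · obtain ⟨j, hj, h4, h5⟩ := hpr (Nr + 0) (by omega)
        rw [cmb_r] at h4 h5
        exact ⟨j, hj, h4.trans ap0, by rw [h5, vp0]; norm_num [vG]⟩
      · obtain ⟨j, hj, h4, h5⟩ := hpr (Nr + 1) (by omega)
        rw [cmb_r] at h4 h5
        exact ⟨j, hj, h4.trans ap1, by rw [h5, vp1]; norm_num [vG]⟩)
    (fun k hk hk' => by
      obtain rfl | rfl : k = 2 ∨ k = 3 := by omega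
      · obtain ⟨j, hj, h4⟩ := hwn (Nv + 3) (by omega)
        exact ⟨j, hj, by rw [h4, v4]; norm_num [vG]⟩
      · obtain ⟨j, hj, h4⟩ := hwn (Nv + 2) (by omega)
        exact ⟨j, hj, by rw [h4, v3]; norm_num [vG]⟩)
    (by
      obtain ⟨j, hj, h4, h5⟩ := hpr (Nr + 2) (by omega)
      rw [cmb_r] at h4 h5
      exact ⟨j, hj, h4.trans ap2, h5.trans vp2⟩) hε.le
    (by linarith only [hεc, hXc]) (fun k hk hk' => by omega) (fun k hk hk' => by omega) hk2
    (by linarith only [hKf, hK'])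
  have hXs : ∀ (J : ℕ) (F : Fam (r + 2) J) (B B' : F.Ω → Prop) (g₀ : ℕ → ℕ → ℕ)
      (G : ℕ → PtT F → ℕ → MvPolynomial (Option (Fin (r + 2))) ℝ)
      (H : ℕ → LnT F → ℕ → MvPolynomial (Option (Fin (r + 2))) ℝ)
      (Ht : ℕ → LnT F → MvPolynomial (Option (Fin (r + 2))) ℝ)
      (CL : LnT F → MvPolynomial (Option (Fin (r + 2))) ℝ)
      (Cp : PtT F → MvPolynomial (Option (Fin (r + 2))) ℝ), Sub B' B →
      XiF Θ (t + Va (ks 0) * q) J F B g₀ G H Ht CL Cp →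
      XiF Θ (t + Va (ks 0) * q) J F B' g₀ G H Ht CL Cp := by
    rintro J F B B' g₀ G H Ht CL Cp hBB ⟨V, C', z, z', G₁, G₂, cc, h1, h2⟩
    exact ⟨V, C', z, z', G₁, G₂, cc, hΘs _ _ _ _ _ _ _ _ _ _ _ hBB h1, fun ω hω => h2 ω (hBB ω hω)⟩
  -- the windows of the grid
  have hixE : ∀ j : ℕ, ∃ i : ℕ, j ≤ nb → N₁ < i ∧ 4 ≤ i ∧ i ≤ N₂ ∧ vw i = vg j := by
    intro j
    by_cases hj : j ≤ nb
    · obtain ⟨i, h4, h5, h6, h7⟩ := hvw (ns + j) (by omega)
      refine ⟨i, fun _ => ⟨h4, h5, h6, h7.trans ?_⟩⟩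
      rw [hvs']
      show (if ns + j < ns then vs (ns + j) else vg (ns + j - ns)) = vg j
      rw [if_neg (by omega), Nat.add_sub_cancel_left]
    · exact ⟨0, fun h => absurd h hj⟩
  choose ix hix using hixE
  have hgr : ∀ j : ℕ, t + vg j * q = grV M₀ cb (t - 2 * (φt * q)) (lu * q) j := fun j => by
    rw [hvg]
    unfold grV
    show t + (-(2 * φt) + chV M₀ cb j * lu) * q = _
    ring
  have hixg : ∀ j ≤ nb, t + vG y k₁ vw (ix j) * q =
      grV M₀ cb (t - 2 * (φt * q)) (lu * q) j := fun j hj => by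
    obtain ⟨h4, h5, h6, h7⟩ := hix j hj
    rw [vG_ge h5, h7, hgr]
  have hVag : ∀ j, t + Va (Nv + 4 + j) * q = grV M₀ cb (t - 2 * (φt * q)) (lu * q) j :=
    fun j => by rw [v5, hgr]
  have hluq : 0 < lu * q := mul_pos hlu0 hq0
  have hφq : 0 < φt * q := mul_pos hφt0 hq0
  have hw3 : t + Va (ks 3) * q = t - 2 * (φt * q) := by
    have h1 := kv3 0 (Nat.zero_le _)
    rw [Nat.add_zero] at h1
    rw [h1]
    norm_num
    ring
  have hw2 : t + Va (ks 2) * q = t - 2 * (φt * q) - 3 * (lu * q) := by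
    rw [kv2]
    ring
  have hwm : ∀ t' ≤ M₀, t + Va (ks (3 + t')) * q =
      grV M₀ cb (t - 2 * (φt * q)) (lu * q) (cb * M₀ + t') := fun t' _ => by
    rw [k3, hVag]
  have hlvE : ∀ l ≤ r + 1, ∀ x : ℝ, lvN P c (r + 1) (L (r + 1)) l x x = L l x x :=
    fun l hl x => by rw [← Ra'.lv_at (by omega : r + 1 < r + 2) hl]
  have hS1 : ∀ l < r, Sl l = 1 := fun l hl => by
    have h1 := Ra'.kd l (by omega)
    rw [hκ l hl] at h1
    exact h1
  have hwt : |t - 2 * (φt * q) - t| = 2 * (φt * q) := by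
    rw [show t - 2 * (φt * q) - t = -(2 * (φt * q)) by ring, abs_neg, abs_of_pos (by linarith)]
  have hφq1 : φt * q ≤ q / 2 := by
    have := mul_le_mul_of_nonneg_right hφt2 hq0.le
    linarith
  have hE : NzE S' Ψ c r (c (r + 1)) Db wΨ (M₀ + 4) (fun i => t + Va (ks i) * q) p₁ p₂ eN uN pN :=
    nzm_part (M₀ + 4) HM'.nzo HM'.ch1 HM'.ch2
  have hlbk : ∀ k < Na, ∃ (Kc : ℕ) (E rd : ℕ → ℝ),
      (∀ l < r, 0 ≤ E l ∧ L l (t + Va k * q) (t + Va k * q) + E l + Λ * (lu * q) ≤ 1 ∧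
        0 ≤ rd l ∧ rd l + Λ * (lu * q) ≤ 1) ∧
      ∀ e : ℝ, 0 < e → Bas S' (fun J F A => ∃ (V : Type) (z : PtT F → V) (z' : LnT F → V)
        (g : V → ℕ → MvPolynomial (Option (Fin (r + 2))) ℝ),
        Pool.V0F.LbE F c r Kc E e (t + Va k * q) rd (fun l => L l (t + Va k * q) (t + Va k * q))
          A z z' g) := by
    intro k hk
    obtain ⟨E, rd, h1, h2⟩ := hlabc k hk
    have h3 : Λ * (lu * q) ≤ 3 * K' * q := by
      have h4 : Λ * lu * q ≤ K' * q := mul_le_mul_of_nonneg_right (by linarith) hq0.le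
      linarith
    refine ⟨Kl, E, rd, fun l hl => ?_, fun e he => ?_⟩
    · obtain ⟨a1, a2, a3, a4⟩ := h1 l (by omega)
      exact ⟨a1, by linarith, a3, by linarith⟩
    · refine Bas.mono 0 ((h2 e he).sub hsub1) ?_
      rintro J - F A ⟨V, z, z', g, hg⟩
      exact ⟨V, z, z', g, fun i hi => hg i (by omega)⟩
  have hV0 : V0L S' c r Db (nzD Db) (max Dr₀ (nzD Db)) N₂ N₂ C (t + a * q) (Eb (r + 1)) (hh * q)
      (fun k => t + vG y k₁ vw k * q) (fun _ => hh * q) (fun _ => hh * q)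
      (fun k l => lvN P c (r + 1) (L (r + 1)) l (t + vG y k₁ vw k * q) (t + vG y k₁ vw k * q))
      b κ₂ 1 (φt * q) (t - 2 * (φt * q)) (lu * q) (Sl r = b) ix cb M₀
      (NzW Ψ c r (c (r + 1)) Db wΨ (M₀ + 4) (fun i => t + Va (ks i) * q) p₁ p₂ eN uN pN 3) := by
    obtain ⟨x1, x2, x3, x4⟩ := hx (M + 2) (by omega)
    simp only [show ¬ M + 2 < M by omega, show ¬ M + 2 < M + 2 by omega,
      show ¬ M + 2 = M by omega, show ¬ M + 2 = M + 1 by omega, if_false] at x2 x3 x4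
    have hFa : FaQ (r, Cf, 1 / 8, κT) (k₀ (M + 2)) S' P θ c Pt rt L T κ G (x (M + 2)) :=
      FaQ.sub hsub x4
    refine hv0 Ra' hε hS1 hκ hbd.symm hba.ge hM1 hluq ?_ ?_ ?_ ?_ ?_ hCf1 hcb hco
      (κ' := κT) (k₀ := k₀ (M + 2)) (x₀ := x (M + 2)) hκT0 hκT1.le hFa ?_ ?_ ?_ ?_ ?_
      (i := 3) (i' := 2) (im := fun t' => 3 + t') HM' (by omega) hw3 (by omega) hw2
      (fun t' ht' => ⟨by omega, hwm t' ht'⟩) ?_ ?_ ?_ ?_ ?_ ?_ ?_ ?_ ?_ (le_max_right _ _) ?_ ?_ ?_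
      le_rfl
    · -- the error of the windows
      have := mul_le_mul_of_nonneg_right hφt1 hq0.le
      linarith
    · intro j hj
      rw [← hVag]
      exact Ra'.memG.2 _ (by omega)
    · rw [hwt]
      have h1 : (cb * lu + co * lu + Λ * lu + lu + 1) * q ≤ K' * q :=
        mul_le_mul_of_nonneg_right (by linarith) hq0.le
      have h2 : (cb + co + Λ + 1) * (lu * q) = (cb * lu + co * lu + Λ * lu + lu) * q := by ring
      rw [h2]
      linarith
    · have := mul_le_mul_of_nonneg_right (show 4 * ε ≤ φt by linarith) hq0.le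
      linarith
    · rw [hba, ← hbd]
      have h1 : 3 * ((1 + b + b) * (lu * q / M₀)) = 3 * ((1 + 2 * b) * lu) * q / M₀ := by ring
      rw [h1, div_le_iff₀ hM0]
      have := mul_le_mul_of_nonneg_right hMφ hq0.le
      linarith
    · linarith
    · have h1 : t + b₀ * q ≤ x (M + 2) := x2
      have h2 : b₀ * q = -(2 * (φt * q)) - (Cf + (7 * r + 12) / 2 - Λ) * (lu * q) := by
        rw [hb₀]; ring
      linarith
    · have h1 : x (M + 2) ≤ t + b₁ * q := x3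
      have h2 : b₁ * q = -(2 * (φt * q)) - (Cf / 2 + 7 * r + 13) * (lu * q) := by
        rw [hb₁]; ring
      linarith
    · intro j hj
      obtain ⟨rk, E, c1, c2, c3, c4, c5⟩ := hatd (Nv + 4 + j) (by omega)
      rw [hVag] at c4 c5
      have h2 : (0 : ℝ) < (1 / 2) ^ k₀ (M + 1) := by positivity
      exact ⟨rk, E, c1, c2, c3, by linarith, c5.sub hsub⟩
    · rintro x' (rfl | rfl)
      · have h1 := hlbk (ks 3) (hksN 3 (by omega))
        rw [hw3] at h1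
        exact h1
      · have h1 := hlbk (ks 2) (hksN 2 (by omega))
        rw [hw2] at h1
        exact h1
    · exact div_nonneg hφ0 hbp.le
    · rw [div_le_iff₀ hbp]
      linarith
    · have := mul_le_mul_of_nonneg_right hlM3 hq0.le
      linarith
    · exact le_of_eq (by ring)
    · linarith
    · exact mul_le_mul_of_nonneg_right hlM2 hq0.le
    · have := mul_le_mul_of_nonneg_right (show lamM + gM ≤ b * lu by linarith) hq0.le
      linarith
    · have h1 : b * (t - 2 * (φt * q) - t) = -(2 * (b * φt) * q) := by ring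
      rw [h1]
      have h2 : 0 < b * φt := mul_pos hbp hφt0
      have h3 : (3 * lu + gM + ε) * q ≤ (b * R + 2 * (b * φt)) * q :=
        mul_le_mul_of_nonneg_right (by linarith) hq0.le
      linarith
    · rw [hwt]
      have h3 : (2 * φt + lu) * q ≤ R * q := mul_le_mul_of_nonneg_right (by linarith) hq0.le
      linarith
    · intro j hj
      exact ⟨(hix j (by omega)).2.2.1, hixg j (by omega)⟩
    · intro i _ l hl
      exact hlvE l hl _
    · have h1 : hh * (4 * C) * q ≤ φt * q := mul_le_mul_of_nonneg_right hhl4 hq0.le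
      linarith
  -- the numbers of the windows
  have hTi : TieR r (fun k => t + vG y k₁ vw k * q)
      (fun k l => lvN P c (r + 1) (L (r + 1)) l (t + vG y k₁ vw k * q) (t + vG y k₁ vw k * q))
      (ix 0) (ix (cb * M₀)) (ix (cb * M₀ + M₀)) (hh * q) (Sl (r + 1) * q)
      (X / 2 * q + 2 * (ε * q)) (X * q) (t - 2 * (φt * q)) (lu * q) (φt * q) κ₂ := by
    rw [← hbd]
    exact tieR_rec R' (cb := (cb : ℝ)) hκ hba hbd.symm hs hε.le hhh.le hhl5 hφt0.le hcbl hlu3 hlu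
      hφt3 (by linarith) hφt2 hX0 (by linarith) hk10.le
      (by rw [hixg 0 (Nat.zero_le _), grV_zero]) (by rw [hixg _ (by omega), grV_mid hM1])
      (by rw [hixg _ (by omega), grV_one hM1])
  have h2M : 2 ≤ cb * M₀ := by
    have : 1 * M₀ ≤ cb * M₀ := Nat.mul_le_mul_right _ (by omega)
    omega
  have hΨd : ∀ (J : ℕ) (F : Fam (r + 2) J) (A : F.Ω → Prop) (V : Type) (z : PtT F → V)
      (z' : LnT F → V) (G : V → MvPolynomial (Option (Fin (r + 2))) ℝ), Ψ J F A V z z' G →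
      (∀ y, (G y).totalDegree ≤ Db) ∧ (∀ y, DpI ((range (r + 1)).image c) (G y)) ∧
      ∀ ω, A ω → z (ptr F J ω) = z' (slam F ⌊wΨ * J⌋₊ ω) := by
    intro J F A V z z' G hG
    obtain ⟨e₀, ρ₀, π₀, -, -, -, h1⟩ := HM'.lb
    have h2 := h1 J F A V z z' G hG
    exact ⟨h2.deg, h2.dep, h2.cls⟩
  have hTB := httb (S := S') (c := c) (Dr := max Dr₀ (nzD Db)) (N := N₁) (N₂ := N₂)
    (R := fun l => κ l = .one ∨ κ l = .thin) (C := C) (a := t + a * q) (Eb := Eb (r + 1))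
    (ε₀ := 3 * ε * q) (η₀ := hh * q) (ζ := X / 2 * q + 2 * (ε * q)) (χ := X * q)
    (mb := Sl (r + 1) * q) (Pt := L (r + 1)) (o := fun k => t + vG y k₁ vw k * q)
    (lv := fun k l => lvN P c (r + 1) (L (r + 1)) l (t + vG y k₁ vw k * q)
      (t + vG y k₁ vw k * q))
    (be := fun k l => bet P c l (t + a * q) (t + vG y k₁ vw k * q)) (κ₁ := (1 / 8) ^ (M₀ + 4))
    (Θ := Θ) (n := M₀ + 4) (vv := fun i => t + Va (ks i) * q) (Ψ := Ψ) (wΨ := wΨ) (p₁ := p₁)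
    (p₂ := p₂) (eN := eN) (uN := uN) (pN := pN) (i₀ := 0) (i := 3) (w₀ := t + Va (ks 0) * q)
    (w := t - 2 * (φt * q)) (u := lu * q) (φ := φt * q) (κ₂ := κ₂) (sR := b) (ι := 1)
    (tie := (Sl r = b)) (cb := cb) (M₀ := M₀) (ix := ix) R'.inj hN2 hC (mul_pos hhh hq0)
    (mul_pos hX0 hq0) (by
      have h1 : 0 < C * hh := mul_pos hC0 hhh
      have h2 : C * hh * q < X * q := mul_lt_mul_of_pos_right (by linarith) hq0
      linarith) hluq HM'.hs hΨd (fun J F A V C' z z' G₁ G₂ cc hG => hΘn J F A V C' z z' G₁ G₂ cc hG)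
    (by omega) hw3 (HM'.wv 0 (by omega)) (by
      rw [kv0]
      have h1 : 1 * q ≤ y₁ * q := mul_le_mul_of_nonneg_right (by linarith) hq0.le
      linarith) (by
      show t - 2 * (φt * q) ≤ t + vG y k₁ vw 0 * q
      have h1 : vG y k₁ vw 0 = 0 := by simp [vG]
      rw [h1]
      linarith) (HM'.w0.trans (HM'.wv 0 (by omega))) hE hV0 h2M
    (fun j hj => (hix j (by omega)).2.2.1) (fun j hj => by
      show t + vG y k₁ vw (ix j) * q + hh * q ≤ t + vG y k₁ vw (ix (j + 1)) * q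
      rw [hixg j (by omega), hixg (j + 1) (by omega), grV_step]
      have h1 : hh * q ≤ lu / M₀ * q := mul_le_mul_of_nonneg_right hhl6 hq0.le
      have h2 : lu * q / M₀ = lu / M₀ * q := by ring
      rw [h2]
      linarith) (by
      show t + vG y k₁ vw (ix 1) * q ≤ t + vG y k₁ vw (ix 0) * q + lu * q / 2
      rw [hixg 1 (by omega), hixg 0 (by omega)]
      have h1 := grV_step (M₀ := M₀) (cb := cb) (t - 2 * (φt * q)) (lu * q) 0
      rw [zero_add] at h1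
      rw [h1]
      have h2 : lu * q / M₀ ≤ lu * q / 2 := div_le_div_of_nonneg_left hluq.le (by norm_num) hM2R
      linarith) hTi (by positivity) (by
      rw [← mul_pow]
      norm_num)
  refine ⟨S', fun J F B g₀ G H Ht CL Cp => XiF Θ (t + Va (ks 0) * q) J F B g₀ G H Ht CL Cp ∧
    XiCl c r Dw CT (X * q) (Sl (r + 1) * q) (fun k => t + vG y k₁ vw k * q)
      (fun k l => lvN P c (r + 1) (L (r + 1)) l (t + vG y k₁ vw k * q) (t + vG y k₁ vw k * q))
      J F B g₀ G H Ht CL Cp, hsub, R', fun J F B g₀ G H Ht CL Cp h => h.2,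
    ⟨(1 / 8) ^ (M₀ + 4) / 8, 8 * 1 * (8 ^ (M₀ + 4) * 8), by positivity, by positivity, ?_⟩,
    fun κ' qf Pq h1 h2 h3 h4 => ?_, fun K₅ hK₅ hst => ?_⟩
  · refine hCT hRf N₁ N₂ hN1 hN2 (by linarith only [hba, hs]) (by rw [← hbd]; exact hs) hC hhh
      (by
        have h1 : ε * (6 * C) = 2 * (3 * C * ε) := by ring
        have h2 : 0 < 3 * C * ε := by positivity
        linarith only [h1, h2, hεe]) hlog hXc4 hDDw hXs (by norm_num)
      (by positivity : (0 : ℝ) ≤ (1 / 8) ^ (M₀ + 4)) (le_of_eq (by ring))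
      (hSl.kap ?_ (by positivity)) hTB
    have h1 : ((1 : ℝ) / 8) ^ (M₀ + 4) ≤ 1 := pow_le_one₀ (by norm_num) (by norm_num)
    linarith
  · obtain ⟨K₂, hK, hv⟩ := hVf κ' qf Pq h1 h2 h3 h4
    exact ⟨K₂, hK, hv.xi fun J F B g₀ G H Ht CL Cp h => h.1⟩
  · -- the static end
    have hhX : 8 * hh ≤ X := by
      have h5 : hh ≤ C * hh := le_mul_of_one_le_left hhh.le hC
      linarith
    have hpa : ∃ j < N, A j = ar ∧ V j = 0 := by
      obtain ⟨j, hj, h4, h5⟩ := hpr (Nr + 3) (by omega)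
      rw [cmb_r] at h4 h5
      exact ⟨j, hj, h4.trans ap3, h5.trans vp3⟩
    have hwa : ∀ k < Nw, ∃ j < Na, Va j = Vw k := fun k hk =>
      ⟨Nvo + k, by omega, (v0 _ (by omega)).trans (by rw [hVvd, cmb_r])⟩
    have hmg : ∀ k < Na, μ ≤ L (r + 1) (t + Va k * q) (t + Va k * q) ∧
        μ ≤ L r (t + Va k * q) (t + Va k * q) ∧
        i₀.2.1 + L (r + 1) (t + Va k * q) (t + Va k * q) + μ ≤ 1 ∧
        L (r + 1) (t + Va k * q) (t + Va k * q) + L r (t + Va k * q) (t + Va k * q) + μ ≤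
          1 + i₀.2.2.2 := fun k hk => by
      obtain ⟨b1, b2, b3, b4, b5, b6⟩ := hmw k hk
      exact ⟨b1, b2, b4, b6⟩
    have hst' := str_imp hst (Ξ' := XiF Θ (t + Va (ks 0) * q))
      fun J F B g₀ G H Ht CL Cp h => h.1
    have hO' := HO.sub hs'
    have hKsK : Ks ≤ K' := hK₁b.trans (hKa.trans hK')
    subst hr2
    exact hste (hκ 0 (by norm_num)) (hκ 1 (by norm_num)) hκt hbd.symm hKsK hε hεs' hsub hch Ra'
      hpa hwa kv0 hR13 le_rfl hrrb hdt hdtb hdtc hX0 hXe hhh hhX hμ0 hqX hmg hO' hΘs hΘn K₅ hK₅ hst'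

/-- **The static end over a thin coordinate of the same slope**, `r = 2`. -/
theorem svSC_E {y a h hb β' κ₂ lu : ℝ} {Sl : ℕ → ℝ} {κ : ℕ → Kg} {ι : Type}
    {Q : PropG 4 ι} {Dv : ℕ} (hκ : ∀ l < 2, κ l = .one)
    (hκu : κ 2 = .thin) (hκt : κ 3 = .sta) (hσ2 : 2 ≤ Sl 3) (hb0 : 0 < hb) (hb1 : hb ≤ 1)
    (hβ : β' ≤ (1 - hb) * Sl 3 * Real.log 2)
    (hab : Sl 2 = Sl 3) (hκ₂0 : 0 < κ₂)
    (hκ₂1 : κ₂ < (Sl 3 - 1) / Sl 3 * hb) (hlu3 : 3 ≤ lu)
    (hlu : Sl 3 - 1 ≤ κ₂ * lu) (hy : 3 / 2 ≤ y) (hya : y + 1 / 2 ≤ a)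
    (hsa : Sl 3 + 1 ≤ a) (hla : lu + 1 / 2 ≤ a) (hV : VbYb 2 y a h hb Sl κ Q) :
    SvSC 4 2 y a h Sl κ (sumQ Q (sumQ (sumQ (ChUQ : PropG 4 Unit)
      (AttUQ : PropG 4 Unit)) (FaQ : PropG 4 (ℕ × ℕ × ℚ × ℚ))))
      (fun e : PosR => LowE (AdmL 4) β' Dv e) :=
  svSC_Er rfl hκ hκu hκt hσ2 hb0 hb1 hβ hab hκ₂0 hκ₂1 hlu3 hlu hy hya hsa hla hV

end Pool.STB65
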