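import Pool.Agent.H65.VS.Sti
import Pool.Agent.H65.VS.Sla
import Pool.Agent.H65.VS.Alm
import Pool.Agent.H92.ALT.Jn2
import Pool.Agent.H92.STE.Se10

/-!
# The static end over a thin coordinate of smaller slope, when a family of labels has small rate

`svSY_B`: `SvSY` under `LowE`, from `VbYb`.
-/

set_option autoImplicit false

namespace Pool.STB65

open Finset Real MvPolynomial
open Pool.Agent.H49.Ent Pool.Agent.H32.Dense Pool.STK Pool.KA Pool.KSAT Pool.K2S Pool.PB Pool.S6C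
  Pool.GEN Pool.RCD Pool.LA91 Pool.OWN68 Pool.PKG Pool.ALT
open Pool.CHT Pool.CHX Pool.ISO Pool.D2R Pool.D2G30 Pool.V1E Pool.CR99 Pool.GRW
open Pool.UNJ (ceI)
open Pool.GRD (LbP)
open Pool.PN18 (Fm2)
open Pool.V0F (LbU ChUQ AttUQ)

set_option maxHeartbeats 4000000 in
/-- **The static end over a thin coordinate, when a family of labels has small rate.** -/
theorem svSY_B {y a h hb β' : ℝ} {Sl : ℕ → ℝ} {κ : ℕ → Kg} {ι : Type}
    {Q : PropG 4 ι} {Dv : ℕ} (k0 : κ 0 = .one) (k1 : κ 1 = .one) (hκu : κ 2 = .thin)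
    (hκt : κ 3 = .sta) (hσ2 : 2 ≤ Sl 3) (hb0 : 0 < hb) (hb1 : hb ≤ 1)
    (hβ : β' ≤ (1 - hb) * Sl 3 * Real.log 2) (hy : 3 / 2 ≤ y)
    (hya : y + 1 / 2 ≤ a) (hsa : Sl 3 + 1 ≤ a)
    (hys : Sl 3 - 1 ≤ y * (Sl 3 - Sl 2))
    (has : Sl 3 - 1 + (Sl 2 - 1) * y ≤ a) (hV : VbYb 2 y a h hb Sl κ Q) :
    SvSY 4 2 y a h Sl κ (sumQ Q (sumQ (ChUQ : PropG 4 Unit)
      (AttUQ : PropG 4 Unit)))
      (fun e : PosR => LowE (AdmL 4) β' Dv e) := by
  classical
  intro al hal K₀ hK₀ S₀ hS₀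
  obtain ⟨ar, del, har1, har2, hdel, hste⟩ := ste_all hσ2 hb0 hb1
  obtain ⟨Kr, Nr, Ar, Vr, hKr, hAV, hV⟩ := hV al hal K₀ hK₀ S₀ hS₀
  obtain ⟨D₀, hD₀, halo⟩ := alo_rec 2 S₀ hS₀
  have ha0 : 0 < a := by linarith
  refine ⟨ar, del, har1, hdel, max Kr 2, Nr + 1, fun k => if k < Nr then Ar k else ar,
    fun k => if k < Nr then Vr k else 0, hKr.trans (le_max_left _ _), fun k hk => ?_,
    fun S₂ hS₂ D hD => ?_⟩
  · have m1 := le_max_left Kr 2
    have m2 := le_max_right Kr 2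
    by_cases hk' : k < Nr
    · simp only [hk', if_true]
      obtain ⟨h4, h5, h6⟩ := hAV k hk'
      exact ⟨by linarith, h5, by linarith⟩
    · simp only [hk', if_false]
      exact ⟨by linarith, by linarith, by linarith⟩
  obtain ⟨D₁, hV⟩ := hV S₂ hS₂ D hD
  obtain ⟨Db, hDb⟩ : ∃ Db : ℕ, Db = max (max D D₀) (max D₁ Dv) := ⟨_, rfl⟩
  have hDb1 : D ≤ Db := by rw [hDb]; exact (le_max_left _ _).trans (le_max_left _ _)
  have hDb2 : D₀ ≤ Db := by rw [hDb]; exact (le_max_right _ _).trans (le_max_left _ _)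
  have hDb3 : D₁ ≤ Db := by rw [hDb]; exact (le_max_left _ _).trans (le_max_right _ _)
  have hDb4 : Dv ≤ Db := by rw [hDb]; exact (le_max_right _ _).trans (le_max_right _ _)
  have hDbK : D ≤ Db * max 1 Db := hDb1.trans (Nat.le_mul_of_pos_right _ (by simp))
  obtain ⟨Dr₀, hV⟩ := hV Db hDb1 hDb3
  refine ⟨max Dr₀ (Db * max 1 Db), hDbK.trans (le_max_right _ _), fun C hC => ?_⟩
  obtain ⟨Dw₀, hV⟩ := hV _ (le_max_left Dr₀ (Db * max 1 Db)) C hC
  refine ⟨max Dw₀ (Db * max 1 Db), hDbK.trans (le_max_right _ _), fun δ X₀ hδ hδ1 hX₀ => ?_⟩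
  obtain ⟨Xs, dt₁, hXs, hdt₁, hste⟩ := hste S₀ S₂ Db (max Dw₀ (Db * max 1 Db)) hS₀ hS₂
    (hD.trans hDb1)
  obtain ⟨y₁, hy₁e⟩ : ∃ y₁ : ℝ, y₁ = Sl 3 := ⟨_, rfl⟩
  obtain ⟨lam, rr₀, gg, dt₀, ℓ₀, kf₀, X₁, hlam, hrr₀, hgg, hdt₀, hℓ₀, hX₁, hly, hV⟩ :=
    hV _ (le_max_left Dw₀ (Db * max 1 Db)) δ X₀ hδ hδ1 hX₀ y₁ (by rw [hy₁e])
  obtain ⟨b, hbd⟩ : ∃ b : ℝ, b = Sl 3 := ⟨_, rfl⟩
  have hbd' : Sl (2 + 1) = b := hbd.symm
  rw [hbd'] at hly
  rw [← hbd] at hβ hsa hys has hste hσ2 hy₁e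
  have hs : 1 < b := by linarith
  have hbp : 0 < b := by linarith
  have hy₁ : 0 < y₁ := by linarith
  have hby : 0 < b * y₁ := mul_pos hbp hy₁
  obtain ⟨Ks, Nw, Vw, εs, hKs, hVw, hεs, hste⟩ := hste K₀ y₁ lam hK₀ (by linarith) hlam
  obtain ⟨dt, hdt⟩ : ∃ dt : ℝ, dt = min dt₀ (min dt₁ (dt₁ / lam)) := ⟨_, rfl⟩
  have hdt0 : 0 < dt := by rw [hdt]; positivity
  have hdta : dt ≤ dt₀ := by rw [hdt]; exact min_le_left _ _
  have hdtb : dt ≤ dt₁ := by rw [hdt]; exact (min_le_right _ _).trans (min_le_left _ _)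
  have hdtc : dt * lam ≤ dt₁ := by
    have : dt ≤ dt₁ / lam := by rw [hdt]; exact (min_le_right _ _).trans (min_le_right _ _)
    rwa [le_div_iff₀ hlam] at this
  obtain ⟨rr, hrrd⟩ : ∃ rr : ℝ, rr = max rr₀ (b * y₁ + b + 3) := ⟨_, rfl⟩
  have hrra : rr₀ ≤ rr := by rw [hrrd]; exact le_max_left _ _
  have hrrb : b * y₁ + b + 3 ≤ rr := by rw [hrrd]; exact le_max_right _ _
  have hrr : lam ≤ rr := hrr₀.trans hrra
  obtain ⟨X, hX⟩ : ∃ X : ℝ, X = min (min X₀ X₁) (min Xs (min 1 (b * y₁))) := ⟨_, rfl⟩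
  have hX0 : 0 < X := by
    rw [hX]; exact lt_min (lt_min hX₀ hX₁) (lt_min hXs (lt_min one_pos hby))
  have hXa : X ≤ X₀ := by rw [hX]; exact (min_le_left _ _).trans (min_le_left _ _)
  have hXb : X ≤ X₁ := by rw [hX]; exact (min_le_left _ _).trans (min_le_right _ _)
  have hXe : X ≤ Xs := by rw [hX]; exact (min_le_right _ _).trans (min_le_left _ _)
  have hXc : X ≤ 1 := by
    rw [hX]; exact (min_le_right _ _).trans ((min_le_right _ _).trans (min_le_left _ _))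
  have hXd : X ≤ b * y₁ := by
    rw [hX]; exact (min_le_right _ _).trans ((min_le_right _ _).trans (min_le_right _ _))
  obtain ⟨R, hR⟩ : ∃ R : ℝ, R = max (max (y + y₁) (y₁ + 3)) ((rr + gg) / b) := ⟨_, rfl⟩
  have hR1 : y + y₁ ≤ R := by rw [hR]; exact (le_max_left _ _).trans (le_max_left _ _)
  have hR3 : y₁ + 3 ≤ R := by rw [hR]; exact (le_max_right _ _).trans (le_max_left _ _)
  have hR2 : rr + gg ≤ b * R := by
    have : (rr + gg) / b ≤ R := by rw [hR]; exact le_max_right _ _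
    rw [div_le_iff₀ hbp] at this
    linarith
  have hR0 : 0 < R := by linarith
  obtain ⟨ℓ, h₁, ε₁, e₁, hℓ, hℓ₁, hh₁, hε₁, he₁, halo⟩ := halo Db hDb2 (b := b) (h := hb)
    (δ := dt) (lam := lam) (rr := rr) (gg := gg) (R := R) (K₁ := K₀) (ℓ₀ := ℓ₀) (X := X / 4)
    (g₂ := y₁) hbp hb0 hb1 hdt0 hlam hrr hgg hR0.le hK₀.le hℓ₀ (by linarith) hy₁ (by linarith)
  obtain ⟨kf, hkf⟩ : ∃ kf : ℝ, kf = max kf₀ b := ⟨_, rfl⟩
  obtain ⟨h₂, hh₂, hV⟩ := hV ℓ X kf hℓ hℓ₁ hX0 hXb (by rw [hkf]; exact le_max_left _ _)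
  have hC0 : 0 < C := by linarith
  refine ⟨⟨e₁, he₁⟩, kf, X, min h₁ (min h₂ (X / (20 * C))), by
    rw [hbd', hkf]
    exact le_max_right _ _, hX0, hXa, by positivity, fun hh k₁ hhh hhl hk1 hk2 => ?_⟩
  have hhl1 := hhl.trans (min_le_left _ _)
  have hhl2 := hhl.trans ((min_le_right _ _).trans (min_le_left _ _))
  have hhl3 := hhl.trans ((min_le_right _ _).trans (min_le_right _ _))
  rw [le_div_iff₀ (by positivity)] at hhl3
  obtain ⟨K₁, Nv, Vv, ns, vs, hVv, hvs, hV⟩ := hV hh k₁ hhh hhl2 hk1 hk2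
  -- the windows
  obtain ⟨Va, hVa⟩ : ∃ Va : ℕ → ℝ, Va = fun k => if k < Nv then Vv k else if k = Nv then -y₁ else
    if k = Nv + 1 then 0 else if k = Nv + 2 then 1 else if k = Nv + 3 then y else
      Vw (k - (Nv + 4)) := ⟨_, rfl⟩
  have v0 : ∀ k < Nv, Va k = Vv k := fun k hk => by rw [hVa]; simp only [hk, if_true]
  have v1 : Va Nv = -y₁ := by rw [hVa]; simp
  have v2 : Va (Nv + 1) = 0 := by rw [hVa]; simp
  have v3 : Va (Nv + 2) = 1 := by rw [hVa]; simp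
  have v4 : Va (Nv + 3) = y := by rw [hVa]; simp
  have v5 : ∀ k, Va (Nv + 4 + k) = Vw k := fun k => by
    rw [hVa]
    simp only [show ¬ (Nv + 4 + k < Nv) by omega, show ¬ (Nv + 4 + k = Nv) by omega,
      show ¬ (Nv + 4 + k = Nv + 1) by omega, show ¬ (Nv + 4 + k = Nv + 2) by omega,
      show ¬ (Nv + 4 + k = Nv + 3) by omega, if_false]
    congr 1
    omega
  obtain ⟨K₂, hK₂⟩ : ∃ K₂ : ℝ, K₂ = max (max K₁ (R + 1)) (max (max a (K₀ + 1)) Ks) := ⟨_, rfl⟩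
  have hKa : K₁ ≤ K₂ := by rw [hK₂]; exact (le_max_left _ _).trans (le_max_left _ _)
  have hKb : R + 1 ≤ K₂ := by rw [hK₂]; exact (le_max_right _ _).trans (le_max_left _ _)
  have hKc : a ≤ K₂ := by
    rw [hK₂]; exact (le_max_left _ _).trans ((le_max_left _ _).trans (le_max_right _ _))
  have hKd : K₀ + 1 ≤ K₂ := by
    rw [hK₂]; exact (le_max_right _ _).trans ((le_max_left _ _).trans (le_max_right _ _))
  have hKe : Ks ≤ K₂ := by rw [hK₂]; exact (le_max_right _ _).trans (le_max_right _ _)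
  have hVaK : ∀ k < Nv + 4 + Nw, -K₂ ≤ Va k ∧ Va k ≤ K₂ := by
    intro k hk
    rcases Nat.lt_or_ge k Nv with h1 | h1
    · rw [v0 k h1]
      obtain ⟨h2, h3⟩ := hVv k h1
      exact ⟨by linarith, by linarith⟩
    rcases Nat.lt_or_ge k (Nv + 4) with h4 | h4
    · obtain ⟨j, rfl⟩ : ∃ j, k = Nv + j := ⟨k - Nv, by omega⟩
      have hj : j < 4 := by omega
      interval_cases j
      · rw [Nat.add_zero, v1]
        exact ⟨by linarith, by linarith⟩
      · rw [v2]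
        exact ⟨by linarith, by linarith⟩
      · rw [v3]
        exact ⟨by linarith, by linarith⟩
      · rw [v4]
        exact ⟨by linarith, by linarith⟩
    · obtain ⟨j, rfl⟩ : ∃ j, k = Nv + 4 + j := ⟨k - (Nv + 4), by omega⟩
      rw [v5]
      obtain ⟨h2, h3⟩ := hVw j (by omega)
      exact ⟨by linarith, by linarith⟩
  refine ⟨K₂, Nv + 4 + Nw, Va, ns, vs, hVaK, fun j hj => ?_, fun K' hK' => ?_⟩
  · obtain ⟨h2, h3⟩ := hvs j hj
    exact ⟨by linarith, h3⟩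
  obtain ⟨ε₀, hε₀, hV⟩ := hV K' (hKa.trans hK')
  refine ⟨min ε₀ (min ε₁ (min εs (X / 16))), by positivity, fun ε hε hεε => ?_⟩
  have hεa := hεε.trans (min_le_left _ _)
  have hεb := hεε.trans ((min_le_right _ _).trans (min_le_left _ _))
  have hεd := hεε.trans ((min_le_right _ _).trans ((min_le_right _ _).trans (min_le_left _ _)))
  have hεc := hεε.trans ((min_le_right _ _).trans ((min_le_right _ _).trans (min_le_right _ _)))
  intro S g₀ P θ P₂ θ₂ Eb e₂ c Pt rt L T G g hG hg hder hZ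
  obtain ⟨i₀, ⟨a1, a2, a3, a4, a5, a6, a7⟩, hiD, φ, k₂, hφ0, hφ, hrt⟩ := hZ
  have hK'0 : K₀ ≤ K' := by linarith
  have hK'p : 0 < K' := by linarith
  by_cases hpos : 0 < L 3 g g
  swap
  · obtain ⟨q₁, hq₁, H⟩ := rec_pos (by omega : 3 < 4) (hder 3 (by omega)) hK₀ hK'0
      hpos
    exact ⟨fun _ => Sum.inr (Sum.inl ()), 0, fun _ => 0, fun _ => 1, fun j hj => by omega,
      fun k₀ _ => ⟨q₁, hq₁, fun q t x hq _ N A V N' V' R => (H hq R).elim⟩⟩
  by_cases hposu : 0 < L 2 g g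
  swap
  · obtain ⟨q₁, hq₁, H⟩ := rec_pos (by omega : 2 < 4) (hder 2 (by omega)) hK₀ hK'0 hposu
    exact ⟨fun _ => Sum.inr (Sum.inl ()), 0, fun _ => 0, fun _ => 1, fun j hj => by omega,
      fun k₀ _ => ⟨q₁, hq₁, fun q t x hq _ N A V N' V' R => (H hq R).elim⟩⟩
  obtain ⟨μ₁, d, hμ₁, hd, hmar⟩ := mar_lin (hder 2 (by omega)) (hder 3 (by omega)) hpos
    hposu a5 a6 a7
  obtain ⟨p, M, B₀, B₁, hB, hV⟩ := hV ε hε hεa S g₀ P θ P₂ θ₂ Eb e₂ c Pt rt L T G g hG hg hder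
  refine ⟨fun j => if j < M then Sum.inl (p j) else if j = M then Sum.inr (Sum.inl ()) else
    Sum.inr (Sum.inr ()), M + 2, fun j => if j < M then B₀ j else 0,
    fun j => if j < M then B₁ j else 1, fun j hj => ?_, fun k₀ hk₀ => ?_⟩
  · by_cases h4 : j < M
    · simp only [h4, if_true]
      exact hB j h4
    · simp only [h4, if_false]
      exact one_pos
  have hch : ChUQ (n := 4) () (k₀ M) S P θ c Pt rt L T κ G g := by
    have h4 := hk₀ M (by omega)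
    simp only [lt_irrefl, if_false, if_true] at h4
    exact h4
  have hat : AttUQ (n := 4) () (k₀ (M + 1)) S P θ c Pt rt L T κ G g := by
    have h4 := hk₀ (M + 1) (by omega)
    simp only [show ¬ M + 1 < M by omega, show ¬ M + 1 = M by omega, if_false] at h4
    exact h4
  obtain ⟨μ, hμ⟩ : ∃ μ : ℝ, μ = min μ₁ ((1 / 2) ^ k₀ (M + 1)) := ⟨_, rfl⟩
  have hμ0 : 0 < μ := by rw [hμ]; positivity
  have hμa : μ ≤ μ₁ := by rw [hμ]; exact min_le_left _ _
  have hμb : μ ≤ (1 / 2) ^ k₀ (M + 1) := by rw [hμ]; exact min_le_right _ _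
  obtain ⟨q₁, hq₁, hV⟩ := hV k₀ (fun j hj => by
    have h4 := hk₀ j (by omega)
    simp only [hj, if_true] at h4
    exact h4) μ hμ0
  have hKK : 0 < K' + K₀ := by linarith
  have hb8 : 0 < 8 * b + 8 * rr := by linarith
  have hKR : 0 < K₀ + R + 1 := by linarith
  refine ⟨min q₁ (min (min (d / (K' + K₀)) ((1 / 2) ^ k₂ / (K₀ + R + 1))) (min
    (μ / (8 * b + 8 * rr)) (min ((1 / 2) ^ k₀ (M + 1) / (K' + K₀)) μ))), by positivity,
    fun q t x hq hx N A V N' V' Rc hpr hwn N₁ N₂ vw hN1 hN12 hN2 hvw => ?_⟩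
  have q1 := hq.trans_le (min_le_left _ _)
  have q2 := hq.trans_le ((min_le_right _ _).trans ((min_le_left _ _).trans (min_le_left _ _)))
  have q3 := hq.trans_le ((min_le_right _ _).trans ((min_le_left _ _).trans (min_le_right _ _)))
  have q4 := hq.trans_le ((min_le_right _ _).trans ((min_le_right _ _).trans (min_le_left _ _)))
  have q5 := hq.trans_le ((min_le_right _ _).trans ((min_le_right _ _).trans
    ((min_le_right _ _).trans (min_le_left _ _))))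
  have q6 := hq.trans_le ((min_le_right _ _).trans ((min_le_right _ _).trans
    ((min_le_right _ _).trans (min_le_right _ _))))
  rw [lt_div_iff₀ hKK] at q2 q5
  rw [lt_div_iff₀ hKR] at q3
  rw [lt_div_iff₀ hb8] at q4
  have hq0 := Rc.q0
  -- the record with the windows `Va`
  have Ra := Rc.mono (K₁ := K') (ε₁ := ε) (N₁ := N) (A₁ := A) (V₁ := V) (N₁' := Nv + 4 + Nw)
    (V₁' := Va) le_rfl le_rfl (fun k hk => ⟨k, hk, rfl, rfl⟩) (fun k hk => by
      obtain ⟨j, hj, e⟩ := hwn k hk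
      exact ⟨j, hj, e.symm⟩)
  have hnear := Rc.near
  have hVaA : ∀ k < Nv + 4 + Nw, |Va k| ≤ K' := fun k hk => by
    obtain ⟨h2, h3⟩ := hVaK k hk
    exact abs_le.2 ⟨by linarith, by linarith⟩
  have hwd : ∀ k < Nv + 4 + Nw, |t + Va k * q - g| ≤ (K' + K₀) * q := by
    intro k hk
    have h1 : |Va k * q| ≤ K' * q := by
      rw [abs_mul, abs_of_pos hq0]
      exact mul_le_mul_of_nonneg_right (hVaA k hk) hq0.le
    calc |t + Va k * q - g| = |(t - g) + Va k * q| := by congr 1; ring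
      _ ≤ |t - g| + |Va k * q| := abs_add_le _ _
      _ ≤ K₀ * q + K' * q := add_le_add hnear h1
      _ = (K' + K₀) * q := by ring
  have hmw : ∀ k < Nv + 4 + Nw, μ ≤ L 3 (t + Va k * q) (t + Va k * q) ∧
      μ ≤ L 2 (t + Va k * q) (t + Va k * q) ∧ L 2 (t + Va k * q) (t + Va k * q) + μ ≤ 1 ∧
      i₀.2.1 + L 3 (t + Va k * q) (t + Va k * q) + μ ≤ 1 ∧
      i₀.2.2.2 + μ ≤ L 3 (t + Va k * q) (t + Va k * q) ∧
      L 3 (t + Va k * q) (t + Va k * q) + L 2 (t + Va k * q) (t + Va k * q) + μ ≤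
        1 + i₀.2.2.2 := by
    intro k hk
    obtain ⟨b1, b2, b3, b4, b5, b6⟩ := hmar (t + Va k * q) ((hwd k hk).trans (by linarith))
    exact ⟨by linarith, by linarith, by linarith, by linarith, by linarith, by linarith⟩
  have hqX : X / 4 * q ≤ μ := by
    have : X * q ≤ 1 * q := mul_le_mul_of_nonneg_right hXc hq0.le
    linarith
  have hXq0 : 0 < X / 4 * q := by positivity
  have hn0 : Nv < Nv + 4 + Nw := by omega
  have hn1 : Nv + 1 < Nv + 4 + Nw := by omega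
  have hat' : ∀ k ≥ k₂, AltAt S ((range 3).image c) ((range 2).image c) (c 3)
      i₀.1.2.2 i₀.2.1 i₀.2.2.1 i₀.2.2.2 (fun w => L 3 w w) g φ e₁ k := by
    intro k hk
    have h4 := hrt k hk
    rw [a1, a2] at h4
    exact h4
  obtain ⟨S₁, hs₁, R₁, Ψ, w, p₁, p₂, eN, uN, pN, pa₁, pa₂, ea, ua, pa, H⟩ := halo hh hhh hhl1 Ra
    hbd' (hKb.trans hK') hεb hVaA (fun k hk => by
      obtain ⟨rd, -, h2⟩ := hch _ (Ra.memG.2 k hk)
      exact ⟨rd, h2⟩) (μ := μ) (fun k hk => by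
      obtain ⟨rk, E, c1, c2, c3, c4, c5⟩ := hat _ (Ra.memG.2 k hk) ((hwd k hk).trans (by linarith))
      exact ⟨E, rk, c3, by
        have c4' : E + L 3 (t + Va k * q) (t + Va k * q) ≤ 1 - (1 / 2) ^ k₀ (M + 1) := c4
        show E + L 3 (t + Va k * q) (t + Va k * q) + μ ≤ 1
        linarith, (hmw k hk).2.2.1, c5⟩) (x := g) (e₀ := i₀.2.1) (ρ₀ := i₀.2.2.1)
    (π₀ := i₀.2.2.2) (φ := φ) (e := e₁) (Kf := i₀.1.2.2) (k₁ := k₂) hnear (hiD.trans hDb4)
    he₁ le_rfl (hφ.trans hβ) hat' (by linarith) (by exact_mod_cast a4) (by exact_mod_cast a3) hμ0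
    (by linarith) (i := Nv) (j := Nv + 1) hn0 hn1 (by
      rw [v1, abs_neg, abs_of_pos hy₁]
      linarith) (by
      rw [v2, abs_zero]
      linarith) (by
      rw [v1, v2]
      linarith) (by
      rw [v1]
      nlinarith) (hmw Nv hn0).1 (hmw (Nv + 1) hn1).2.2.2.1
    (by
      have h5 := (hmw Nv hn0).2.2.2.2.1
      show i₀.2.2.2 < L 3 _ _
      linarith) (by
      have h5 := (hmw Nv hn0).2.2.2.2.2
      show L 3 (t + Va Nv * q) (t + Va Nv * q) + L 2 (t + Va Nv * q) (t + Va Nv * q) -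
        i₀.2.2.2 < 1
      linarith)
    (by
      have h5 := (hmw (Nv + 1) hn1).2.2.2.2.2
      show L 3 (t + Va (Nv + 1) * q) (t + Va (Nv + 1) * q) +
        L 2 (t + Va (Nv + 1) * q) (t + Va (Nv + 1) * q) - i₀.2.2.2 < 1
      linarith)
  -- the velocity
  obtain ⟨S', Θ, hne, hs', hΘs, hΘn, hΘe, hVf⟩ := hV q t x q1 (fun j hj => by
      obtain ⟨h4, h5, h6, h7⟩ := hx j (by omega)
      simp only [hj, if_true] at h5 h6 h7
      exact ⟨h4, h5, h6, h7⟩) N A V (Nv + 4 + Nw) Va S₁ hs₁ R₁ hVaA (fun k hk => by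
      obtain ⟨j, hj, h4, h5⟩ := hpr k (by omega)
      simp only [hk, if_true] at h4 h5
      exact ⟨j, hj, h4, h5⟩) (fun k hk => ⟨k, by omega, v0 k hk⟩) N₁ N₂ vw hN1 hN12 hN2 hvw
    Nv (Nv + 1) R y₁ (X / 4) i₀.2.1 i₀.2.2.2 Ψ w p₁ p₂ eN uN pN pa₁ pa₂ ea ua pa hn0 hn1 v1 v2
    (by linarith) (alo_rt hq0 hlam.le hdta hrra hrr₀ H)
  have hsub : SubC S' S := fun τ J F A h => hs₁ τ J F A (hs' τ J F A h)
  have R' := Rc.sub hne hsub
  refine ⟨S', XiF Θ (t + Va Nv * q), hsub, R', ⟨1 / (4 * 1), 8 * 1, by norm_num, by norm_num, ?_⟩,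
    fun κ' qf Pq h1 h2 h3 h4 => by
      obtain ⟨K₂, hK, hv⟩ := hVf κ' qf Pq h1 h2 h3 h4
      exact ⟨K₂, hK, hv.toN⟩, ?_⟩
  swap
  · -- the static end
    obtain ⟨jr, hjr, hAr, hVr⟩ := hpr Nr (by omega)
    simp only [lt_irrefl, if_false] at hAr hVr
    have hhX : 8 * hh ≤ X := by
      have h5 : hh ≤ C * hh := le_mul_of_one_le_left hhh.le hC
      linarith
    exact hste k0 k1 hκt hbd.symm (hKe.trans hK') hε hεd hsub hch (Ra.sub hne hsub)
      ⟨jr, hjr, hAr, hVr⟩ (fun k hk => ⟨Nv + 4 + k, by omega, v5 k⟩) v1 hR3 le_rfl hrrb hdt0 hdtb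
      hdtc hX0 hXe hhh hhX hμ0 hqX (fun k hk => by
        obtain ⟨b1, b2, b3, b4, b5, b6⟩ := hmw k hk
        exact ⟨b1, b2, b4, b6⟩) (H.sub hs') hΘs hΘn
  -- the slopes
  have hbl : ∀ k, k = Nv + 1 ∨ k = Nv + 2 ∨ k = Nv + 3 →
      BlB S' c 2 (c (2 + 1)) (t + Va Nv * q) (t + Va k * q) D D
        (L (2 + 1) (t + Va k * q) (t + Va k * q) - 2 * (hh * q))
        (L 2 (t + Va k * q) (t + Va k * q) - 2 * (hh * q))
        (L 2 (t + Va k * q) (t + Va k * q) - L (2 + 1) (t + Va k * q) (t + Va k * q) +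
          X / 4 * q) (Fm2.lab Θ) := by
    intro k hk
    have hk4 : k < Nv + 4 + Nw := by omega
    have hVk : 0 ≤ Va k ∧ Va k ≤ y := by
      rcases hk with rfl | rfl | rfl
      · rw [v2]
        exact ⟨le_rfl, by linarith⟩
      · rw [v3]
        exact ⟨by norm_num, by linarith⟩
      · rw [v4]
        exact ⟨by linarith, le_rfl⟩
    obtain ⟨b1, b2, b3, b4, b5, b6⟩ := hmw k hk4
    have h1 := H.blb k hk4 (by rw [v1]; linarith) (abs_le.2 ⟨by linarith, by linarith⟩)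
      (by linarith) hqX (by linarith) (by
        show i₀.2.1 + L 3 _ _ < 1
        linarith) (by
        show L 3 _ _ + L 2 _ _ + _ ≤ _
        linarith)
    have h2 := BlB.deg hDb1 hDb1 h1
    have h3 := blb_imp h2 (Ψ' := Fm2.lab Θ) (fun J F A V z z' G hG => by
      obtain ⟨C', G₁, cc, h⟩ := hG
      exact hΘn J F A V C' z z' G₁ G cc h)
    intro u1 u2 u3 u4
    exact (h3 u1 u2 u3 u4).sub hs'
  have hlog : 10 * (C * hh) < X := by nlinarith
  have hwv : t + Va Nv * q ≤ t := by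
    rw [v1]
    have := mul_pos hy₁ hq0
    linarith
  have := slN_rs (Θ := Θ) (k₁ := k₁) (vw := vw) (Dw := max Dw₀ (Db * max 1 Db))
    (Dr := max Dr₀ (Db * max 1 Db)) (Kd := Db * max 1 Db) R' hκu hκt hN1 hN2 (le_max_right _ _)
    (hDbK.trans (le_max_right _ _)) (le_max_right _ _) hy hya (by rw [hbd']; exact hsa)
    (by rw [hbd']; exact hys) (by rw [hbd']; exact has) (hKc.trans hK') hhh hC hlog hXc hε.le
    (by linarith) hwv
    (fun J F A V C z z' G₁ G₂ cc hG => by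
      have h1 := (hΘn J F A V C z z' G₁ G₂ cc hG).lb
      exact ⟨fun y => by
        have := h1.deg y
        rwa [max_self] at this, h1.dep, h1.cls⟩) hΘs (fun v hv => by
      rcases hv with rfl | rfl | rfl
      · have := hbl (Nv + 1) (Or.inl rfl)
        rwa [v2] at this
      · have := hbl (Nv + 2) (Or.inr (Or.inl rfl))
        rwa [v3] at this
      · have := hbl (Nv + 3) (Or.inr (Or.inr rfl))
        rwa [v4] at this) le_rfl (Bas.mono 0 hΘe fun J _ F A hA => by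
      obtain ⟨V, C', z, z', G₁, G₂, cc, h⟩ := hA
      exact ⟨A, fun _ h => h, by rw [one_mul], V, C', z, z', G₁, G₂, cc, h⟩)
  exact this

end Pool.STB65
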